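import Pool.Agent.Helper87.GP.LowerAll

/-!
# GP, lower bound to all orders on every interval: uniform constants
-/

set_option autoImplicit false
open MeasureTheory Set Filter Topology
open Pool.Agent.Helper18.GP

namespace Pool.Agent.Helper87.GP

/-- the exponents are at least `c / log(1/δ)` -/
theorem kap_low {a : ℝ} (ha : 1 < a) (n A : ℕ) : ∃ M : ℝ, 0 < M ∧ ∀ δ : ℝ, 0 < δ → δ ≤ Real.exp (-1) → ∀ H : ℕ,
    (H : ℝ) ≤ (1 / δ) ^ A → Real.log a / (2 * M * Real.log (1 / δ)) ≤ Real.log a * kap a (max ((n * H : ℕ) : ℝ) 1) := by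
  have ha0 : 0 < a := by linarith
  have hs1 : 1 < √a := by
    rw [show (1 : ℝ) = √1 by simp]
    exact Real.sqrt_lt_sqrt zero_le_one ha
  have hs0 : 0 < √a := by linarith
  have hr : 0 < 1 - (√a)⁻¹ := by
    have := inv_lt_one_of_one_lt₀ hs1
    linarith
  have hr1 : 1 - (√a)⁻¹ < 1 := by
    have : 0 < (√a)⁻¹ := by positivity
    linarith
  set c₁ : ℝ := -Real.log (1 - (√a)⁻¹) with hc₁
  have hc₁0 : 0 < c₁ := by
    have := Real.log_neg hr hr1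
    linarith
  set c₂ : ℝ := Real.log (√a) with hc₂
  have hc₂0 : 0 < c₂ := Real.log_pos hs1
  refine ⟨(Real.log (n + 1) + A + c₁) / c₂ + 1, ?_, fun δ hδ hδ1 H hH => ?_⟩
  · have : 0 ≤ Real.log ((n : ℝ) + 1) := Real.log_nonneg (by linarith [(Nat.cast_nonneg n : (0 : ℝ) ≤ n)])
    positivity
  set M : ℝ := (Real.log (n + 1) + A + c₁) / c₂ + 1 with hM
  have hlogn : 0 ≤ Real.log ((n : ℝ) + 1) := Real.log_nonneg (by linarith [(Nat.cast_nonneg n : (0 : ℝ) ≤ n)])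
  have hM0 : 0 < M := by rw [hM]; positivity
  set ℓ : ℝ := Real.log (1 / δ) with hℓ
  have hℓ1 : 1 ≤ ℓ := by
    rw [hℓ, one_div, Real.log_inv]
    have h1 := Real.log_le_log hδ hδ1
    rw [Real.log_exp] at h1
    linarith
  have hinv : 1 ≤ 1 / δ := by
    rw [le_div_iff₀ hδ, one_mul]
    refine hδ1.trans ?_
    have := Real.exp_le_exp.2 (show (-1 : ℝ) ≤ 0 by norm_num)
    rwa [Real.exp_zero] at this
  set X : ℝ := max ((n * H : ℕ) : ℝ) 1 with hX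
  have hX1 : 1 ≤ X := le_max_right _ _
  have hXle : X ≤ (n + 1) * (1 / δ) ^ A := by
    have h1 : (1 : ℝ) ≤ (1 / δ) ^ A := one_le_pow₀ hinv
    have hn0 : (0 : ℝ) ≤ n := Nat.cast_nonneg n
    refine max_le ?_ ?_
    · push_cast
      nlinarith
    · nlinarith
  have hlogX : Real.log X ≤ Real.log (n + 1) + A * ℓ := by
    have h1 := Real.log_le_log (by linarith) hXle
    rw [Real.log_mul (by positivity) (by positivity), Real.log_pow] at h1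
    exact h1
  have hlogX0 : 0 ≤ Real.log X := Real.log_nonneg hX1
  have hKK : (KK a X : ℝ) + 1 ≤ M * ℓ := by
    have h1 : (KK a X : ℝ) ≤ Real.log (X / (1 - (√a)⁻¹)) / c₂ := by
      unfold KK
      refine Nat.floor_le ?_
      rw [Real.log_div (by linarith) hr.ne']
      have : 0 ≤ Real.log X - Real.log (1 - (√a)⁻¹) := by linarith
      positivity
    rw [Real.log_div (by linarith) hr.ne'] at h1
    have h2 : (Real.log X - Real.log (1 - (√a)⁻¹)) / c₂ ≤ ((Real.log (n + 1) + A + c₁) / c₂) * ℓ := by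
      rw [div_mul_eq_mul_div]
      refine div_le_div_of_nonneg_right ?_ hc₂0.le
      have h3 : Real.log X - Real.log (1 - (√a)⁻¹) ≤ Real.log (n + 1) + A * ℓ + c₁ := by rw [hc₁]; linarith
      refine h3.trans ?_
      nlinarith
    have h4 : M * ℓ = ((Real.log (n + 1) + A + c₁) / c₂) * ℓ + ℓ := by rw [hM]; ring
    linarith
  have hkap : 1 / (2 * M * ℓ) ≤ kap a X := by
    unfold kap
    refine one_div_le_one_div_of_le (by positivity) ?_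
    linarith
  have hla : 0 < Real.log a := Real.log_pos ha
  calc Real.log a / (2 * M * ℓ) = Real.log a * (1 / (2 * M * ℓ)) := by ring
    _ ≤ _ := mul_le_mul_of_nonneg_left hkap hla.le

theorem small_log {η : ℝ} (hη : 0 < η) : ∃ δ₁ : ℝ, 0 < δ₁ ∧ ∀ δ : ℝ, 0 < δ → δ ≤ δ₁ → δ * (Real.log (1 / δ)) ^ 2 < η := by
  have h1 := tendsto_log_mul_rpow_nhdsGT_zero (show (0 : ℝ) < 1 / 2 by norm_num)
  have h2 : Tendsto (fun x : ℝ => (Real.log x * x ^ (1 / 2 : ℝ)) ^ 2) (𝓝[>] 0) (𝓝 (0 ^ 2)) := h1.pow 2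
  have h3 : ∀ᶠ x in 𝓝[>] (0 : ℝ), (Real.log x * x ^ (1 / 2 : ℝ)) ^ 2 < η := h2.eventually_lt_const (by simpa using hη)
  obtain ⟨u, hu, hu2⟩ := (mem_nhdsGT_iff_exists_Ioo_subset).1 h3
  have hu0 : (0 : ℝ) < u := hu
  refine ⟨u / 2, by positivity, fun δ hδ hδ1 => ?_⟩
  have h4 := hu2 (show δ ∈ Ioo 0 u from ⟨hδ, by linarith⟩)
  have h5 : (Real.log δ * δ ^ (1 / 2 : ℝ)) ^ 2 = δ * (Real.log (1 / δ)) ^ 2 := by
    rw [mul_pow, ← Real.rpow_natCast (δ ^ (1 / 2 : ℝ)), ← Real.rpow_mul hδ.le]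
    rw [one_div δ, Real.log_inv]
    norm_num
    ring
  rw [← h5]
  exact h4

/-- **Lower bound to all orders.** -/
theorem lower_all {a₀ b₀ : ℝ} (ha : 1 < a₀) (hab : a₀ < b₀) (A k : ℕ) (hA : 1 ≤ A) : ∃ C δ₀ : ℝ, 0 < C ∧ 0 < δ₀ ∧ δ₀ ≤ 1 ∧
    ∀ a b δ : ℝ, a₀ ≤ a → a < b → b ≤ b₀ → 0 < δ → δ ≤ δ₀ → ∀ (H : ℕ) (c : ℤ → ℂ) (p : ℝ → ℝ), TC A δ H c p →
    16 / (A : ℝ) ≤ ∫ t in (0 : ℝ)..1, (p t) ^ 2 → ∀ (s : ℕ → ℝ) (h : ℝ), δ ≤ h → h ≤ 2 * δ → ∀ R : ℝ,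
    (∀ θ, 0 ≤ θ → θ ≤ A * δ → θ * h - lam p θ ≤ R) →
    ENNReal.ofReal (1 - (R + C * δ ^ k) / Real.log b) ≤
      dimH {x | x ∈ Set.Ioo a b ∧ ∀ᶠ N : ℕ in atTop, h * N ≤ Sp p s N x} := by
  have hAr : (1 : ℝ) ≤ A := by exact_mod_cast hA
  have hA0 : (0 : ℝ) < A := by linarith
  have hla : 0 < Real.log a₀ := Real.log_pos ha
  have ha0 : 0 < a₀ := by linarith
  set n : ℕ := 2 * k + 4 with hn
  obtain ⟨M, hM, hkap⟩ := kap_low ha n A
  set B : ℝ := (2 * (A : ℝ) ^ 2) ^ (n + 1) with hB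
  have hB0 : 0 < B := by positivity
  obtain ⟨δ₁, hδ₁, hsmall⟩ := small_log (η := Real.log a₀ / (2 * M * (4 * (A : ℝ) ^ 2 + 5))) (by positivity)
  refine ⟨6 * (A : ℝ) ^ 3 + 4 * B, min (min δ₁ (Real.exp (-1))) (min (1 / (20 * (A : ℝ) ^ 5)) (1 / (8 * B))), by positivity,
    by have := Real.exp_pos (-1)
       positivity, ?_, ?_⟩
  · refine (min_le_left _ _).trans ((min_le_right _ _).trans ?_)
    have := Real.exp_le_exp.2 (show (-1 : ℝ) ≤ 0 by norm_num)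
    rwa [Real.exp_zero] at this
  intro a b δ haa hab' hbb hδ hδ₀ H c p hTC hV s h hh hh' R hR
  have hd1 : δ ≤ δ₁ := hδ₀.trans ((min_le_left _ _).trans (min_le_left _ _))
  have hd2 : δ ≤ Real.exp (-1) := hδ₀.trans ((min_le_left _ _).trans (min_le_right _ _))
  have hd3 : δ ≤ 1 / (20 * (A : ℝ) ^ 5) := hδ₀.trans ((min_le_right _ _).trans (min_le_left _ _))
  have hd4 : δ ≤ 1 / (8 * B) := hδ₀.trans ((min_le_right _ _).trans (min_le_right _ _))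
  have hδ1 : δ ≤ 1 := by
    refine hd2.trans ?_
    have := Real.exp_le_exp.2 (show (-1 : ℝ) ≤ 0 by norm_num)
    rwa [Real.exp_zero] at this
  have hc1 : 20 * (A : ℝ) ^ 5 * δ ≤ 1 := by
    rw [le_div_iff₀ (by positivity)] at hd3
    linarith
  have hc2 : 8 * B * δ ≤ 1 := by
    rw [le_div_iff₀ (by positivity)] at hd4
    linarith
  obtain ⟨K, hK, hlip⟩ := gp_lip hTC.eq
  have hpc : Continuous p := lip_cont hK hlip
  have hmean : ∫ t in (0 : ℝ)..1, p t = 0 := by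
    have h1 := coeff_zero hTC.eq
    rw [hTC.c0] at h1
    exact_mod_cast h1.symm
  set y : ℝ := 2 * (A : ℝ) ^ 2 * δ with hy
  have hy0 : 0 ≤ y := by positivity
  have hA25 : (A : ℝ) ^ 2 ≤ (A : ℝ) ^ 5 := pow_le_pow_right₀ hAr (by norm_num)
  have hA2 : (1 : ℝ) ≤ (A : ℝ) ^ 2 := one_le_pow₀ hAr
  have hA2δ : 20 * (A : ℝ) ^ 2 * δ ≤ 1 := by nlinarith
  have hy1 : y ≤ 1 := by rw [hy]; nlinarith
  have hyn : y ^ (n + 1) = B * δ ^ (n + 1) := by rw [hy, mul_pow]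
  have hδn : δ ^ (n + 1) ≤ δ ^ 2 := pow_le_pow_of_le_one hδ.le hδ1 (by omega)
  have hδsq : δ ^ 2 ≤ δ := by nlinarith
  have hyδ : 8 * y ^ (n + 1) ≤ δ := by
    rw [hyn]
    have h1 : B * δ ^ (n + 1) ≤ B * δ ^ 2 := mul_le_mul_of_nonneg_left hδn hB0.le
    nlinarith
  have hyn8 : y ^ (n + 1) ≤ 1 / 8 := by linarith
  have hyn0 : 0 ≤ y ^ (n + 1) := by positivity
  -- the norm
  set ℓ : ℝ := Real.log (1 / δ) with hℓ
  have hℓ1 : 1 ≤ ℓ := by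
    rw [hℓ, one_div, Real.log_inv]
    have h1 := Real.log_le_log hδ hd2
    rw [Real.log_exp] at h1
    linarith
  have hW : Real.exp (2 * A * δ * nm H c) + y ^ (n + 1) < (1 - 2 * y ^ (n + 1)) * a₀ ^ (kap a₀ (max ((n * H : ℕ) : ℝ) 1)) := by
    have h1 : 2 * A * δ * nm H c ≤ 4 * (A : ℝ) ^ 2 * δ * ℓ := by
      have h2 : 2 * A * δ * nm H c ≤ 2 * A * δ * (A * (1 + ℓ)) := mul_le_mul_of_nonneg_left hTC.nm_le (by positivity)
      have h3 : 2 * A * δ * (A * (1 + ℓ)) ≤ 2 * A * δ * (A * (2 * ℓ)) := by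
        refine mul_le_mul_of_nonneg_left (mul_le_mul_of_nonneg_left (by linarith) hA0.le) (by positivity)
      linarith [h2, h3, (by ring : 2 * (A : ℝ) * δ * (A * (2 * ℓ)) = 4 * (A : ℝ) ^ 2 * δ * ℓ)]
    have h2 : Real.exp (2 * A * δ * nm H c) + y ^ (n + 1) ≤ Real.exp (4 * (A : ℝ) ^ 2 * δ * ℓ + δ) := by
      have h3 := Real.exp_le_exp.2 h1
      have h4 : Real.exp (4 * (A : ℝ) ^ 2 * δ * ℓ) + δ ≤ Real.exp (4 * (A : ℝ) ^ 2 * δ * ℓ + δ) := by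
        rw [Real.exp_add]
        have h5 := Real.add_one_le_exp δ
        have h6 : 1 ≤ Real.exp (4 * (A : ℝ) ^ 2 * δ * ℓ) := Real.one_le_exp (by positivity)
        nlinarith
      linarith
    have h3 : Real.exp (-δ) ≤ 1 - 2 * y ^ (n + 1) := by
      have h4 : Real.exp (-δ) ≤ 1 / (1 + δ) := by
        rw [Real.exp_neg, ← one_div]
        exact one_div_le_one_div_of_le (by linarith) (by linarith [Real.add_one_le_exp δ])
      refine h4.trans ?_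
      rw [div_le_iff₀ (by linarith)]
      nlinarith
    have h4 := hkap δ hδ hd2 H hTC.deg
    have h5 : 4 * (A : ℝ) ^ 2 * δ * ℓ + δ + δ < Real.log a₀ * kap a₀ (max ((n * H : ℕ) : ℝ) 1) := by
      refine lt_of_lt_of_le ?_ h4
      rw [lt_div_iff₀ (by positivity)]
      have h6 := hsmall δ hδ hd1
      rw [lt_div_iff₀ (by positivity)] at h6
      rw [← hℓ] at h6
      have h7 : (4 * (A : ℝ) ^ 2 * δ * ℓ + δ + δ) ≤ (4 * (A : ℝ) ^ 2 + 5) * (δ * ℓ) := by nlinarith [mul_pos hδ (by linarith : 0 < ℓ)]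
      have h8 : (4 * (A : ℝ) ^ 2 * δ * ℓ + δ + δ) * (2 * M * ℓ) ≤ (4 * (A : ℝ) ^ 2 + 5) * (δ * ℓ) * (2 * M * ℓ) :=
        mul_le_mul_of_nonneg_right h7 (by positivity)
      refine lt_of_le_of_lt h8 (lt_of_le_of_lt (le_of_eq ?_) h6)
      ring
    have h6 : Real.exp (4 * (A : ℝ) ^ 2 * δ * ℓ + δ) < Real.exp (-δ) * a₀ ^ (kap a₀ (max ((n * H : ℕ) : ℝ) 1)) := by
      rw [Real.rpow_def_of_pos ha0, ← Real.exp_add]
      refine Real.exp_lt_exp.2 ?_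
      linarith
    refine lt_of_le_of_lt h2 (lt_of_lt_of_le h6 ?_)
    exact mul_le_mul_of_nonneg_right h3 (Real.rpow_pos_of_pos ha0 _).le
  -- apply the core
  have hσδ : 20 * (A : ℝ) ^ 2 * δ ^ (k + 2) ≤ δ := by
    have h1 : δ ^ (k + 2) ≤ δ ^ 2 := pow_le_pow_of_le_one hδ.le hδ1 (by omega)
    have h2 : 20 * (A : ℝ) ^ 2 * δ ^ (k + 2) ≤ 20 * (A : ℝ) ^ 2 * δ ^ 2 := mul_le_mul_of_nonneg_left h1 (by positivity)
    have h3 : 20 * (A : ℝ) ^ 2 * δ ^ 2 = 20 * (A : ℝ) ^ 2 * δ * δ := by ring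
    have h4 : 20 * (A : ℝ) ^ 2 * δ * δ ≤ 1 * δ := mul_le_mul_of_nonneg_right hA2δ hδ.le
    linarith
  have hE : 4 * (2 * y ^ (n + 1)) ≤ (A : ℝ) ^ 2 * (δ ^ (k + 2)) ^ 2 := by
    rw [hyn]
    have h1 : δ ^ (n + 1) = δ * (δ ^ (k + 2)) ^ 2 := by
      rw [← pow_mul, ← pow_succ']
      congr 1
      omega
    rw [h1]
    have h2 : 0 ≤ (δ ^ (k + 2)) ^ 2 := by positivity
    have h3 : 4 * (2 * (B * (δ * (δ ^ (k + 2)) ^ 2))) = 8 * B * δ * (δ ^ (k + 2)) ^ 2 := by ring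
    rw [h3]
    nlinarith
  have hmain := lower_core (lt_of_lt_of_le ha haa) hab' hK hlip hAr hTC.bd hmean hV (h := h) (σ := δ ^ (k + 2))
    (E := 2 * y ^ (n + 1)) hδ hc1 (by positivity) hσδ hh hh' (by positivity) hE
    (fun θ hθ hθΘ => by
      obtain ⟨gl, gu, ml, mu, q1, q2, q3, q4, q5, q6, q7, q8, q9, q10, q11, q12⟩ :=
        approx ha hab.le hTC.eq hTC.c0 hA0.le hTC.bd (n := n) (by omega) (Θ := 2 * A * δ) (y := y) (by rw [hy]; exact le_of_eq (by ring))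
          hy0 hy1 hyn8 hW hθ hθΘ
      exact ⟨gl, gu, ml, mu, q1, q2, q3, q4, q5, q6, q7, q8, q9, q10, near_mono q11 haa hbb, near_mono q12 haa hbb⟩)
    hR s
  refine le_trans (ENNReal.ofReal_le_ofReal ?_) hmain
  have hlogb : 0 < Real.log b := Real.log_pos ((lt_of_lt_of_le ha haa).trans hab')
  have h1 : R + 6 * (A : ℝ) ^ 3 * δ * δ ^ (k + 2) + 2 * (2 * y ^ (n + 1)) ≤ R + (6 * (A : ℝ) ^ 3 + 4 * B) * δ ^ k := by
    rw [hyn]
    have h2 : δ * δ ^ (k + 2) ≤ δ ^ k := by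
      rw [← pow_succ']
      exact pow_le_pow_of_le_one hδ.le hδ1 (by omega)
    have h3 : δ ^ (n + 1) ≤ δ ^ k := pow_le_pow_of_le_one hδ.le hδ1 (by omega)
    have h4 : 6 * (A : ℝ) ^ 3 * (δ * δ ^ (k + 2)) ≤ 6 * (A : ℝ) ^ 3 * δ ^ k := mul_le_mul_of_nonneg_left h2 (by positivity)
    have h5 : 4 * B * δ ^ (n + 1) ≤ 4 * B * δ ^ k := mul_le_mul_of_nonneg_left h3 (by positivity)
    linarith
  have h2 := div_le_div_of_nonneg_right h1 hlogb.le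
  linarith

end Pool.Agent.Helper87.GP
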