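import Pool.Agent.Helper87.GP.Taylor

/-!
# GP, lower bound to all orders on every interval
-/

set_option autoImplicit false
open MeasureTheory Set Filter Topology
open Pool.Agent.Helper18.GP

namespace Pool.Agent.Helper87.GP

/-- a good function near almost every point -/
theorem near_gp {a b : ℝ} (ha : 1 < a) (hab : a ≤ b) {H : ℕ} {c : ℤ → ℂ} {g : ℝ → ℝ} (hg : ∀ t, gp H c t = (g t : ℂ))
    {m : ℝ} (hm : 0 < m) (hmean : ∫ t in (0 : ℝ)..1, g t = m) (hW : nm H c < m * a ^ (kap a (max (H : ℝ) 1))) :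
    ∀ᵐ x₀ : ℝ, x₀ ∈ Ioo a b → Near (fun t => g t / m) x₀ := by
  obtain ⟨C, hC, hsub⟩ := sublevelK ha hab (H : ℝ)
  have hκ : (0 : ℝ) < 1 / ((KK a (max (H : ℝ) 1) : ℝ) + 1) := by positivity
  have hκ1 : 1 / ((KK a (max (H : ℝ) 1) : ℝ) + 1) ≤ 1 := by
    rw [div_le_one (by positivity)]
    have : (0 : ℝ) ≤ (KK a (max (H : ℝ) 1) : ℝ) := Nat.cast_nonneg _
    linarith
  refine near_kap ha hab hκ hκ1 hC hsub (fun h => c h / m) (fun t => g t / m) (fun t => ?_) ?_ ?_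
  · have h1 : gpoly H (fun h => c h / (m : ℂ)) t = gp H c t / m := by
      unfold gpoly gp
      rw [Finset.sum_div]
      exact Finset.sum_congr rfl fun h _ => by ring
    rw [h1, hg]
    push_cast
    rfl
  · show c 0 / (m : ℂ) = 1
    rw [coeff_zero hg, hmean, div_self]
    exact_mod_cast hm.ne'
  · have h1 : ∑ h ∈ Finset.Icc (-(H : ℤ)) H, ‖c h / (m : ℂ)‖ = nm H c / m := by
      unfold nm
      rw [Finset.sum_div]
      refine Finset.sum_congr rfl fun h _ => ?_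
      rw [norm_div, Complex.norm_real, Real.norm_eq_abs, abs_of_pos hm]
    rw [h1, div_lt_iff₀ hm]
    have h2 : 1 / ((KK a (max (H : ℝ) 1) : ℝ) + 1) / 2 = kap a (max (H : ℝ) 1) := by
      unfold kap
      rw [div_div, mul_comm]
    rw [h2, mul_comm]
    exact hW

/-- the functions for `lower_core` -/
theorem approx {a b : ℝ} (ha : 1 < a) (hab : a ≤ b) {H : ℕ} {c : ℤ → ℂ} {p : ℝ → ℝ} (hp : ∀ t, gp H c t = p t)
    (hc0 : c 0 = 0) {A : ℝ} (hA : 0 ≤ A) (hb : ∀ t, |p t| ≤ A) {n : ℕ} (hn : 1 ≤ n) {Θ y : ℝ} (hΘ : Θ * A ≤ y) (hy : 0 ≤ y)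
    (hy1 : y ≤ 1) (hyn : y ^ (n + 1) ≤ 1 / 8)
    (hW : Real.exp (Θ * nm H c) + y ^ (n + 1) < (1 - 2 * y ^ (n + 1)) * a ^ (kap a (max ((n * H : ℕ) : ℝ) 1)))
    {θ : ℝ} (hθ : 0 ≤ θ) (hθΘ : θ ≤ Θ) : ∃ gl gu : ℝ → ℝ, ∃ ml mu : ℝ, Continuous gl ∧ Continuous gu ∧ 0 < ml ∧ 0 < mu ∧
      (∀ t, 0 ≤ gl t) ∧ (∀ t, ml * gl t ≤ Real.exp (θ * p t)) ∧ (∀ t, Real.exp (θ * p t) ≤ mu * gu t) ∧
      mg p θ - 2 * y ^ (n + 1) ≤ ml ∧ ml ≤ mg p θ + 2 * y ^ (n + 1) ∧ mu ≤ mg p θ + 2 * y ^ (n + 1) ∧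
      (∀ᵐ x₀ : ℝ, x₀ ∈ Ioo a b → Near gl x₀) ∧ (∀ᵐ x₀ : ℝ, x₀ ∈ Ioo a b → Near gu x₀) := by
  obtain ⟨K, hK, hlip⟩ := gp_lip hp
  have hpc : Continuous p := lip_cont hK hlip
  have ha0 : 0 < a := by linarith
  have hmean : ∫ t in (0 : ℝ)..1, p t = 0 := by
    have h1 := coeff_zero hp
    rw [hc0] at h1
    exact_mod_cast h1.symm
  set T : ℝ → ℝ := fun t => ∑ i ∈ Finset.range (n + 1), (θ * p t) ^ i / (i.factorial : ℝ) with hT
  have hTc : Continuous T := by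
    rw [hT]
    fun_prop
  set w : ℝ := y ^ (n + 1) with hw
  have hw0 : 0 ≤ w := by positivity
  have hθp : ∀ t, |θ * p t| ≤ y := fun t => by
    rw [abs_mul, abs_of_nonneg hθ]
    calc θ * |p t| ≤ Θ * A := mul_le_mul hθΘ (hb t) (abs_nonneg _) (hθ.trans hθΘ)
      _ ≤ y := hΘ
  have hTe : ∀ t, |Real.exp (θ * p t) - T t| ≤ w := fun t => taylor_exp hn (hθp t) hy1
  have hTlow : ∀ t, 0 ≤ T t - w := by
    intro t
    have h1 := (abs_le.1 (hTe t)).2
    have h2 := Real.add_one_le_exp (θ * p t)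
    have h3 := Real.one_sub_le_exp_neg y
    have h4 : Real.exp (-1) ≤ Real.exp (θ * p t) := by
      refine Real.exp_le_exp.2 ?_
      have := (abs_le.1 (hθp t)).1
      linarith
    have h5 : (1 : ℝ) / 3 ≤ Real.exp (-1) := by
      rw [Real.exp_neg, ← one_div]
      exact one_div_le_one_div_of_le (Real.exp_pos _) (by linarith [Real.exp_one_lt_d9])
    linarith
  -- means
  have hmg : mg p θ = ∫ t in (0 : ℝ)..1, Real.exp (θ * p t) := rfl
  have hie : IntervalIntegrable (fun t => Real.exp (θ * p t)) volume 0 1 := Continuous.intervalIntegrable (by fun_prop) _ _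
  have hiT : IntervalIntegrable T volume 0 1 := hTc.intervalIntegrable _ _
  have hmT : |mg p θ - ∫ t in (0 : ℝ)..1, T t| ≤ w := by
    rw [hmg, ← intervalIntegral.integral_sub hie hiT]
    have h1 := intervalIntegral.norm_integral_le_of_norm_le_const (a := (0 : ℝ)) (b := 1) (C := w)
      (f := fun t => Real.exp (θ * p t) - T t) fun t _ => by rw [Real.norm_eq_abs]; exact hTe t
    simpa using h1
  have hml : ∫ t in (0 : ℝ)..1, (T t + -w) = (∫ t in (0 : ℝ)..1, T t) - w := by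
    rw [intervalIntegral.integral_add hiT intervalIntegrable_const]
    simp
    ring
  have hmu : ∫ t in (0 : ℝ)..1, (T t + w) = (∫ t in (0 : ℝ)..1, T t) + w := by
    rw [intervalIntegral.integral_add hiT intervalIntegrable_const]
    simp
  have hmg1 : 1 ≤ mg p θ := mg_ge_one hpc hmean θ
  have hb1 := abs_le.1 hmT
  set ml : ℝ := (∫ t in (0 : ℝ)..1, T t) - w with hmld
  set mu : ℝ := (∫ t in (0 : ℝ)..1, T t) + w with hmud
  have hml0 : 0 < ml := by rw [hmld]; linarith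
  have hmu0 : 0 < mu := by rw [hmud]; linarith
  -- norms
  have hnm : Real.exp (θ * nm H c) + w ≤ Real.exp (Θ * nm H c) + w := by
    have : θ * nm H c ≤ Θ * nm H c := mul_le_mul_of_nonneg_right hθΘ (nm_nonneg H c)
    linarith [Real.exp_le_exp.2 this]
  have hapos : 0 < a ^ (kap a (max ((n * H : ℕ) : ℝ) 1)) := Real.rpow_pos_of_pos ha0 _
  obtain ⟨cl, hcl, hcln⟩ := tp_exp hp hθ n (-w)
  obtain ⟨cu, hcu, hcun⟩ := tp_exp hp hθ n w
  rw [abs_neg, abs_of_nonneg hw0] at hcln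
  rw [abs_of_nonneg hw0] at hcun
  refine ⟨fun t => (T t + -w) / ml, fun t => (T t + w) / mu, ml, mu, (hTc.add continuous_const).div_const _,
    (hTc.add continuous_const).div_const _, hml0, hmu0, fun t => div_nonneg (by linarith [hTlow t]) hml0.le,
    fun t => ?_, fun t => ?_, ?_, ?_, ?_, ?_, ?_⟩
  · rw [mul_div_cancel₀ _ hml0.ne']
    linarith [(abs_le.1 (hTe t)).1]
  · rw [mul_div_cancel₀ _ hmu0.ne']
    linarith [(abs_le.1 (hTe t)).2]
  · rw [hmld]; linarith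
  · rw [hmld]; linarith
  · rw [hmud]; linarith
  · refine near_gp ha hab hcl hml0 hml (lt_of_le_of_lt (hcln.trans hnm) (hW.trans_le ?_))
    refine mul_le_mul_of_nonneg_right ?_ hapos.le
    rw [hmld]; linarith
  · refine near_gp ha hab hcu hmu0 hmu (lt_of_le_of_lt (hcun.trans hnm) (hW.trans_le ?_))
    refine mul_le_mul_of_nonneg_right ?_ hapos.le
    rw [hmud]; linarith

end Pool.Agent.Helper87.GP
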