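import Pool.Agent.Helper87.GP.Mgf2
import Pool.Agent.Helper53.KD.K3

/-!
# GP, lower glue: dimension bound of one family
-/

set_option autoImplicit false
open MeasureTheory Set Filter Topology
open Pool.Agent.Helper78.KD

namespace Pool.Agent.Helper87.GP

variable {u v : ℕ → ℝ → ℝ} {a b β₁ β₂ : ℝ}

theorem mgfle_mono {T : Tr} {M : ℕ → ℕ → ℝ} {θ Λ Λ' : ℝ} (h : T.MGFle M θ Λ) (hΛ : Λ ≤ Λ') : T.MGFle M θ Λ' := by
  intro k i hi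
  exact (h k i hi).trans (mul_le_mul_of_nonneg_left (Real.exp_le_exp.2 hΛ) (Pool.Agent.Helper18.KD.len_pos T k hi).le)

theorem mgfge_mono {T : Tr} {M : ℕ → ℕ → ℝ} {θ Λ Λ' : ℝ} (h : T.MGFge M θ Λ) (hΛ : Λ' ≤ Λ) : T.MGFge M θ Λ' := by
  intro k i hi
  exact (mul_le_mul_of_nonneg_left (Real.exp_le_exp.2 hΛ) (Pool.Agent.Helper18.KD.len_pos T k hi).le).trans (h k i hi)

theorem S_diff {φ : ℝ → ℝ} (hb : ∀ t, |φ t| ≤ 1) (u : ℕ → ℝ → ℝ) (n k : ℕ) (x : ℝ) :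
    |S φ u (n + k) x - S φ u n x| ≤ k := by
  unfold S
  rw [Finset.sum_range_add, add_sub_cancel_left]
  refine (Finset.abs_sum_le_sum_abs _ _).trans ((Finset.sum_le_sum fun j _ => hb _).trans ?_)
  simp

theorem fam_dim (hF : Fam u v a b β₁ β₂) {φ : ℝ → ℝ} {K : ℝ} (hK : 0 ≤ K) (hlip : ∀ s t, |φ s - φ t| ≤ K * |s - t|)
    (hb : ∀ t, |φ t| ≤ 1) {g₀ g₁ g₂ : ℝ → ℝ} (hc₀ : Continuous g₀) (hc₁ : Continuous g₁) (hc₂ : Continuous g₂)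
    {θ θ₁ θ₂ m₀ m₁ m₂ h₁ h₂ : ℝ} (hθ : 0 < θ) (hθ₁ : 0 < θ₁) (hθ₂ : 0 < θ₂) (hm₀ : 0 < m₀) (hm₁ : 0 < m₁) (hm₂ : 0 < m₂)
    (hh₁ : 0 ≤ h₁)
    (hg₀ : ∀ t, 0 ≤ g₀ t) (he₀ : ∀ t, m₀ * g₀ t ≤ Real.exp (θ * φ t)) (he₁ : ∀ t, Real.exp ((θ + θ₁) * φ t) ≤ m₁ * g₁ t)
    (he₂ : ∀ t, Real.exp ((θ - θ₂) * φ t) ≤ m₂ * g₂ t) {J L : ℕ} (hL : 1 ≤ J + L) (hA₀ : AvgOK g₀ u a b J L)
    (hA₁ : AvgOK g₁ u a b J L) (hA₂ : AvgOK g₂ u a b J L) {E : ℝ}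
    (hE : (θ + θ₁ + θ₂) * (2 * C0 K β₁ + J) + Real.log 2 ≤ E)
    (hlt₁ : 2 * E + L * (Real.log m₁ - Real.log m₀) < θ₁ * (h₂ * ((J + L : ℕ) : ℝ)))
    (hlt₂ : 2 * E + L * (Real.log m₂ - Real.log m₀) + θ₂ * (h₁ * ((J + L : ℕ) : ℝ)) < 0)
    (hI : L * Real.log m₀ ≤ θ * (h₂ * ((J + L : ℕ) : ℝ)) + E) :
    ENNReal.ofReal (1 - (θ * (h₂ * ((J + L : ℕ) : ℝ)) - L * Real.log m₀ + E) / (((J + L : ℕ) : ℝ) * Real.log β₁)) ≤
      dimH {x | x ∈ Icc a b ∧ ∃ C : ℝ, ∀ N : ℕ, h₁ * N - C ≤ S φ u N x} := by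
  obtain ⟨T, ht0, ht1, hmem, -, hinc⟩ := Pool.Agent.Helper53.KD.exists_tree hF (J + L) hL
  obtain ⟨c, C, hc, hC, hsize⟩ := Pool.Agent.Helper53.KD.size hF
  have hT : TrOK T u a b (J + L) := ⟨hmem, hinc⟩
  have hβ := hF.hβ
  have hC0 : 0 ≤ C0 K β₁ := by
    unfold C0
    have : 0 < β₁ - 1 := by linarith
    positivity
  have hlog2 : 0 < Real.log 2 := Real.log_pos (by norm_num)
  have hJ0 : (0 : ℝ) ≤ J := Nat.cast_nonneg J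
  have hX : 0 ≤ 2 * C0 K β₁ + J := by positivity
  have hhi : ∀ k i, i < T.N k → T.len k i ≤ C * Real.exp (-(k * (((J + L : ℕ) : ℝ) * Real.log β₁))) := by
    intro k i hi
    have h1 := (hsize (k * (J + L)) (T.t k i) (hmem k i hi.le) (T.t k (i + 1)) (hmem k (i + 1) hi) (T.lt k i hi)
      (hinc k i hi).1 (hinc k i hi).2).2
    unfold Tr.len
    refine h1.trans (le_of_eq ?_)
    congr 3
    push_cast
    ring
  have hM : T.MGFge (Mt T φ u (J + L)) θ (-E + L * Real.log m₀) := by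
    refine mgfge_mono (mgf_ge hF hK hlip hb hT θ hc₀ hm₀ hg₀ he₀ hA₀) ?_
    rw [abs_of_pos hθ]
    have : θ * (2 * C0 K β₁ + J) ≤ (θ + θ₁ + θ₂) * (2 * C0 K β₁ + J) := mul_le_mul_of_nonneg_right (by linarith) hX
    linarith
  have hM₁ : T.MGFle (Mt T φ u (J + L)) (θ + θ₁) (E + L * Real.log m₁) := by
    refine mgfle_mono (mgf_le hF hK hlip hb hT (θ + θ₁) hc₁ hm₁ he₁ hA₁) ?_
    rw [abs_of_pos (by linarith)]
    have : (θ + θ₁) * (2 * C0 K β₁ + J) ≤ (θ + θ₁ + θ₂) * (2 * C0 K β₁ + J) := mul_le_mul_of_nonneg_right (by linarith) hX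
    linarith
  have hM₂ : T.MGFle (Mt T φ u (J + L)) (θ - θ₂) (E + L * Real.log m₂) := by
    refine mgfle_mono (mgf_le hF hK hlip hb hT (θ - θ₂) hc₂ hm₂ he₂ hA₂) ?_
    have h1 : |θ - θ₂| ≤ θ + θ₁ + θ₂ := by
      rw [abs_le]; constructor <;> linarith
    have : |θ - θ₂| * (2 * C0 K β₁ + J) ≤ (θ + θ₁ + θ₂) * (2 * C0 K β₁ + J) := mul_le_mul_of_nonneg_right h1 hX
    linarith
  have hℓ : 0 < ((J + L : ℕ) : ℝ) * Real.log β₁ := by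
    have : (0 : ℝ) < ((J + L : ℕ) : ℝ) := by exact_mod_cast hL
    exact mul_pos this (Real.log_pos hβ)
  have hmain := Pool.Agent.Helper18.KD.lower_tree T (Mt T φ u (J + L)) (h₁ := h₁ * ((J + L : ℕ) : ℝ)) (h₂ := h₂ * ((J + L : ℕ) : ℝ))
    hθ hθ₁ hθ₂ hℓ hC hhi hM hM₁ hM₂ (by linarith) (by linarith) (by linarith)
  have e1 : θ * (h₂ * ((J + L : ℕ) : ℝ)) - (-E + L * Real.log m₀) = θ * (h₂ * ((J + L : ℕ) : ℝ)) - L * Real.log m₀ + E := by ring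
  rw [e1] at hmain
  refine hmain.trans (dimH_mono ?_)
  rintro x ⟨k₁, hk₁⟩
  have hM0 : Mt T φ u (J + L) 0 0 = 0 := by
    unfold Mt S
    simp
  rw [hM0] at hk₁
  refine ⟨?_, (h₁ + 1) * ((k₁ + 1 : ℕ) * ((J + L : ℕ) : ℝ)) + C0 K β₁, fun N => ?_⟩
  · obtain ⟨i, hi, hx, -⟩ := hk₁ k₁ le_rfl
    exact ⟨(hmem k₁ i hi.le).1.trans hx.1, hx.2.trans (hmem k₁ (i + 1) hi).2⟩
  · set W : ℕ := J + L with hW
    set k : ℕ := N / W with hk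
    have hN : k * W + N % W = N := by rw [hk]; exact Nat.div_add_mod' N W
    have hr : N % W < W := Nat.mod_lt _ (by omega)
    have hWr : (0 : ℝ) ≤ (W : ℝ) := Nat.cast_nonneg _
    have hrr : ((N % W : ℕ) : ℝ) ≤ W := by exact_mod_cast hr.le
    have hNr : (k : ℝ) * W + ((N % W : ℕ) : ℝ) = N := by exact_mod_cast hN
    have hk1r : (0 : ℝ) ≤ (k₁ : ℝ) := Nat.cast_nonneg _
    rcases Nat.lt_or_ge k k₁ with hkk | hkk
    · -- small N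
      have h3 := S_diff hb u 0 N x
      rw [Nat.zero_add] at h3
      have h4 : S φ u 0 x = 0 := by unfold S; simp
      rw [h4, sub_zero] at h3
      have h5 : (N : ℝ) ≤ ((k₁ + 1 : ℕ) : ℝ) * W := by
        rw [← hNr]
        have : (k : ℝ) ≤ k₁ := by exact_mod_cast hkk.le
        push_cast
        nlinarith
      have h6 := (abs_le.1 h3).1
      have h7 : h₁ * N ≤ h₁ * (((k₁ + 1 : ℕ) : ℝ) * W) := mul_le_mul_of_nonneg_left h5 hh₁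
      linarith
    · obtain ⟨i, hi, hx, hxM⟩ := hk₁ k hkk
      have h3 := cell_osc hF hK hlip hT hi hx
      have h4 := S_diff hb u (k * W) (N % W) x
      rw [hN] at h4
      have h5 := (abs_le.1 h3).2
      have h6 := (abs_le.1 h4).1
      have h7 : h₁ * N ≤ h₁ * W * k + h₁ * W := by
        rw [← hNr]
        nlinarith
      have h8 : (h₁ + 1) * W ≤ (h₁ + 1) * (((k₁ + 1 : ℕ) : ℝ) * W) := by
        refine mul_le_mul_of_nonneg_left ?_ (by linarith)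
        push_cast
        nlinarith
      linarith

end Pool.Agent.Helper87.GP
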