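import Mathlib

/-!
# GP, lower bound: the cumulant function
-/

set_option autoImplicit false
open MeasureTheory Set Filter Topology

namespace Pool.Agent.Helper87.GP

/-- moment generating function over one period -/
noncomputable def mg (p : ℝ → ℝ) (θ : ℝ) : ℝ := ∫ t in (0 : ℝ)..1, Real.exp (θ * p t)

theorem mg_pos {p : ℝ → ℝ} (hp : Continuous p) (θ : ℝ) : 0 < mg p θ := by
  unfold mg
  exact intervalIntegral.intervalIntegral_pos_of_pos_on (Continuous.intervalIntegrable (by fun_prop) _ _)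
    (fun x _ => Real.exp_pos _) one_pos

theorem exp_le_quad {x : ℝ} (hx : |x| ≤ 1) : Real.exp x ≤ 1 + x + x ^ 2 := by
  have h1 := Real.abs_exp_sub_one_sub_id_le hx
  have h2 := (abs_le.1 h1).2
  linarith

/-- semiconcavity -/
theorem mg_upper {p : ℝ → ℝ} (hp : Continuous p) {A : ℝ} (hA : 0 < A) (hb : ∀ t, |p t| ≤ A) (θ : ℝ) :
    ∃ μ : ℝ, ∀ σ : ℝ, 2 * A * |σ| ≤ 1 → Real.log (mg p (θ + σ)) ≤ Real.log (mg p θ) + σ * μ + A ^ 2 * σ ^ 2 := by
  set Z := mg p θ with hZ
  have hZ0 : 0 < Z := mg_pos hp θ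
  have hi1 : IntervalIntegrable (fun t => Real.exp (θ * p t)) volume 0 1 := Continuous.intervalIntegrable (by fun_prop) _ _
  have hi2 : IntervalIntegrable (fun t => Real.exp (θ * p t) * p t) volume 0 1 := Continuous.intervalIntegrable (by fun_prop) _ _
  have hi3 : IntervalIntegrable (fun t => Real.exp (θ * p t) * p t ^ 2) volume 0 1 := Continuous.intervalIntegrable (by fun_prop) _ _
  set M₁ := ∫ t in (0 : ℝ)..1, Real.exp (θ * p t) * p t with hM₁
  set M₂ := ∫ t in (0 : ℝ)..1, Real.exp (θ * p t) * p t ^ 2 with hM₂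
  have hM₂A : M₂ ≤ A ^ 2 * Z := by
    rw [hM₂, hZ, mg, ← intervalIntegral.integral_const_mul]
    refine intervalIntegral.integral_mono_on zero_le_one hi3 (hi1.const_mul _) fun t _ => ?_
    have : p t ^ 2 ≤ A ^ 2 := by rw [← sq_abs]; exact pow_le_pow_left₀ (abs_nonneg _) (hb t) 2
    nlinarith [Real.exp_pos (θ * p t)]
  have hM₁A : |M₁| ≤ A * Z := by
    rw [hM₁, hZ, mg, ← intervalIntegral.integral_const_mul]
    refine (intervalIntegral.abs_integral_le_integral_abs zero_le_one).trans ?_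
    refine intervalIntegral.integral_mono_on zero_le_one hi2.abs (hi1.const_mul _) fun t _ => ?_
    rw [abs_mul, abs_of_pos (Real.exp_pos _), mul_comm]
    exact mul_le_mul_of_nonneg_right (hb t) (Real.exp_pos _).le
  set μ := M₁ / Z with hμ
  have hμA : |μ| ≤ A := by
    rw [hμ, abs_div, abs_of_pos hZ0, div_le_iff₀ hZ0]
    exact hM₁A
  refine ⟨μ, fun σ hσ => ?_⟩
  have hpt : ∀ t, Real.exp ((θ + σ) * p t) ≤ Real.exp (σ * μ) *
      (Real.exp (θ * p t) * (1 + σ * (p t - μ) + (σ * (p t - μ)) ^ 2)) := by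
    intro t
    have h1 : |σ * (p t - μ)| ≤ 1 := by
      rw [abs_mul]
      have h2 : |p t - μ| ≤ 2 * A := (abs_sub _ _).trans (by linarith [hb t])
      calc |σ| * |p t - μ| ≤ |σ| * (2 * A) := mul_le_mul_of_nonneg_left h2 (abs_nonneg _)
        _ = 2 * A * |σ| := by ring
        _ ≤ 1 := hσ
    have h3 := exp_le_quad h1
    have h4 : Real.exp ((θ + σ) * p t) = Real.exp (σ * μ) * (Real.exp (θ * p t) * Real.exp (σ * (p t - μ))) := by
      rw [← Real.exp_add, ← Real.exp_add]; congr 1; ring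
    rw [h4]
    exact mul_le_mul_of_nonneg_left (mul_le_mul_of_nonneg_left h3 (Real.exp_pos _).le) (Real.exp_pos _).le
  have hint : mg p (θ + σ) ≤ Real.exp (σ * μ) * (Z + σ ^ 2 * (M₂ - μ ^ 2 * Z)) := by
    unfold mg
    refine (intervalIntegral.integral_mono_on zero_le_one (Continuous.intervalIntegrable (by fun_prop) _ _)
      (Continuous.intervalIntegrable (by fun_prop) _ _) fun t _ => hpt t).trans (le_of_eq ?_)
    rw [intervalIntegral.integral_const_mul]
    congr 1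
    have h1 : ∀ t, Real.exp (θ * p t) * (1 + σ * (p t - μ) + (σ * (p t - μ)) ^ 2) =
        (1 - σ * μ + σ ^ 2 * μ ^ 2) * Real.exp (θ * p t) + (σ - 2 * σ ^ 2 * μ) * (Real.exp (θ * p t) * p t) +
          σ ^ 2 * (Real.exp (θ * p t) * p t ^ 2) := fun t => by ring
    simp_rw [h1]
    rw [intervalIntegral.integral_add ((hi1.const_mul _).add (hi2.const_mul _)) (hi3.const_mul _),
      intervalIntegral.integral_add (hi1.const_mul _) (hi2.const_mul _), intervalIntegral.integral_const_mul,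
      intervalIntegral.integral_const_mul, intervalIntegral.integral_const_mul]
    have h2 : M₁ = μ * Z := by rw [hμ]; field_simp
    rw [← hM₁, ← hM₂, show (∫ t in (0 : ℝ)..1, Real.exp (θ * p t)) = Z from rfl, h2]
    ring
  have hint2 : mg p (θ + σ) ≤ Z * Real.exp (σ * μ + A ^ 2 * σ ^ 2) := by
    refine hint.trans ?_
    rw [Real.exp_add]
    have h1 : Z + σ ^ 2 * (M₂ - μ ^ 2 * Z) ≤ Z * Real.exp (A ^ 2 * σ ^ 2) := by
      have h2 := Real.add_one_le_exp (A ^ 2 * σ ^ 2)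
      have h3 : σ ^ 2 * (M₂ - μ ^ 2 * Z) ≤ σ ^ 2 * (A ^ 2 * Z) := by
        refine mul_le_mul_of_nonneg_left ?_ (sq_nonneg _)
        have : 0 ≤ μ ^ 2 * Z := by positivity
        linarith
      nlinarith
    calc _ ≤ Real.exp (σ * μ) * (Z * Real.exp (A ^ 2 * σ ^ 2)) := mul_le_mul_of_nonneg_left h1 (Real.exp_pos _).le
      _ = _ := by ring
  have h1 := Real.log_le_log (mg_pos hp (θ + σ)) hint2
  rw [Real.log_mul hZ0.ne' (Real.exp_pos _).ne', Real.log_exp] at h1
  linarith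

theorem mg_cont {p : ℝ → ℝ} (hp : Continuous p) : Continuous (mg p) := by
  unfold mg
  exact intervalIntegral.continuous_parametric_intervalIntegral_of_continuous' (by fun_prop) 0 1

/-- lower bound from the variance -/
theorem mg_lower {p : ℝ → ℝ} (hp : Continuous p) {A V : ℝ} (hb : ∀ t, |p t| ≤ A) (hmean : ∫ t in (0 : ℝ)..1, p t = 0)
    (hV : V ≤ ∫ t in (0 : ℝ)..1, p t ^ 2) {θ : ℝ} (hθ : 0 ≤ θ) (hθA : θ * A ≤ 1) :
    1 + θ ^ 2 * V / 2 - (θ * A) ^ 3 ≤ mg p θ := by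
  have hA0 : 0 ≤ A := (abs_nonneg _).trans (hb 0)
  have h1 : ∀ t, 1 + θ * p t + θ ^ 2 / 2 * p t ^ 2 - (θ * A) ^ 3 ≤ Real.exp (θ * p t) := by
    intro t
    have h2 : |θ * p t| ≤ θ * A := by
      rw [abs_mul, abs_of_nonneg hθ]
      exact mul_le_mul_of_nonneg_left (hb t) hθ
    have h3 := Real.exp_bound (h2.trans hθA) (n := 3) (by norm_num)
    have h4 : ∑ m ∈ Finset.range 3, (θ * p t) ^ m / (m.factorial : ℝ) = 1 + θ * p t + θ ^ 2 / 2 * p t ^ 2 := by
      simp [Finset.sum_range_succ, Nat.factorial]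
      ring
    rw [h4] at h3
    have h5 := (abs_le.1 h3).1
    have h6 : |θ * p t| ^ 3 * ((Nat.succ 3 : ℕ) / ((Nat.factorial 3 : ℕ) * (3 : ℕ) : ℝ)) ≤ (θ * A) ^ 3 := by
      have h7 : |θ * p t| ^ 3 ≤ (θ * A) ^ 3 := pow_le_pow_left₀ (abs_nonneg _) h2 3
      have h8 : (0 : ℝ) ≤ |θ * p t| ^ 3 := by positivity
      have h9 : (((Nat.succ 3 : ℕ) : ℝ) / ((Nat.factorial 3 : ℕ) * (3 : ℕ) : ℝ)) ≤ 1 := by
        norm_num [Nat.factorial]
      calc _ ≤ |θ * p t| ^ 3 * 1 := mul_le_mul_of_nonneg_left h9 h8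
        _ ≤ _ := by linarith
    push_cast at h5 h6
    linarith
  have h2 : ∫ t in (0 : ℝ)..1, (1 + θ * p t + θ ^ 2 / 2 * p t ^ 2 - (θ * A) ^ 3) =
      1 + θ ^ 2 / 2 * (∫ t in (0 : ℝ)..1, p t ^ 2) - (θ * A) ^ 3 := by
    have i1 : IntervalIntegrable (fun t => θ * p t) volume 0 1 := Continuous.intervalIntegrable (by fun_prop) _ _
    have i2 : IntervalIntegrable (fun t => θ ^ 2 / 2 * p t ^ 2) volume 0 1 := Continuous.intervalIntegrable (by fun_prop) _ _
    rw [intervalIntegral.integral_sub ((intervalIntegrable_const.add i1).add i2) intervalIntegrable_const,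
      intervalIntegral.integral_add (intervalIntegrable_const.add i1) i2,
      intervalIntegral.integral_add intervalIntegrable_const i1, intervalIntegral.integral_const_mul,
      intervalIntegral.integral_const_mul, hmean]
    simp
  have h3 : ∫ t in (0 : ℝ)..1, (1 + θ * p t + θ ^ 2 / 2 * p t ^ 2 - (θ * A) ^ 3) ≤ mg p θ := by
    unfold mg
    exact intervalIntegral.integral_mono_on zero_le_one (Continuous.intervalIntegrable (by fun_prop) _ _)
      (Continuous.intervalIntegrable (by fun_prop) _ _) fun t _ => h1 t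
  rw [h2] at h3
  have h4 : θ ^ 2 / 2 * V ≤ θ ^ 2 / 2 * ∫ t in (0 : ℝ)..1, p t ^ 2 := mul_le_mul_of_nonneg_left hV (by positivity)
  linarith

/-- upper bound -/
theorem mg_quad {p : ℝ → ℝ} (hp : Continuous p) {A : ℝ} (hb : ∀ t, |p t| ≤ A) (hmean : ∫ t in (0 : ℝ)..1, p t = 0)
    {θ : ℝ} (hθ : 0 ≤ θ) (hθA : θ * A ≤ 1) : mg p θ ≤ 1 + (θ * A) ^ 2 := by
  have h1 : ∀ t, Real.exp (θ * p t) ≤ 1 + θ * p t + (θ * A) ^ 2 := by
    intro t
    have h2 : |θ * p t| ≤ θ * A := by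
      rw [abs_mul, abs_of_nonneg hθ]
      exact mul_le_mul_of_nonneg_left (hb t) hθ
    have h3 := exp_le_quad (h2.trans hθA)
    have h4 : (θ * p t) ^ 2 ≤ (θ * A) ^ 2 := by rw [← sq_abs]; exact pow_le_pow_left₀ (abs_nonneg _) h2 2
    linarith
  have h2 : ∫ t in (0 : ℝ)..1, (1 + θ * p t + (θ * A) ^ 2) = 1 + (θ * A) ^ 2 := by
    have i1 : IntervalIntegrable (fun t => θ * p t) volume 0 1 := Continuous.intervalIntegrable (by fun_prop) _ _
    rw [intervalIntegral.integral_add (intervalIntegrable_const.add i1) intervalIntegrable_const,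
      intervalIntegral.integral_add intervalIntegrable_const i1, intervalIntegral.integral_const_mul, hmean]
    simp
  rw [← h2]
  unfold mg
  exact intervalIntegral.integral_mono_on zero_le_one (Continuous.intervalIntegrable (by fun_prop) _ _)
    (Continuous.intervalIntegrable (by fun_prop) _ _) fun t _ => h1 t

/-- **The optimal parameter.**  `A ≥ 3`, variance at least `16 / A`. -/
theorem exists_opt {p : ℝ → ℝ} (hp : Continuous p) {A : ℝ} (hA : 1 ≤ A) (hb : ∀ t, |p t| ≤ A)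
    (hmean : ∫ t in (0 : ℝ)..1, p t = 0) (hV : 16 / A ≤ ∫ t in (0 : ℝ)..1, p t ^ 2) {δ h' σ : ℝ} (hδ : 0 < δ)
    (hδA : 20 * A ^ 5 * δ ≤ 1) (hσ : 0 < σ) (hσδ : 20 * A ^ 2 * σ ≤ δ) (hh : δ ≤ h') (hh' : h' ≤ 9 / 4 * δ) :
    ∃ θ : ℝ, σ ≤ θ ∧ θ ≤ A * δ ∧ δ ^ 2 / (4 * A ^ 2) ≤ θ * h' - Real.log (mg p θ) ∧
      Real.log (mg p (θ + σ)) - Real.log (mg p θ) ≤ σ * h' + 2 * A ^ 2 * σ ^ 2 ∧
      Real.log (mg p (θ - σ)) - Real.log (mg p θ) ≤ -(σ * h') + 2 * A ^ 2 * σ ^ 2 := by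
  have hA0 : 0 < A := by linarith
  have hh0 : 0 < h' := by linarith
  set f : ℝ → ℝ := fun θ => θ * h' - Real.log (mg p θ) with hf
  have hfc : ContinuousOn f (Icc 0 (A * δ)) := by
    refine (Continuous.continuousOn ?_)
    exact (continuous_id.mul continuous_const).sub ((mg_cont hp).log fun θ => (mg_pos hp θ).ne')
  obtain ⟨θ, hθ, hmax⟩ := isCompact_Icc.exists_isMaxOn (nonempty_Icc.2 (by positivity : (0 : ℝ) ≤ A * δ)) hfc
  have hmax' : ∀ t, 0 ≤ t → t ≤ A * δ → f t ≤ f θ := fun t h0 h1 => hmax ⟨h0, h1⟩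
  have hA3 : (1 : ℝ) ≤ A ^ 3 := one_le_pow₀ hA
  have hA2 : (1 : ℝ) ≤ A ^ 2 := one_le_pow₀ hA
  have hVA : 16 ≤ A ^ 3 := by
    have h1 : ∫ t in (0 : ℝ)..1, p t ^ 2 ≤ A ^ 2 := by
      have h2 : ∫ t in (0 : ℝ)..1, p t ^ 2 ≤ ∫ t in (0 : ℝ)..1, A ^ 2 :=
        intervalIntegral.integral_mono_on zero_le_one (Continuous.intervalIntegrable (by fun_prop) _ _)
          intervalIntegrable_const fun t _ => by rw [← sq_abs]; exact pow_le_pow_left₀ (abs_nonneg _) (hb t) 2
      simpa using h2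
    have h2 := hV.trans h1
    rw [div_le_iff₀ hA0] at h2
    linarith [pow_succ A 2]
  -- the value
  have hval : δ ^ 2 / (4 * A ^ 2) ≤ f θ := by
    have h1 : 0 ≤ h' / (2 * A ^ 2) := by positivity
    have h2 : h' / (2 * A ^ 2) ≤ A * δ := by
      rw [div_le_iff₀ (by positivity)]
      have : A * δ * (2 * A ^ 2) = 2 * A ^ 3 * δ := by ring
      rw [this]
      nlinarith
    refine le_trans ?_ (hmax' _ h1 h2)
    have h3 : h' / (2 * A ^ 2) * A ≤ 1 := by
      have h4 : h' / (2 * A ^ 2) * A = h' / (2 * A) := by field_simp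
      rw [h4, div_le_one (by positivity)]
      have h5 : (1 : ℝ) ≤ A ^ 5 := one_le_pow₀ hA
      nlinarith
    have h4 := mg_quad hp hb hmean h1 h3
    have h5 : Real.log (mg p (h' / (2 * A ^ 2))) ≤ (h' / (2 * A ^ 2) * A) ^ 2 := by
      have h6 := Real.log_le_log (mg_pos hp _) h4
      have h7 := Real.log_le_sub_one_of_pos (show 0 < 1 + (h' / (2 * A ^ 2) * A) ^ 2 by positivity)
      linarith
    have h6 : h' / (2 * A ^ 2) * h' - (h' / (2 * A ^ 2) * A) ^ 2 = h' ^ 2 / (4 * A ^ 2) := by field_simp; ring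
    have h7 : δ ^ 2 / (4 * A ^ 2) ≤ h' ^ 2 / (4 * A ^ 2) := by
      have : δ ^ 2 ≤ h' ^ 2 := pow_le_pow_left₀ hδ.le hh 2
      gcongr
    simp only [hf]
    linarith
  -- not too small
  have hlogmg : 0 ≤ Real.log (mg p θ) := by
    refine Real.log_nonneg ?_
    have h1 : ∀ t, 1 + θ * p t ≤ Real.exp (θ * p t) := fun t => by
      have := Real.add_one_le_exp (θ * p t); linarith
    have h2 : ∫ t in (0 : ℝ)..1, (1 + θ * p t) = 1 := by
      have i1 : IntervalIntegrable (fun t => θ * p t) volume 0 1 := Continuous.intervalIntegrable (by fun_prop) _ _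
      rw [intervalIntegral.integral_add intervalIntegrable_const i1, intervalIntegral.integral_const_mul, hmean]
      simp
    rw [← h2]
    unfold mg
    exact intervalIntegral.integral_mono_on zero_le_one (Continuous.intervalIntegrable (by fun_prop) _ _)
      (Continuous.intervalIntegrable (by fun_prop) _ _) fun t _ => h1 t
  have hlow : σ ≤ θ := by
    have h1 : δ ^ 2 / (4 * A ^ 2) ≤ θ * h' := by simp only [hf] at hval; linarith
    rw [div_le_iff₀ (by positivity)] at h1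
    have h2 : δ ^ 2 ≤ 9 * A ^ 2 * θ * δ := by
      have : θ * h' ≤ θ * (9 / 4 * δ) := mul_le_mul_of_nonneg_left hh' hθ.1
      nlinarith
    have h3 : δ ≤ 9 * A ^ 2 * θ := by
      have : δ * δ ≤ 9 * A ^ 2 * θ * δ := by linarith [sq δ]
      exact le_of_mul_le_mul_right this hδ
    have h4 : A ^ 2 * (20 * σ) ≤ A ^ 2 * (9 * θ) := by linarith
    have h5 := le_of_mul_le_mul_left h4 (by positivity)
    linarith
  -- not too large
  have hupp : θ ≤ A * δ / 2 := by
    by_contra hcon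
    push Not at hcon
    have hθ0 : 0 < θ := by linarith
    have h1 : θ * A ≤ 1 / 20 := by
      have h2 : θ * A ≤ A * δ * A := mul_le_mul_of_nonneg_right hθ.2 hA0.le
      have h3 : 20 * (A * δ * A) ≤ 20 * A ^ 5 * δ := by
        have h4 : A ^ 2 ≤ A ^ 5 := pow_le_pow_right₀ hA (by norm_num)
        nlinarith
      linarith
    have h2 := mg_lower hp hb hmean hV hθ.1 (by linarith)
    -- x = mg - 1 is at least 7.5 θ² / A
    have h3 : (θ * A) ^ 3 ≤ θ ^ 2 / (2 * A) := by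
      rw [le_div_iff₀ (by positivity)]
      have h4 : (θ * A) ^ 3 * (2 * A) = θ ^ 2 * (2 * A ^ 4 * θ) := by ring
      rw [h4]
      have h5 : 2 * A ^ 4 * θ ≤ 1 := by
        have h6 : 2 * A ^ 4 * θ ≤ 2 * A ^ 4 * (A * δ) := mul_le_mul_of_nonneg_left hθ.2 (by positivity)
        have h7 : 2 * A ^ 4 * (A * δ) = 2 * A ^ 5 * δ := by ring
        have h8 : 0 < A ^ 5 * δ := by positivity
        linarith
      nlinarith [sq_nonneg θ]
    have h4 : θ ^ 2 * (16 / A) / 2 = 8 * (θ ^ 2 / A) := by ring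
    have h5 : θ ^ 2 / (2 * A) = 1 / 2 * (θ ^ 2 / A) := by field_simp
    rw [h4] at h2
    rw [h5] at h3
    set w := θ ^ 2 / A with hw
    have hw0 : 0 < w := by positivity
    have h6 : 1 + 15 / 2 * w ≤ mg p θ := by linarith
    have hw1 : w ≤ 1 / 400 := by
      rw [hw, div_le_iff₀ hA0]
      have h7 : (θ * A) ^ 2 ≤ (1 / 20) ^ 2 := pow_le_pow_left₀ (by positivity) h1 2
      have h8 : θ ^ 2 ≤ (θ * A) ^ 2 := by
        rw [mul_pow]
        nlinarith [sq_nonneg θ]
      nlinarith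
    have h7 : 5 * w < Real.log (mg p θ) := by
      have h8 : Real.log (1 + 15 / 2 * w) ≤ Real.log (mg p θ) := Real.log_le_log (by positivity) h6
      have h9 : Real.exp (5 * w) < 1 + 15 / 2 * w := by
        have h10 := exp_le_quad (x := 5 * w) (by rw [abs_of_pos (by positivity)]; linarith)
        nlinarith
      have h10 := Real.log_lt_log (Real.exp_pos _) h9
      rw [Real.log_exp] at h10
      linarith
    have h8 : θ * h' ≤ 9 / 2 * w := by
      have h9 : θ * h' ≤ θ * (9 / 4 * δ) := mul_le_mul_of_nonneg_left hh' hθ.1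
      have h10 : δ ≤ 2 * θ / A := by
        rw [le_div_iff₀ hA0]; linarith
      have h11 : θ * (9 / 4 * δ) ≤ θ * (9 / 4 * (2 * θ / A)) := by gcongr
      have h12 : θ * (9 / 4 * (2 * θ / A)) = 9 / 2 * w := by rw [hw]; field_simp; norm_num
      linarith
    have h9 : 0 < δ ^ 2 / (4 * A ^ 2) := by positivity
    simp only [hf] at hval
    linarith
  have hσA : 2 * A * |σ| ≤ 1 := by
    rw [abs_of_pos hσ]
    have h5 : (1 : ℝ) ≤ A ^ 5 := one_le_pow₀ hA
    have h6 : A ≤ A ^ 2 := by nlinarith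
    have h7 : 2 * A * σ ≤ 20 * A ^ 2 * σ := by nlinarith
    have h8 : δ ≤ 1 := by nlinarith
    linarith
  obtain ⟨μ, hμ⟩ := mg_upper hp hA0 hb θ
  have h1 := hμ σ hσA
  have h2 := hμ (-σ) (by rwa [abs_neg])
  have hσδ' : σ ≤ A * δ / 2 := by
    have h3 : σ ≤ 20 * A ^ 2 * σ := by nlinarith
    have h4 : σ ≤ δ / 20 := by
      have : 20 * σ ≤ 20 * A ^ 2 * σ := by nlinarith
      linarith
    nlinarith
  have h3 := hmax' (θ + σ) (by linarith [hθ.1]) (by linarith)
  have h4 := hmax' (θ - σ) (by linarith) (by linarith [hθ.2])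
  simp only [hf] at h3 h4 hval
  rw [← sub_eq_add_neg] at h2
  refine ⟨θ, hlow, hθ.2, hval, ?_, ?_⟩
  · nlinarith
  · nlinarith

end Pool.Agent.Helper87.GP
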