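import Pool.Agent.Helper87.GP.LocalB
import Pool.Agent.Helper18.GP.Osc

/-!
# GP-G5: for almost every point the resonances of high order have small weight
-/

set_option autoImplicit false
open MeasureTheory Set Filter Topology Pool.Agent.Helper82.FK

namespace Pool.Agent.Helper87.GP

theorem continuous_fz {t : ℕ} (b : Fin (t + 1) → ℤ) : Continuous (fz b) := by
  unfold fz
  fun_prop

theorem continuous_cut {η : ℝ} (hη : 0 < η) : Continuous (cut η) := by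
  unfold cut
  refine continuous_const.div (continuous_const.max continuous_abs) fun y => ?_
  exact (lt_of_lt_of_le hη (le_max_left _ _)).ne'

theorem cut_le {η τ : ℝ} (hη : 0 < η) (hτ : η ≤ τ) (y : ℝ) :
    ENNReal.ofReal (cut η y) ≤ ({z : ℝ | |z| ≤ τ}.indicator (fun _ => (1 : ENNReal)) y) + ENNReal.ofReal (η / τ) := by
  rcases le_or_gt |y| τ with h | h
  · rw [Set.indicator_of_mem (show y ∈ {z : ℝ | |z| ≤ τ} from h)]
    refine le_add_right ?_
    rw [← ENNReal.ofReal_one]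
    exact ENNReal.ofReal_le_ofReal (cut_le_one hη y)
  · refine le_add_left (ENNReal.ofReal_le_ofReal ?_)
    rw [cut_of_ge (hτ.trans h.le)]
    have : 0 < τ := lt_of_lt_of_le hη hτ
    exact div_le_div_of_nonneg_left hη.le this h.le

/-- sublevel sets of the polynomials of strings, with an exponent at most `1` -/
theorem sub_Z {a b : ℝ} (ha : 1 < a) (hab : a ≤ b) (H : ℕ) : ∃ κ C : ℝ, 0 < κ ∧ κ ≤ 1 ∧ 0 < C ∧
    ∀ (t : ℕ), ∀ β ∈ Z H t, ∀ ρ : ℝ, 0 < ρ →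
      volume {x : ℝ | x ∈ Icc a b ∧ |fz β x| ≤ ρ} ≤ ENNReal.ofReal (C * (ρ * a ^ (-(t : ℝ))) ^ κ) := by
  obtain ⟨κ, C, hκ, hC, h⟩ := Pool.Agent.Helper18.GP.sublevel ha hab (H : ℝ)
  have ha0 : 0 < a := by linarith
  refine ⟨min κ 1, C + (b - a), lt_min hκ one_pos, min_le_right _ _, by linarith, fun t β hβ ρ hρ => ?_⟩
  set cc : ℕ → ℝ := fun i => if hi : i < t + 1 then (β ⟨i, hi⟩ : ℝ) else 0 with hcc
  have h1 : 1 ≤ |cc t| := by
    have h2 : cc t = (β (Fin.last t) : ℝ) := by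
      simp only [hcc, dif_pos (Nat.lt_succ_self t)]
      rfl
    rw [h2]
    exact Z_last hβ
  have h2 : ∀ i ≤ t, |cc i| ≤ H := fun i hi => by
    simp only [hcc, dif_pos (Nat.lt_succ_of_le hi)]
    exact Z_abs hβ _
  have h3 : ∀ x : ℝ, ∑ i ∈ Finset.range (t + 1), cc i * x ^ i = fz β x := fun x => by
    unfold fz
    rw [Finset.sum_range]
    refine Finset.sum_congr rfl fun i _ => ?_
    simp only [hcc, dif_pos i.2, Fin.eta]
  have h4 := h t cc h1 h2 ρ hρ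
  simp_rw [h3] at h4
  set u : ℝ := ρ * a ^ (-(t : ℝ)) with hu
  have hu0 : 0 < u := by positivity
  have hb0 : 0 ≤ b - a := by linarith
  rcases le_or_gt u 1 with hu1 | hu1
  · refine h4.trans (ENNReal.ofReal_le_ofReal ?_)
    have h5 : u ^ κ ≤ u ^ (min κ 1) := Real.rpow_le_rpow_of_exponent_ge hu0 hu1 (min_le_left _ _)
    have h6 : 0 ≤ u ^ (min κ 1) := (Real.rpow_pos_of_pos hu0 _).le
    nlinarith
  · have h5 : volume {x : ℝ | x ∈ Icc a b ∧ |fz β x| ≤ ρ} ≤ ENNReal.ofReal (b - a) := by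
      rw [← Real.volume_Icc]
      exact measure_mono fun x hx => hx.1
    refine h5.trans (ENNReal.ofReal_le_ofReal ?_)
    have h6 : 1 ≤ u ^ (min κ 1) := Real.one_le_rpow hu1.le (lt_min hκ one_pos).le
    nlinarith

theorem lint_cut {a b κ C : ℝ} (ha : 1 < a) (hab : a ≤ b) {H : ℕ} (hκ : 0 < κ) (hκ1 : κ ≤ 1) (hC : 0 < C)
    (hsub : ∀ (t : ℕ), ∀ β ∈ Z H t, ∀ ρ : ℝ, 0 < ρ →
      volume {x : ℝ | x ∈ Icc a b ∧ |fz β x| ≤ ρ} ≤ ENNReal.ofReal (C * (ρ * a ^ (-(t : ℝ))) ^ κ))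
    (t J : ℕ) {β : Fin (t + 1) → ℤ} (hβ : β ∈ Z H t) :
    ∫⁻ x in Icc a b, ENNReal.ofReal (cut ((a ^ J)⁻¹) (fz β x)) ≤
      ENNReal.ofReal ((C + (b - a)) * (a ^ (-(κ / 2))) ^ (J + t)) := by
  have ha0 : 0 < a := by linarith
  set η : ℝ := (a ^ J)⁻¹ with hη
  have hη0 : 0 < η := by positivity
  set τ : ℝ := a ^ (((t : ℝ) - J) / 2) with hτ
  have hτ0 : 0 < τ := Real.rpow_pos_of_pos ha0 _
  have hη2 : η = a ^ (-(J : ℝ)) := by rw [hη, Real.rpow_neg ha0.le, Real.rpow_natCast]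
  have hητ : η ≤ τ := by
    rw [hη2, hτ]
    refine Real.rpow_le_rpow_of_exponent_le ha.le ?_
    have h1 : (0 : ℝ) ≤ t := Nat.cast_nonneg t
    have h2 : (0 : ℝ) ≤ J := Nat.cast_nonneg J
    linarith
  have hr : (a ^ (-(κ / 2))) ^ (J + t) = a ^ (-(κ / 2) * ((J : ℝ) + t)) := by
    rw [← Real.rpow_natCast, ← Real.rpow_mul ha0.le]
    push_cast
    rfl
  have h1 : ∫⁻ x in Icc a b, ENNReal.ofReal (cut η (fz β x)) ≤
      ∫⁻ x in Icc a b, (({x : ℝ | |fz β x| ≤ τ}.indicator (fun _ => (1 : ENNReal)) x) + ENNReal.ofReal (η / τ)) := by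
    refine lintegral_mono fun x => ?_
    exact cut_le hη0 hητ (fz β x)
  refine h1.trans ?_
  have hms : MeasurableSet {x : ℝ | |fz β x| ≤ τ} :=
    measurableSet_le (continuous_fz β).abs.measurable measurable_const
  rw [lintegral_add_right _ measurable_const, lintegral_indicator hms, setLIntegral_const, setLIntegral_const, one_mul,
    Measure.restrict_apply hms, Real.volume_Icc]
  have h2 : {x : ℝ | |fz β x| ≤ τ} ∩ Icc a b = {x : ℝ | x ∈ Icc a b ∧ |fz β x| ≤ τ} := by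
    ext x
    exact and_comm
  rw [h2]
  have h3 := hsub t β hβ τ hτ0
  have hb0 : 0 ≤ b - a := by linarith
  rw [← ENNReal.ofReal_mul (by positivity)]
  refine (add_le_add h3 le_rfl).trans ?_
  have h4 : 0 ≤ η / τ * (b - a) := by positivity
  rw [← ENNReal.ofReal_add (by positivity) h4]
  refine ENNReal.ofReal_le_ofReal ?_
  rw [hr, add_mul]
  refine add_le_add (le_of_eq ?_) ?_
  · congr 1
    rw [hτ, ← Real.rpow_add ha0, ← Real.rpow_mul ha0.le]
    congr 1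
    ring
  · rw [mul_comm]
    refine mul_le_mul_of_nonneg_left ?_ hb0
    rw [hη2, hτ, ← Real.rpow_sub ha0]
    refine Real.rpow_le_rpow_of_exponent_le ha.le ?_
    have h5 : (0 : ℝ) ≤ t := Nat.cast_nonneg t
    have h6 : (0 : ℝ) ≤ J := Nat.cast_nonneg J
    nlinarith

/-- the weight of the resonances of the strings of length `t + 1` at the scale `a ^ (-J)` -/
noncomputable def res (a : ℝ) (H : ℕ) (c : ℤ → ℂ) (J t : ℕ) (x : ℝ) : ℝ := ∑ β ∈ Z H t, wt c β * cut ((a ^ J)⁻¹) (fz β x)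

theorem res_nonneg {a : ℝ} (ha : 1 < a) (H : ℕ) (c : ℤ → ℂ) (J t : ℕ) (x : ℝ) : 0 ≤ res a H c J t x :=
  Finset.sum_nonneg fun β _ => mul_nonneg (wt_nonneg c β) (cut_nonneg (by positivity) _)

theorem continuous_res {a : ℝ} (ha : 1 < a) (H : ℕ) (c : ℤ → ℂ) (J t : ℕ) : Continuous (res a H c J t) := by
  unfold res
  refine continuous_finsetSum _ fun β _ => continuous_const.mul ?_
  exact (continuous_cut (by positivity)).comp (continuous_fz β)

theorem ae_small {a b κ C : ℝ} (ha : 1 < a) (hab : a ≤ b) {H : ℕ} (hκ : 0 < κ) (hκ1 : κ ≤ 1) (hC : 0 < C)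
    (hsub : ∀ (t : ℕ), ∀ β ∈ Z H t, ∀ ρ : ℝ, 0 < ρ →
      volume {x : ℝ | x ∈ Icc a b ∧ |fz β x| ≤ ρ} ≤ ENNReal.ofReal (C * (ρ * a ^ (-(t : ℝ))) ^ κ))
    (c : ℤ → ℂ) (hW : ∑ h ∈ Finset.Icc (-(H : ℤ)) H, ‖c h‖ < a ^ (κ / 2)) :
    ∀ᵐ x ∂(volume.restrict (Icc a b)), ∀ ε > 0, ∃ J0, ∀ J ≥ J0, ∀ L, ∑ t ∈ Finset.range L, res a H c J t x ≤ ε := by
  have ha0 : 0 < a := by linarith
  set W : ℝ := ∑ h ∈ Finset.Icc (-(H : ℤ)) H, ‖c h‖ with hWd
  have hW0 : 0 ≤ W := Finset.sum_nonneg fun _ _ => norm_nonneg _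
  set r : ℝ := a ^ (-(κ / 2)) with hr
  have hr0 : 0 < r := Real.rpow_pos_of_pos ha0 _
  have hr1 : r < 1 := Real.rpow_lt_one_of_one_lt_of_neg ha (by linarith)
  have hWr : W * r < 1 := by
    have h1 : W * r < a ^ (κ / 2) * r := mul_lt_mul_of_pos_right hW hr0
    rwa [hr, ← Real.rpow_add ha0, add_neg_cancel, Real.rpow_zero] at h1
  have hWr0 : 0 ≤ W * r := by positivity
  have hb0 : 0 ≤ b - a := by linarith
  -- the integral of one block
  have h1 : ∀ J t : ℕ, ∫⁻ x in Icc a b, ENNReal.ofReal (res a H c J t x) ≤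
      ENNReal.ofReal (W * (C + (b - a))) * (ENNReal.ofReal r ^ J * ENNReal.ofReal (W * r) ^ t) := by
    intro J t
    have h2 : ∀ x, ENNReal.ofReal (res a H c J t x) = ∑ β ∈ Z H t, ENNReal.ofReal (wt c β) * ENNReal.ofReal (cut ((a ^ J)⁻¹) (fz β x)) := by
      intro x
      unfold res
      rw [ENNReal.ofReal_sum_of_nonneg fun β _ => mul_nonneg (wt_nonneg c β) (cut_nonneg (by positivity) _)]
      exact Finset.sum_congr rfl fun β _ => ENNReal.ofReal_mul (wt_nonneg c β)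
    simp_rw [h2]
    have hmeas : ∀ β : Fin (t + 1) → ℤ, Measurable fun x : ℝ => ENNReal.ofReal (cut ((a ^ J)⁻¹) (fz β x)) := fun β =>
      (((continuous_cut (by positivity)).comp (continuous_fz β)).measurable).ennreal_ofReal
    rw [lintegral_finsetSum _ fun β _ => (hmeas β).const_mul _]
    have h3 : ∀ β ∈ Z H t, ∫⁻ x in Icc a b, ENNReal.ofReal (wt c β) * ENNReal.ofReal (cut ((a ^ J)⁻¹) (fz β x)) ≤
        ENNReal.ofReal (wt c β * ((C + (b - a)) * r ^ (J + t))) := by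
      intro β hβ
      rw [lintegral_const_mul _ (hmeas β), ENNReal.ofReal_mul (wt_nonneg c β)]
      exact mul_le_mul_right (lint_cut ha hab hκ hκ1 hC hsub t J hβ) _
    refine (Finset.sum_le_sum h3).trans ?_
    rw [← ENNReal.ofReal_sum_of_nonneg fun β _ => mul_nonneg (wt_nonneg c β) (by positivity), ← Finset.sum_mul]
    rw [← ENNReal.ofReal_pow hr0.le, ← ENNReal.ofReal_pow hWr0, ← ENNReal.ofReal_mul (by positivity), ← ENNReal.ofReal_mul (by positivity)]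
    refine ENNReal.ofReal_le_ofReal ?_
    calc (∑ β ∈ Z H t, wt c β) * ((C + (b - a)) * r ^ (J + t)) ≤ W ^ (t + 1) * ((C + (b - a)) * r ^ (J + t)) :=
          mul_le_mul_of_nonneg_right (sum_wt H c t) (by positivity)
      _ = _ := by rw [mul_pow, pow_add, pow_succ]; ring
  have hmeasJ : ∀ J t : ℕ, Measurable fun x : ℝ => ENNReal.ofReal (res a H c J t x) := fun J t =>
    (continuous_res ha H c J t).measurable.ennreal_ofReal
  have h2 : ∫⁻ x in Icc a b, ∑' J : ℕ, ∑' t : ℕ, ENNReal.ofReal (res a H c J t x) ≠ ⊤ := by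
    rw [lintegral_tsum fun J => (Measurable.ennreal_tsum fun t => hmeasJ J t).aemeasurable]
    have h3 : ∀ J : ℕ, ∫⁻ x in Icc a b, ∑' t : ℕ, ENNReal.ofReal (res a H c J t x) ≤
        ENNReal.ofReal (W * (C + (b - a))) * (1 - ENNReal.ofReal (W * r))⁻¹ * ENNReal.ofReal r ^ J := by
      intro J
      rw [lintegral_tsum fun t => (hmeasJ J t).aemeasurable]
      refine (ENNReal.tsum_le_tsum fun t => h1 J t).trans (le_of_eq ?_)
      rw [ENNReal.tsum_mul_left, ENNReal.tsum_mul_left, ENNReal.tsum_geometric]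
      ring
    refine ne_top_of_le_ne_top ?_ (ENNReal.tsum_le_tsum h3)
    rw [ENNReal.tsum_mul_left, ENNReal.tsum_geometric]
    refine ENNReal.mul_ne_top (ENNReal.mul_ne_top ENNReal.ofReal_ne_top ?_) ?_
    · rw [ENNReal.inv_ne_top, ← ENNReal.ofReal_one, ← ENNReal.ofReal_sub _ hWr0]
      exact (ENNReal.ofReal_pos.2 (by linarith)).ne'
    · rw [ENNReal.inv_ne_top, ← ENNReal.ofReal_one, ← ENNReal.ofReal_sub _ hr0.le]
      exact (ENNReal.ofReal_pos.2 (by linarith)).ne'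
  have h3 := ae_lt_top (Measurable.ennreal_tsum fun J => Measurable.ennreal_tsum fun t => hmeasJ J t) h2
  filter_upwards [h3] with x hx ε hε
  have h4 := ENNReal.tendsto_atTop_zero_of_tsum_ne_top hx.ne
  have h5 := (ENNReal.tendsto_nhds_zero.1 h4) (ENNReal.ofReal ε) (ENNReal.ofReal_pos.2 hε)
  obtain ⟨J0, hJ0⟩ := eventually_atTop.1 h5
  refine ⟨J0, fun J hJ L => ?_⟩
  have h6 := hJ0 J hJ
  have h7 : ENNReal.ofReal (∑ t ∈ Finset.range L, res a H c J t x) ≤ ENNReal.ofReal ε := by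
    rw [ENNReal.ofReal_sum_of_nonneg fun t _ => res_nonneg ha H c J t x]
    exact (ENNReal.sum_le_tsum _).trans h6
  exact (ENNReal.ofReal_le_ofReal_iff hε.le).1 h7

/-- **G5.** For almost every `x0` in `(a,b)` the averages of the products of `g(x^j + s_j)` over short intervals near `x0`,
    with a fixed gap `J`, are close to `1`, uniformly in the number of the factors. -/
theorem local_average {a b : ℝ} (ha : 1 < a) (hab : a ≤ b) (H : ℕ) : ∃ κ : ℝ, 0 < κ ∧ ∀ c : ℤ → ℂ, c 0 = 1 →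
    ∑ h ∈ Finset.Icc (-(H : ℤ)) H, ‖c h‖ < a ^ κ →
    ∀ᵐ x0 : ℝ, x0 ∈ Ioo a b → ∀ ε > 0, ∃ J0 : ℕ, ∀ J ≥ J0, ∀ L : ℕ, ∃ n0 : ℕ, ∃ ρ > 0, ∀ n ≥ n0, ∀ p q : ℝ,
      x0 - ρ < p → p < q → q < x0 + ρ → 1 ≤ q ^ n - p ^ n → q ^ n - p ^ n ≤ 2 → ∀ s : ℕ → ℝ,
        ‖(∫ x in p..q, ∏ j ∈ Finset.range L, gpoly H c (x ^ (n + J + j) + s j)) - ((q - p : ℝ) : ℂ)‖ ≤ ε * (q - p) := by
  obtain ⟨κ, C, hκ, hκ1, hC, hsub⟩ := sub_Z ha hab H
  refine ⟨κ / 2, by positivity, fun c hc hW => ?_⟩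
  have h1 := ae_small ha hab hκ hκ1 hC hsub c hW
  rw [ae_restrict_iff' measurableSet_Icc] at h1
  filter_upwards [h1] with x0 hx0 hx ε hε
  obtain ⟨J0, hJ0⟩ := hx0 ⟨hx.1.le, hx.2.le⟩ (ε / 4) (by positivity)
  refine ⟨J0, fun J hJ L => ?_⟩
  obtain ⟨n0, ρ, hρ, h⟩ := local_prod ha hx.1 H c hc J L (δ := ε / 2) (by positivity)
  refine ⟨n0, ρ, hρ, fun n hn p q hp hpq hq h1 h2 s => (h n hn p q hp hpq hq h1 h2 s).trans ?_⟩
  have h3 : ∑ t ∈ Finset.range L, ∑ b ∈ Z H t, wt c b * cut ((a ^ J)⁻¹) (fz b x0) ≤ ε / 4 := hJ0 J hJ L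
  rw [mul_comm ε]
  exact mul_le_mul_of_nonneg_left (by linarith) (by linarith)

end Pool.Agent.Helper87.GP
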