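import Pool.Agent.Helper87.GP.Core
import Pool.Agent.Helper18.GP.Alg

/-!
# GP, lower bound: the trigonometric minorants and majorants of the exponentials
-/

set_option autoImplicit false
open MeasureTheory Set Filter Topology
open Pool.Agent.Helper18.GP

namespace Pool.Agent.Helper87.GP

theorem taylor_exp {x y : ℝ} {n : ℕ} (hn : 1 ≤ n) (hx : |x| ≤ y) (hy : y ≤ 1) :
    |Real.exp x - ∑ i ∈ Finset.range (n + 1), x ^ i / (i.factorial : ℝ)| ≤ y ^ (n + 1) := by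
  have h1 := Real.exp_bound (hx.trans hy) (n := n + 1) (by omega)
  refine h1.trans ?_
  have h2 : |x| ^ (n + 1) ≤ y ^ (n + 1) := pow_le_pow_left₀ (abs_nonneg _) hx _
  have h3 : (((n + 1).succ : ℕ) : ℝ) / (((n + 1).factorial : ℕ) * ((n + 1 : ℕ) : ℝ)) ≤ 1 := by
    rw [div_le_one (by positivity)]
    have h4 : (n + 1).succ ≤ (n + 1).factorial * (n + 1) := by
      have h5 : n + 1 ≤ (n + 1).factorial := Nat.self_le_factorial _
      nlinarith
    exact_mod_cast h4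
  calc _ ≤ |x| ^ (n + 1) * 1 := mul_le_mul_of_nonneg_left h3 (by positivity)
    _ ≤ _ := by linarith

theorem gp_lip {H : ℕ} {c : ℤ → ℂ} {p : ℝ → ℝ} (h : ∀ t, gp H c t = p t) :
    ∃ K : ℝ, 0 ≤ K ∧ ∀ s t, |p s - p t| ≤ K * |s - t| := by
  refine ⟨∑ h ∈ Finset.Icc (-(H : ℤ)) H, ‖c h‖ * (2 * Real.pi * |(h : ℝ)|),
    Finset.sum_nonneg fun h _ => by positivity, fun s t => ?_⟩
  have h1 : |p s - p t| = ‖gp H c s - gp H c t‖ := by
    rw [h, h, ← Complex.ofReal_sub, Complex.norm_real, Real.norm_eq_abs]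
  rw [h1]
  unfold gp
  rw [← Finset.sum_sub_distrib, Finset.sum_mul]
  refine (norm_sum_le _ _).trans (Finset.sum_le_sum fun k _ => ?_)
  rw [← mul_sub, norm_mul, mul_assoc]
  refine mul_le_mul_of_nonneg_left ((e_sub_le _ _).trans (le_of_eq ?_)) (norm_nonneg _)
  rw [← mul_sub, abs_mul]
  ring

/-- the polynomials around the exponential -/
theorem tp_exp {H : ℕ} {c : ℤ → ℂ} {p : ℝ → ℝ} (h : ∀ t, gp H c t = p t) {θ : ℝ} (hθ : 0 ≤ θ) (n : ℕ) (z : ℝ) :
    TP (n * H) (Real.exp (θ * nm H c) + |z|)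
      (fun t => ((∑ i ∈ Finset.range (n + 1), (θ * p t) ^ i / (i.factorial : ℝ) + z : ℝ) : ℂ)) := by
  have h1 : TP H (nm H c) (fun t => (p t : ℂ)) := ⟨c, h, le_rfl⟩
  have h2 := (h1.smul (θ : ℂ)).exp (by positivity [nm_nonneg H c] : 0 ≤ ‖(θ : ℂ)‖ * nm H c) n
  have h3 := h2.add (TP.const (n * H) (z : ℂ))
  rw [Complex.norm_real, Complex.norm_real, Real.norm_eq_abs, Real.norm_eq_abs, abs_of_nonneg hθ] at h3
  refine h3.congr fun t => ?_
  push_cast
  rfl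

end Pool.Agent.Helper87.GP
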