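import Pool.Agent.Helper87.GP.NearK
import Pool.Agent.Helper87.GP.Lam

/-!
# GP, lower bound: the optimal parameter in the glue
-/

set_option autoImplicit false
open MeasureTheory Set Filter Topology
open Pool.Agent.Helper78.KD

namespace Pool.Agent.Helper87.GP

theorem mg_ge_one {p : ℝ → ℝ} (hp : Continuous p) (hmean : ∫ t in (0 : ℝ)..1, p t = 0) (θ : ℝ) : 1 ≤ mg p θ := by
  have h1 : ∀ t, 1 + θ * p t ≤ Real.exp (θ * p t) := fun t => by
    have := Real.add_one_le_exp (θ * p t); linarith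
  have h2 : ∫ t in (0 : ℝ)..1, (1 + θ * p t) = 1 := by
    have i1 : IntervalIntegrable (fun t => θ * p t) volume 0 1 := Continuous.intervalIntegrable (by fun_prop) _ _
    rw [intervalIntegral.integral_add intervalIntegrable_const i1, intervalIntegral.integral_const_mul, hmean]
    simp
  rw [← h2]
  unfold mg
  exact intervalIntegral.integral_mono_on zero_le_one (Continuous.intervalIntegrable (by fun_prop) _ _)
    (Continuous.intervalIntegrable (by fun_prop) _ _) fun t _ => h1 t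

theorem log_add_le {y m E : ℝ} (hm0 : 0 < m) (hy : 1 ≤ y) (hE : 0 ≤ E) (h : m ≤ y + E) : Real.log m ≤ Real.log y + E := by
  have h1 : Real.log m ≤ Real.log (y + E) := Real.log_le_log hm0 h
  have h2 : Real.log (y + E) ≤ Real.log (y * Real.exp E) := by
    refine Real.log_le_log (by linarith) ?_
    have := Real.add_one_le_exp E
    nlinarith
  rw [Real.log_mul (by linarith) (Real.exp_pos _).ne', Real.log_exp] at h2
  linarith

theorem log_sub_ge {y m E : ℝ} (hy : 1 ≤ y) (hE : 0 ≤ E) (hE1 : E ≤ 1 / 2) (h : y - E ≤ m) : Real.log y - 2 * E ≤ Real.log m := by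
  have h0 : 0 < y - E := by linarith
  have h1 : Real.log (y - E) ≤ Real.log m := Real.log_le_log h0 h
  have h2 : Real.log (y * Real.exp (-(2 * E))) ≤ Real.log (y - E) := by
    refine Real.log_le_log (by positivity) ?_
    have h3 : Real.exp (-(2 * E)) ≤ 1 - E := by
      have h4 : |-(2 * E)| ≤ 1 := by rw [abs_neg, abs_of_nonneg (by linarith)]; linarith
      have h5 := Real.exp_bound h4 (n := 2) (by norm_num)
      have h6 : ∑ m ∈ Finset.range 2, (-(2 * E)) ^ m / (m.factorial : ℝ) = 1 - 2 * E := by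
        simp [Finset.sum_range_succ, Nat.factorial]
        ring
      rw [h6] at h5
      have h7 := (abs_le.1 h5).2
      have h8 : |-(2 * E)| ^ 2 * ((Nat.succ 2 : ℕ) / ((Nat.factorial 2 : ℕ) * (2 : ℕ) : ℝ)) ≤ E * (3 / 2) := by
        rw [abs_neg, abs_of_nonneg (by linarith : 0 ≤ 2 * E)]
        norm_num [Nat.factorial]
        nlinarith
      push_cast at h7 h8
      -- 1 - 2E + 3E^2 and 3 E^2 ≤ 3/2 E: not enough, use convexity instead
      have h9 : Real.exp (-(2 * E)) ≤ 1 / (1 + 2 * E) := by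
        rw [Real.exp_neg, ← one_div]
        exact one_div_le_one_div_of_le (by linarith) (by linarith [Real.add_one_le_exp (2 * E)])
      refine h9.trans ?_
      rw [div_le_iff₀ (by linarith)]
      nlinarith
    nlinarith
  rw [Real.log_mul (by linarith) (Real.exp_pos _).ne', Real.log_exp] at h2
  linarith

theorem lower_core {a b : ℝ} (ha : 1 < a) (hab : a < b) {p : ℝ → ℝ} {K : ℝ} (hK : 0 ≤ K)
    (hlip : ∀ s t, |p s - p t| ≤ K * |s - t|) {A : ℝ} (hA : 1 ≤ A) (hb : ∀ t, |p t| ≤ A)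
    (hmean : ∫ t in (0 : ℝ)..1, p t = 0) (hV : 16 / A ≤ ∫ t in (0 : ℝ)..1, p t ^ 2) {δ h σ E : ℝ} (hδ : 0 < δ)
    (hδA : 20 * A ^ 5 * δ ≤ 1) (hσ : 0 < σ) (hσδ : 20 * A ^ 2 * σ ≤ δ) (hh : δ ≤ h) (hh' : h ≤ 2 * δ) (hE : 0 ≤ E)
    (hEσ : 4 * E ≤ A ^ 2 * σ ^ 2)
    (happ : ∀ θ, 0 ≤ θ → θ ≤ 2 * A * δ → ∃ gl gu : ℝ → ℝ, ∃ ml mu : ℝ, Continuous gl ∧ Continuous gu ∧ 0 < ml ∧ 0 < mu ∧
      (∀ t, 0 ≤ gl t) ∧ (∀ t, ml * gl t ≤ Real.exp (θ * p t)) ∧ (∀ t, Real.exp (θ * p t) ≤ mu * gu t) ∧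
      mg p θ - E ≤ ml ∧ ml ≤ mg p θ + E ∧ mu ≤ mg p θ + E ∧
      (∀ᵐ x₀ : ℝ, x₀ ∈ Ioo a b → Near gl x₀) ∧ (∀ᵐ x₀ : ℝ, x₀ ∈ Ioo a b → Near gu x₀))
    {R : ℝ} (hR : ∀ θ, 0 ≤ θ → θ ≤ A * δ → θ * h - Real.log (mg p θ) ≤ R) (s : ℕ → ℝ) :
    ENNReal.ofReal (1 - (R + 6 * A ^ 3 * δ * σ + 2 * E) / Real.log b) ≤
      dimH {x : ℝ | x ∈ Ioo a b ∧ ∀ᶠ N : ℕ in atTop, h * N ≤ ∑ n ∈ Finset.range N, p (x ^ (n + 1) + s n)} := by
  have hA0 : 0 < A := by linarith
  have hp : Continuous p := lip_cont hK hlip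
  have hb0 : 0 < Real.log b := Real.log_pos (ha.trans hab)
  have hA2 : (1 : ℝ) ≤ A ^ 2 := one_le_pow₀ hA
  obtain ⟨θ, hθσ, hθA, hval, hup, hdn⟩ := exists_opt hp hA hb hmean hV (h' := h + 3 * A ^ 2 * σ) hδ hδA hσ hσδ
    (by have : 0 < 3 * A ^ 2 * σ := by positivity
        linarith) (by linarith)
  have hAδ : 0 < A * δ := by positivity
  have hσ2 : σ ≤ A * δ := by
    have h3 : σ ≤ 20 * A ^ 2 * σ := by nlinarith
    nlinarith
  obtain ⟨g₀, -, m₀, -, hc₀, -, hm₀, -, hp₀, he₀, -, hm₀l, hm₀u, -, hN₀, -⟩ := happ θ (by linarith) (by linarith)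
  obtain ⟨-, g₁, -, m₁, -, hc₁, -, hm₁, -, -, he₁, -, -, hm₁u, -, hN₁⟩ := happ (θ + σ) (by linarith) (by linarith)
  obtain ⟨-, g₂, -, m₂, -, hc₂, -, hm₂, -, -, he₂, -, -, hm₂u, -, hN₂⟩ := happ (θ - σ) (by linarith) (by linarith)
  have hE1 : E ≤ 1 / 2 := by
    have h1 : A ^ 2 * σ ^ 2 ≤ 1 := by
      have h2 : A * σ ≤ 1 := by
        have h4 : A ≤ 20 * A ^ 2 := by nlinarith
        have h3 : A * σ ≤ 20 * A ^ 2 * σ := mul_le_mul_of_nonneg_right h4 hσ.le
        have h5 : (1 : ℝ) ≤ A ^ 5 := one_le_pow₀ hA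
        nlinarith
      rw [← mul_pow]
      exact pow_le_one₀ (by positivity) h2
    linarith
  have hl₀ := log_sub_ge (mg_ge_one hp hmean θ) hE hE1 hm₀l
  have hl₀' := log_add_le hm₀ (mg_ge_one hp hmean θ) hE hm₀u
  have hl₁ := log_add_le hm₁ (mg_ge_one hp hmean (θ + σ)) hE hm₁u
  have hl₂ := log_add_le hm₂ (mg_ge_one hp hmean (θ - σ)) hE hm₂u
  have hAσ : 0 < A ^ 2 * σ ^ 2 := by positivity
  have hEδ : E < δ ^ 2 / (4 * A ^ 2) := by
    have h1 : A ^ 2 * σ ^ 2 ≤ δ ^ 2 / (400 * A ^ 2) := by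
      rw [le_div_iff₀ (by positivity)]
      have h2 : (20 * A ^ 2 * σ) ^ 2 ≤ δ ^ 2 := pow_le_pow_left₀ (by positivity) hσδ 2
      nlinarith
    have h2 : δ ^ 2 / (400 * A ^ 2) ≤ δ ^ 2 / (4 * A ^ 2) := by
      refine div_le_div_of_nonneg_left (by positivity) (by positivity) ?_
      nlinarith
    have h3 : 0 < δ ^ 2 / (4 * A ^ 2) := by positivity
    linarith
  have hθ0 : 0 < θ := by linarith
  have hmain := glue_ae (φ := fun t => p t / A) (K := K / A) ha hab (by positivity) (fun s t => by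
      rw [← sub_div, abs_div, abs_of_pos hA0, div_mul_eq_mul_div]
      exact div_le_div_of_nonneg_right (hlip s t) hA0.le) (fun t => by
      rw [abs_div, abs_of_pos hA0, div_le_one hA0]; exact hb t) hc₀ hc₁ hc₂ hN₀ hN₁ hN₂ (θ := A * θ) (θ₁ := A * σ) (θ₂ := A * σ)
      (h₁ := h / A) (h₂ := (h + 6 * A ^ 2 * σ) / A) (by positivity) (by positivity) (by positivity) hm₀ hm₁ hm₂
      (by have : 0 < h := by linarith
          positivity) hp₀ (fun t => by
        have : A * θ * (p t / A) = θ * p t := by field_simp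
        rw [this]; exact he₀ t) (fun t => by
        have : (A * θ + A * σ) * (p t / A) = (θ + σ) * p t := by field_simp
        rw [this]; exact he₁ t) (fun t => by
        have : (A * θ - A * σ) * (p t / A) = (θ - σ) * p t := by field_simp
        rw [this]; exact he₂ t) (by
        have : A * σ * ((h + 6 * A ^ 2 * σ) / A) = σ * (h + 6 * A ^ 2 * σ) := by field_simp
        rw [this]
        have e1 : σ * (h + 6 * A ^ 2 * σ) = σ * (h + 3 * A ^ 2 * σ) + 3 * (A ^ 2 * σ ^ 2) := by ring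
        rw [e1]
        linarith) (by
        have : A * σ * (h / A) = σ * h := by field_simp
        rw [this]
        have e1 : σ * (h + 3 * A ^ 2 * σ) = σ * h + 3 * (A ^ 2 * σ ^ 2) := by ring
        rw [e1] at hdn
        linarith) (by
        have : A * θ * ((h + 6 * A ^ 2 * σ) / A) = θ * (h + 3 * A ^ 2 * σ) + 3 * A ^ 2 * σ * θ := by field_simp; ring
        rw [this]
        have : 0 < 3 * A ^ 2 * σ * θ := by positivity
        linarith) s
  refine le_trans (ENNReal.ofReal_le_ofReal ?_) (hmain.trans (dimH_mono ?_))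
  · have h1 : A * θ * ((h + 6 * A ^ 2 * σ) / A) = θ * h + 6 * A ^ 2 * σ * θ := by field_simp
    rw [h1]
    have h2 := hR θ hθ0.le hθA
    have h3 : 6 * A ^ 2 * σ * θ ≤ 6 * A ^ 3 * δ * σ := by
      have : 6 * A ^ 2 * σ * θ ≤ 6 * A ^ 2 * σ * (A * δ) := mul_le_mul_of_nonneg_left hθA (by positivity)
      linarith [this, (by ring : 6 * A ^ 2 * σ * (A * δ) = 6 * A ^ 3 * δ * σ)]
    have h4 : θ * h + 6 * A ^ 2 * σ * θ - Real.log m₀ ≤ R + 6 * A ^ 3 * δ * σ + 2 * E := by linarith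
    have h5 := div_le_div_of_nonneg_right h4 hb0.le
    linarith
  · rintro x ⟨hx, hN⟩
    refine ⟨hx, ?_⟩
    filter_upwards [hN] with N h1
    rw [← Finset.sum_div, div_mul_eq_mul_div, div_le_div_iff_of_pos_right hA0] at h1
    exact h1

end Pool.Agent.Helper87.GP
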