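import Pool.Agent.Helper87.GP.Osc

/-!
# GP-G5: expansion of the product into exponentials
-/

set_option autoImplicit false
open MeasureTheory Set Filter Topology Pool.Agent.Helper82.FK

namespace Pool.Agent.Helper87.GP

/-- trigonometric polynomial of degree at most `H` with coefficients `c` -/
noncomputable def gpoly (H : ℕ) (c : ℤ → ℂ) (t : ℝ) : ℂ := ∑ h ∈ Finset.Icc (-(H : ℤ)) H, c h * e (h * t)

/-- the values of the `i`-th coefficient -/
noncomputable def S (H t : ℕ) (i : Fin (t + 1)) : Finset ℤ :=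
  if (i : ℕ) = t then (Finset.Icc (-(H : ℤ)) H).erase 0 else Finset.Icc (-(H : ℤ)) H

/-- strings of length `t + 1` whose last entry is not zero -/
noncomputable def Z (H t : ℕ) : Finset (Fin (t + 1) → ℤ) := Fintype.piFinset (S H t)

/-- weight of a string -/
noncomputable def wt (c : ℤ → ℂ) {t : ℕ} (b : Fin (t + 1) → ℤ) : ℝ := ∏ i, ‖c (b i)‖

/-- the polynomial of a string -/
noncomputable def fz {t : ℕ} (b : Fin (t + 1) → ℤ) (x : ℝ) : ℝ := ∑ i, (b i : ℝ) * x ^ (i : ℕ)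

theorem wt_nonneg (c : ℤ → ℂ) {t : ℕ} (b : Fin (t + 1) → ℤ) : 0 ≤ wt c b :=
  Finset.prod_nonneg fun _ _ => norm_nonneg _

theorem mem_S {H t : ℕ} {i : Fin (t + 1)} {h : ℤ} (hh : h ∈ S H t i) : h ∈ Finset.Icc (-(H : ℤ)) H := by
  unfold S at hh
  split_ifs at hh
  · exact Finset.mem_of_mem_erase hh
  · exact hh

theorem Z_abs {H t : ℕ} {b : Fin (t + 1) → ℤ} (hb : b ∈ Z H t) (i : Fin (t + 1)) : |(b i : ℝ)| ≤ H := by
  have h1 := mem_S (Fintype.mem_piFinset.1 hb i)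
  rw [Finset.mem_Icc] at h1
  rw [abs_le]
  exact ⟨by exact_mod_cast h1.1, by exact_mod_cast h1.2⟩

theorem Z_last {H t : ℕ} {b : Fin (t + 1) → ℤ} (hb : b ∈ Z H t) : 1 ≤ |(b (Fin.last t) : ℝ)| := by
  have h1 := Fintype.mem_piFinset.1 hb (Fin.last t)
  unfold S at h1
  rw [if_pos (Fin.val_last t)] at h1
  have h2 := Finset.ne_of_mem_erase h1
  have h3 : 1 ≤ |b (Fin.last t)| := Int.one_le_abs h2
  exact_mod_cast h3

theorem sum_wt (H : ℕ) (c : ℤ → ℂ) (t : ℕ) :
    ∑ b ∈ Z H t, wt c b ≤ (∑ h ∈ Finset.Icc (-(H : ℤ)) H, ‖c h‖) ^ (t + 1) := by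
  unfold Z wt
  rw [← Finset.prod_univ_sum (S H t) (fun _ h => ‖c h‖)]
  calc _ ≤ ∏ _i : Fin (t + 1), ∑ h ∈ Finset.Icc (-(H : ℤ)) H, ‖c h‖ := by
        refine Finset.prod_le_prod (fun i _ => Finset.sum_nonneg fun _ _ => norm_nonneg _) fun i _ => ?_
        exact Finset.sum_le_sum_of_subset_of_nonneg (fun h hh => mem_S hh) fun _ _ _ => norm_nonneg _
    _ = _ := by simp

theorem e_sum {ι : Type*} (s : Finset ι) (f : ι → ℝ) : e (∑ i ∈ s, f i) = ∏ i ∈ s, e (f i) := by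
  classical
  induction s using Finset.induction_on with
  | empty => simp [e_zero]
  | insert a s ha ih => rw [Finset.sum_insert ha, Finset.prod_insert ha, e_add, ih]

theorem expand (H N t : ℕ) (c : ℤ → ℂ) (hc : c 0 = 1) (s : ℕ → ℝ) (x : ℝ) :
    (∏ j ∈ Finset.range t, gpoly H c (x ^ (N + j) + s j)) * (gpoly H c (x ^ (N + t) + s t) - 1) =
      ∑ b ∈ Z H t, (∏ i : Fin (t + 1), c (b i) * e (b i * s i)) * e (∑ i : Fin (t + 1), (b i : ℝ) * x ^ (N + (i : ℕ))) := by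
  have h0 : (0 : ℤ) ∈ Finset.Icc (-(H : ℤ)) H := by rw [Finset.mem_Icc]; constructor <;> omega
  have h1 : gpoly H c (x ^ (N + t) + s t) - 1 = ∑ h ∈ S H t (Fin.last t), c h * e (h * (x ^ (N + t) + s t)) := by
    unfold gpoly S
    rw [if_pos (Fin.val_last t), ← Finset.add_sum_erase _ _ h0, hc]
    simp [e_zero]
  have h2 : ∏ j ∈ Finset.range t, gpoly H c (x ^ (N + j) + s j) =
      ∏ i : Fin t, ∑ h ∈ S H t i.castSucc, c h * e (h * (x ^ (N + (i.castSucc : ℕ)) + s (i.castSucc : ℕ))) := by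
    rw [Finset.prod_range]
    refine Finset.prod_congr rfl fun i _ => ?_
    unfold gpoly S
    have : ¬ ((i.castSucc : Fin (t + 1)) : ℕ) = t := by
      rw [Fin.val_castSucc]; exact i.2.ne
    rw [if_neg this, Fin.val_castSucc]
  have h3 : (∏ j ∈ Finset.range t, gpoly H c (x ^ (N + j) + s j)) * (gpoly H c (x ^ (N + t) + s t) - 1) =
      ∏ i : Fin (t + 1), ∑ h ∈ S H t i, c h * e (h * (x ^ (N + (i : ℕ)) + s (i : ℕ))) := by
    rw [Fin.prod_univ_castSucc, h2, h1, Fin.val_last]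
  rw [h3, Finset.prod_univ_sum]
  refine Finset.sum_congr rfl fun b _ => ?_
  rw [e_sum, ← Finset.prod_mul_distrib]
  refine Finset.prod_congr rfl fun i _ => ?_
  rw [mul_assoc, ← e_add]
  congr 2
  ring

theorem prod_sub_one (g : ℕ → ℂ) (L : ℕ) :
    ∏ j ∈ Finset.range L, g j - 1 = ∑ t ∈ Finset.range L, (∏ j ∈ Finset.range t, g j) * (g t - 1) := by
  induction L with
  | zero => simp
  | succ L ih => rw [Finset.prod_range_succ, Finset.sum_range_succ, ← ih]; ring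

theorem int_expand (H N L : ℕ) (c : ℤ → ℂ) (hc : c 0 = 1) (s : ℕ → ℝ) (p q : ℝ) :
    (∫ x in p..q, ∏ j ∈ Finset.range L, gpoly H c (x ^ (N + j) + s j)) - ((q - p : ℝ) : ℂ) =
      ∑ t ∈ Finset.range L, ∑ b ∈ Z H t, (∏ i : Fin (t + 1), c (b i) * e (b i * s i)) *
        ∫ x in p..q, e (∑ i : Fin (t + 1), (b i : ℝ) * x ^ (N + (i : ℕ))) := by
  have h1 : ∀ x : ℝ, ∏ j ∈ Finset.range L, gpoly H c (x ^ (N + j) + s j) = 1 +
      ∑ t ∈ Finset.range L, ∑ b ∈ Z H t, (∏ i : Fin (t + 1), c (b i) * e (b i * s i)) *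
        e (∑ i : Fin (t + 1), (b i : ℝ) * x ^ (N + (i : ℕ))) := by
    intro x
    have := prod_sub_one (fun j => gpoly H c (x ^ (N + j) + s j)) L
    rw [sub_eq_iff_eq_add'] at this
    rw [this]
    congr 1
    exact Finset.sum_congr rfl fun t _ => expand H N t c hc s x
  simp_rw [h1]
  have hcont : ∀ t : ℕ, ∀ b : Fin (t + 1) → ℤ, Continuous fun x : ℝ => (∏ i : Fin (t + 1), c (b i) * e (b i * s i)) *
        e (∑ i : Fin (t + 1), (b i : ℝ) * x ^ (N + (i : ℕ))) := fun t b =>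
    continuous_const.mul (continuous_e.comp (by fun_prop))
  rw [intervalIntegral.integral_add intervalIntegrable_const
    ((continuous_finsetSum _ fun t _ => continuous_finsetSum _ fun b _ => hcont t b).intervalIntegrable _ _)]
  rw [intervalIntegral.integral_const]
  simp only [Complex.real_smul, mul_one, add_sub_cancel_left]
  rw [intervalIntegral.integral_finset_sum fun t _ =>
    ((continuous_finsetSum _ fun b _ => hcont t b).intervalIntegrable _ _)]
  refine Finset.sum_congr rfl fun t _ => ?_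
  rw [intervalIntegral.integral_finset_sum fun b _ => (hcont t b).intervalIntegrable _ _]
  refine Finset.sum_congr rfl fun b _ => ?_
  rw [intervalIntegral.integral_const_mul]

theorem int_bound (H N L : ℕ) (c : ℤ → ℂ) (hc : c 0 = 1) (s : ℕ → ℝ) (p q : ℝ) :
    ‖(∫ x in p..q, ∏ j ∈ Finset.range L, gpoly H c (x ^ (N + j) + s j)) - ((q - p : ℝ) : ℂ)‖ ≤
      ∑ t ∈ Finset.range L, ∑ b ∈ Z H t, wt c b *
        ‖∫ x in p..q, e (∑ i : Fin (t + 1), (b i : ℝ) * x ^ (N + (i : ℕ)))‖ := by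
  rw [int_expand H N L c hc s p q]
  refine (norm_sum_le _ _).trans (Finset.sum_le_sum fun t _ => (norm_sum_le _ _).trans (Finset.sum_le_sum fun b _ => ?_))
  rw [norm_mul, norm_prod]
  refine le_of_eq ?_
  congr 1
  unfold wt
  refine Finset.prod_congr rfl fun i _ => ?_
  rw [norm_mul, norm_e, mul_one]

end Pool.Agent.Helper87.GP
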