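import Pool.Agent.Helper87.GP.FamLow
import Pool.Agent.Helper87.GP.AE
import Pool.Agent.Helper80.KD.Inst

/-!
# GP, lower glue: the lower bound on the whole interval
-/

set_option autoImplicit false
open MeasureTheory Set Filter Topology
open Pool.Agent.Helper78.KD

namespace Pool.Agent.Helper87.GP

/-- the product averages of one trigonometric polynomial along the powers near `x₀` -/
def Near (g : ℝ → ℝ) (x₀ : ℝ) : Prop := ∃ J0 : ℕ, ∀ J ≥ J0, ∀ L : ℕ, ∃ n0 : ℕ, ∃ ρ > 0, ∀ n ≥ n0, ∀ p q : ℝ,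
  x₀ - ρ < p → p < q → q < x₀ + ρ → 1 ≤ q ^ n - p ^ n → q ^ n - p ^ n ≤ 2 → ∀ s : ℕ → ℝ,
    |(∫ x in p..q, ∏ j ∈ Finset.range L, g (x ^ (n + J + j) + s j)) - (q - p)| ≤ (q - p) / 2

theorem near_of {a b : ℝ} (ha : 1 < a) (hab : a ≤ b) (H : ℕ) : ∃ κ : ℝ, 0 < κ ∧ ∀ (c : ℤ → ℂ) (g : ℝ → ℝ),
    (∀ t, gpoly H c t = (g t : ℂ)) → c 0 = 1 → ∑ h ∈ Finset.Icc (-(H : ℤ)) H, ‖c h‖ < a ^ κ →
    ∀ᵐ x₀ : ℝ, x₀ ∈ Ioo a b → Near g x₀ := by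
  obtain ⟨κ, hκ, h⟩ := local_average ha hab H
  refine ⟨κ, hκ, fun c g hg hc hW => ?_⟩
  filter_upwards [h c hc hW] with x₀ hx₀ hx
  obtain ⟨J0, hJ0⟩ := hx₀ hx (1 / 2) (by norm_num)
  refine ⟨J0, fun J hJ L => ?_⟩
  obtain ⟨n0, ρ, hρ, hn⟩ := hJ0 J hJ L
  refine ⟨n0, ρ, hρ, fun n hn0 p q hp hpq hq h1 h2 s => ?_⟩
  have h3 := hn n hn0 p q hp hpq hq h1 h2 s
  have h4 : ∀ x : ℝ, ∏ j ∈ Finset.range L, gpoly H c (x ^ (n + J + j) + s j) =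
      ((∏ j ∈ Finset.range L, g (x ^ (n + J + j) + s j) : ℝ) : ℂ) := by
    intro x
    push_cast
    exact Finset.prod_congr rfl fun j _ => by rw [hg]
  simp_rw [h4] at h3
  rw [intervalIntegral.integral_ofReal, ← Complex.ofReal_sub, Complex.norm_real, Real.norm_eq_abs] at h3
  linarith

theorem near_avg {g : ℝ → ℝ} {x₀ : ℝ} (h : Near g x₀) : ∃ J0 : ℕ, ∀ J ≥ J0, ∀ L : ℕ, ∃ n0 : ℕ, ∃ ρ > 0, ∀ (n₀ : ℕ) (a b : ℝ)
    (s : ℕ → ℝ), n0 ≤ n₀ → Icc a b ⊆ Ioo (x₀ - ρ) (x₀ + ρ) → 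
      AvgOK g (fun n x => 1 * x ^ (n + n₀ + 1) + s (n + n₀)) a b J L := by
  obtain ⟨J0, hJ0⟩ := h
  refine ⟨J0, fun J hJ L => ?_⟩
  obtain ⟨n0, ρ, hρ, hn⟩ := hJ0 J hJ L
  refine ⟨n0, ρ, hρ, fun n₀ a b s hn₀ hsub n p q hp hpq hq h1 h2 => ?_⟩
  have h3 := hsub (show p ∈ Icc a b from ⟨hp, hpq.le.trans hq⟩)
  have h4 := hsub (show q ∈ Icc a b from ⟨hp.trans hpq.le, hq⟩)
  have h5 := hn (n + n₀ + 1) (by omega) p q h3.1 hpq h4.2 (by linarith) (by linarith) (fun j => s (n + J + j + n₀))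
  have h6 : ∀ x : ℝ, ∏ j ∈ Finset.range L, g (x ^ (n + n₀ + 1 + J + j) + s (n + J + j + n₀)) =
      ∏ j ∈ Finset.range L, g (1 * x ^ (n + J + j + n₀ + 1) + s (n + J + j + n₀)) := by
    intro x
    refine Finset.prod_congr rfl fun j _ => ?_
    rw [one_mul, show n + n₀ + 1 + J + j = n + J + j + n₀ + 1 by ring]
  simp_rw [h6] at h5
  exact h5

theorem continuous_g {H : ℕ} {c : ℤ → ℂ} {g : ℝ → ℝ} (hg : ∀ t, gpoly H c t = (g t : ℂ)) : Continuous g := by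
  have h1 : g = fun t => (gpoly H c t).re := by
    ext t
    rw [hg]
    simp
  rw [h1]
  refine Complex.continuous_re.comp ?_
  unfold gpoly
  exact continuous_finsetSum _ fun h _ => continuous_const.mul (Pool.Agent.Helper82.FK.continuous_e.comp (by fun_prop))

/-- the lower bound near one good point -/
theorem glue_point {x₀ β₁ b : ℝ} {φ : ℝ → ℝ} {K : ℝ} (hK : 0 ≤ K) (hlip : ∀ s t, |φ s - φ t| ≤ K * |s - t|)
    (hb : ∀ t, |φ t| ≤ 1) {g₀ g₁ g₂ : ℝ → ℝ} (hc₀ : Continuous g₀) (hc₁ : Continuous g₁) (hc₂ : Continuous g₂)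
    {θ θ₁ θ₂ m₀ m₁ m₂ h₁ h₂ : ℝ} (hθ : 0 < θ) (hθ₁ : 0 < θ₁) (hθ₂ : 0 < θ₂) (hm₀ : 0 < m₀) (hm₁ : 0 < m₁) (hm₂ : 0 < m₂)
    (hh₁ : 0 < h₁)
    (hg₀ : ∀ t, 0 ≤ g₀ t) (he₀ : ∀ t, m₀ * g₀ t ≤ Real.exp (θ * φ t)) (he₁ : ∀ t, Real.exp ((θ + θ₁) * φ t) ≤ m₁ * g₁ t)
    (he₂ : ∀ t, Real.exp ((θ - θ₂) * φ t) ≤ m₂ * g₂ t)
    (hlt₁ : Real.log m₁ - Real.log m₀ < θ₁ * h₂) (hlt₂ : Real.log m₂ - Real.log m₀ + θ₂ * h₁ < 0)
    (hI : Real.log m₀ < θ * h₂) (hβ : 1 < β₁) (hβ₁ : β₁ < x₀) (hx₀ : x₀ < b)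
    (hN₀ : Near g₀ x₀) (hN₁ : Near g₁ x₀) (hN₂ : Near g₂ x₀) {ε : ℝ} (hε : 0 < ε) (s : ℕ → ℝ) :
    ENNReal.ofReal (1 - (θ * h₂ - Real.log m₀) / Real.log β₁ - ε) ≤
      dimH {x : ℝ | x ∈ Ioo β₁ b ∧ ∀ᶠ N : ℕ in atTop, h₁ * N ≤ ∑ n ∈ Finset.range N, φ (x ^ (n + 1) + s n)} := by
  obtain ⟨J₀, hJ₀⟩ := near_avg hN₀
  obtain ⟨J₁, hJ₁⟩ := near_avg hN₁
  obtain ⟨J₂, hJ₂⟩ := near_avg hN₂
  set J : ℕ := max J₀ (max J₁ J₂) with hJ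
  have hlogβ : 0 < Real.log β₁ := Real.log_pos hβ
  -- a slightly larger slope
  set d₂ : ℝ := -(Real.log m₂ - Real.log m₀ + θ₂ * h₁) / 2 with hd₂
  have hd₂0 : 0 < d₂ := by rw [hd₂]; linarith
  set h₁' : ℝ := h₁ + d₂ / θ₂ with hh₁'
  have hh₁'0 : 0 < d₂ / θ₂ := by positivity
  have hθh : θ₂ * h₁' = θ₂ * h₁ + d₂ := by rw [hh₁']; field_simp
  set d₁ : ℝ := θ₁ * h₂ - (Real.log m₁ - Real.log m₀) with hd₁
  have hd₁0 : 0 < d₁ := by rw [hd₁]; linarith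
  set Iv : ℝ := θ * h₂ - Real.log m₀ with hIv
  have hIv0 : 0 < Iv := by rw [hIv]; linarith
  set E : ℝ := (θ + θ₁ + θ₂) * (2 * C0 K β₁ + J) + Real.log 2 with hE
  -- the length
  obtain ⟨L, hL⟩ := exists_nat_gt (|2 * E - θ₁ * h₂ * J| / d₁ + |2 * E + θ₂ * h₁' * J| / d₂ + |θ * h₂ * J + E| / Iv +
    2 * |J * Real.log m₀ + E| / (ε * Real.log β₁))
  have hp1 : 0 ≤ |2 * E - θ₁ * h₂ * J| / d₁ := by positivity
  have hp2 : 0 ≤ |2 * E + θ₂ * h₁' * J| / d₂ := by positivity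
  have hp3 : 0 ≤ |θ * h₂ * J + E| / Iv := by positivity
  have hp4 : 0 ≤ 2 * |J * Real.log m₀ + E| / (ε * Real.log β₁) := by positivity
  have hL0 : (0 : ℝ) < L := by linarith
  have hLn : 0 < L := by exact_mod_cast hL0
  have hq1 : 2 * E - θ₁ * h₂ * J < d₁ * L := by
    have : |2 * E - θ₁ * h₂ * J| / d₁ < L := by linarith
    rw [div_lt_iff₀ hd₁0] at this
    have := le_abs_self (2 * E - θ₁ * h₂ * J)
    linarith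
  have hq2 : 2 * E + θ₂ * h₁' * J < d₂ * L := by
    have : |2 * E + θ₂ * h₁' * J| / d₂ < L := by linarith
    rw [div_lt_iff₀ hd₂0] at this
    have := le_abs_self (2 * E + θ₂ * h₁' * J)
    linarith
  have hq3 : -(θ * h₂ * J + E) < Iv * L := by
    have : |θ * h₂ * J + E| / Iv < L := by linarith
    rw [div_lt_iff₀ hIv0] at this
    have := neg_le_abs (θ * h₂ * J + E)
    linarith
  have hq4 : (J * Real.log m₀ + E) / (((J + L : ℕ) : ℝ) * Real.log β₁) ≤ ε := by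
    have h1 : 2 * |J * Real.log m₀ + E| / (ε * Real.log β₁) < L := by linarith
    rw [div_lt_iff₀ (by positivity)] at h1
    have h2 : (0 : ℝ) < ((J + L : ℕ) : ℝ) := by
      have : 0 < J + L := by omega
      exact_mod_cast this
    rw [div_le_iff₀ (by positivity)]
    have h3 : (L : ℝ) ≤ ((J + L : ℕ) : ℝ) := by push_cast; linarith [(Nat.cast_nonneg J : (0 : ℝ) ≤ J)]
    have h4 : (L : ℝ) * (ε * Real.log β₁) ≤ ((J + L : ℕ) : ℝ) * (ε * Real.log β₁) := mul_le_mul_of_nonneg_right h3 (by positivity)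
    have h5 := le_abs_self (J * Real.log m₀ + E)
    have h6 := abs_nonneg (J * Real.log m₀ + E)
    linarith
  -- the neighbourhood
  obtain ⟨n₀', ρ₀, hρ₀, hav₀⟩ := hJ₀ J (le_max_left _ _) L
  obtain ⟨n₁', ρ₁, hρ₁, hav₁⟩ := hJ₁ J ((le_max_left _ _).trans (le_max_right _ _)) L
  obtain ⟨n₂', ρ₂, hρ₂, hav₂⟩ := hJ₂ J ((le_max_right _ _).trans (le_max_right _ _)) L
  set nn : ℕ := max n₀' (max n₁' n₂') with hnn
  have hO1 : Ioo (x₀ - ρ₀) (x₀ + ρ₀) ∈ 𝓝 x₀ := Ioo_mem_nhds (by linarith) (by linarith)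
  have hO2 : Ioo (x₀ - ρ₁) (x₀ + ρ₁) ∈ 𝓝 x₀ := Ioo_mem_nhds (by linarith) (by linarith)
  have hO3 : Ioo (x₀ - ρ₂) (x₀ + ρ₂) ∈ 𝓝 x₀ := Ioo_mem_nhds (by linarith) (by linarith)
  have hO4 : Ioo β₁ b ∈ 𝓝 x₀ := Ioo_mem_nhds hβ₁ hx₀
  have hO5 : {y : ℝ | ∀ n ∈ Finset.range (nn + 1), |y ^ (n + 1) - x₀ ^ (n + 1)| < 1 / 2} ∈ 𝓝 x₀ := by
    have : ∀ᶠ y in 𝓝 x₀, ∀ n ∈ Finset.range (nn + 1), |y ^ (n + 1) - x₀ ^ (n + 1)| < 1 / 2 := by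
      rw [Filter.eventually_all_finset]
      intro n _
      have hc : ContinuousAt (fun y : ℝ => |y ^ (n + 1) - x₀ ^ (n + 1)|) x₀ := by fun_prop
      have h0 : (fun y : ℝ => |y ^ (n + 1) - x₀ ^ (n + 1)|) x₀ < 1 / 2 := by simp
      exact hc.eventually_lt continuousAt_const h0
    exact this
  obtain ⟨r₀, hr₀, hinst⟩ := Pool.Agent.Helper80.KD.inst_pow (x₀ := x₀) (τ := 1) (hβ.trans hβ₁) hβ hβ₁ hx₀ one_pos 0
  obtain ⟨n₀, v, a', b', hx, hsub, hF, -, -⟩ := hinst 1 one_pos s x₀ ⟨by linarith, by linarith⟩ _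
    (inter_mem hO1 (inter_mem hO2 (inter_mem hO3 (inter_mem hO4 hO5)))) 0 1 one_pos
  have hn₀ : nn ≤ n₀ := by
    by_contra hcon
    push Not at hcon
    have h1 := (hsub (left_mem_Icc.2 hF.hab.le)).2.2.2.2 n₀ (Finset.mem_range.2 (by omega))
    have h2 := (hsub (right_mem_Icc.2 hF.hab.le)).2.2.2.2 n₀ (Finset.mem_range.2 (by omega))
    have h3 := hF.root.1
    simp only [Nat.zero_add, one_mul] at h3
    have h4 := (abs_lt.1 h1).1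
    have h5 := (abs_lt.1 h2).2
    linarith
  have hA₀ := hav₀ n₀ a' b' s ((le_max_left _ _).trans hn₀) fun y hy => (hsub hy).1
  have hA₁ := hav₁ n₀ a' b' s (((le_max_left _ _).trans (le_max_right _ _)).trans hn₀) fun y hy => (hsub hy).2.1
  have hA₂ := hav₂ n₀ a' b' s (((le_max_right _ _).trans (le_max_right _ _)).trans hn₀) fun y hy => (hsub hy).2.2.1
  have hJL : (((J + L : ℕ)) : ℝ) = J + L := by push_cast; ring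
  have hmain := fam_dim hF hK hlip hb hc₀ hc₁ hc₂ (h₁ := h₁') (h₂ := h₂) hθ hθ₁ hθ₂ hm₀ hm₁ hm₂ (by positivity) hg₀ he₀ he₁ he₂
    (by omega) hA₀ hA₁ hA₂ le_rfl (by rw [hJL]; nlinarith) (by rw [hJL]; nlinarith) (by rw [hJL]; nlinarith)
  refine le_trans (ENNReal.ofReal_le_ofReal ?_) (hmain.trans (dimH_mono ?_))
  · have hpos : 0 < ((J + L : ℕ) : ℝ) := by
      have : 0 < J + L := by omega
      exact_mod_cast this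
    have h1 : (θ * (h₂ * ((J + L : ℕ) : ℝ)) - L * Real.log m₀ + E) / (((J + L : ℕ) : ℝ) * Real.log β₁) =
        Iv / Real.log β₁ + (J * Real.log m₀ + E) / (((J + L : ℕ) : ℝ) * Real.log β₁) := by
      rw [hIv]
      have hpos' := hpos
      field_simp
      rw [hJL]
      ring
    rw [← hE, h1]
    linarith
  · rintro x ⟨hxI, C, hC⟩
    refine ⟨(hsub hxI).2.2.2.1, ?_⟩
    obtain ⟨N₁, hN₁⟩ := exists_nat_gt ((n₀ + |C| + h₁' * n₀) / (d₂ / θ₂))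
    refine eventually_atTop.2 ⟨max N₁ n₀, fun N hN => ?_⟩
    obtain ⟨M, rfl⟩ : ∃ M, N = n₀ + M := ⟨N - n₀, by have := (le_max_right N₁ n₀).trans hN; omega⟩
    have h1 := hC M
    have h2 : ∑ n ∈ Finset.range (n₀ + M), φ (x ^ (n + 1) + s n) =
        ∑ n ∈ Finset.range n₀, φ (x ^ (n + 1) + s n) + Pool.Agent.Helper78.KD.S φ (fun n x => 1 * x ^ (n + n₀ + 1) + s (n + n₀)) M x := by
      rw [Finset.sum_range_add]
      congr 1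
      unfold Pool.Agent.Helper78.KD.S
      refine Finset.sum_congr rfl fun n _ => ?_
      simp only [one_mul]
      rw [Nat.add_comm n₀ n]
    have h3 : -(n₀ : ℝ) ≤ ∑ n ∈ Finset.range n₀, φ (x ^ (n + 1) + s n) := by
      have h4 : |∑ n ∈ Finset.range n₀, φ (x ^ (n + 1) + s n)| ≤ n₀ :=
        (Finset.abs_sum_le_sum_abs _ _).trans ((Finset.sum_le_sum fun j _ => hb _).trans (by simp))
      exact (abs_le.1 h4).1
    rw [h2]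
    have h4 : ((n₀ + |C| + h₁' * n₀) / (d₂ / θ₂)) < ((n₀ + M : ℕ) : ℝ) :=
      lt_of_lt_of_le hN₁ (by exact_mod_cast (le_max_left N₁ n₀).trans hN)
    rw [div_lt_iff₀ hh₁'0] at h4
    have h5 : h₁ * ((n₀ + M : ℕ) : ℝ) = h₁' * (n₀ + M : ℝ) - ((n₀ + M : ℕ) : ℝ) * (d₂ / θ₂) := by
      rw [hh₁']; push_cast; ring
    rw [h5]
    have h6 := le_abs_self C
    linarith

/-- **Lower glue.** -/
theorem glue_ae {a b : ℝ} (ha : 1 < a) (hab : a < b) {φ : ℝ → ℝ} {K : ℝ} (hK : 0 ≤ K)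
    (hlip : ∀ s t, |φ s - φ t| ≤ K * |s - t|) (hb : ∀ t, |φ t| ≤ 1) {g₀ g₁ g₂ : ℝ → ℝ}
    (hc₀ : Continuous g₀) (hc₁ : Continuous g₁) (hc₂ : Continuous g₂)
    (hN₀ : ∀ᵐ x₀ : ℝ, x₀ ∈ Ioo a b → Near g₀ x₀) (hN₁ : ∀ᵐ x₀ : ℝ, x₀ ∈ Ioo a b → Near g₁ x₀)
    (hN₂ : ∀ᵐ x₀ : ℝ, x₀ ∈ Ioo a b → Near g₂ x₀)
    {θ θ₁ θ₂ m₀ m₁ m₂ h₁ h₂ : ℝ} (hθ : 0 < θ) (hθ₁ : 0 < θ₁) (hθ₂ : 0 < θ₂) (hm₀ : 0 < m₀) (hm₁ : 0 < m₁) (hm₂ : 0 < m₂)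
    (hh₁ : 0 < h₁) (hp₀ : ∀ t, 0 ≤ g₀ t) (he₀ : ∀ t, m₀ * g₀ t ≤ Real.exp (θ * φ t))
    (he₁ : ∀ t, Real.exp ((θ + θ₁) * φ t) ≤ m₁ * g₁ t) (he₂ : ∀ t, Real.exp ((θ - θ₂) * φ t) ≤ m₂ * g₂ t)
    (hlt₁ : Real.log m₁ - Real.log m₀ < θ₁ * h₂) (hlt₂ : Real.log m₂ - Real.log m₀ + θ₂ * h₁ < 0)
    (hI : Real.log m₀ < θ * h₂) (s : ℕ → ℝ) :
    ENNReal.ofReal (1 - (θ * h₂ - Real.log m₀) / Real.log b) ≤
      dimH {x : ℝ | x ∈ Ioo a b ∧ ∀ᶠ N : ℕ in atTop, h₁ * N ≤ ∑ n ∈ Finset.range N, φ (x ^ (n + 1) + s n)} := by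
  have hae := hN₀.and (hN₁.and hN₂)
  set A : Set ℝ := {x : ℝ | x ∈ Ioo a b ∧ ∀ᶠ N : ℕ in atTop, h₁ * N ≤ ∑ n ∈ Finset.range N, φ (x ^ (n + 1) + s n)} with hA
  set Iv : ℝ := θ * h₂ - Real.log m₀ with hIv
  have hb1 : 1 < b := ha.trans hab
  have hlogb : 0 < Real.log b := Real.log_pos hb1
  by_cases htop : dimH A = ⊤
  · rw [htop]; exact le_top
  rw [ENNReal.ofReal_le_iff_le_toReal htop]
  refine le_of_forall_pos_le_add fun ε hε => ?_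
  -- a point of the interval near b
  have hcont : ContinuousAt (fun y => Iv / Real.log y) b :=
    continuousAt_const.div (Real.continuousAt_log (by linarith)) hlogb.ne'
  have h1 : ∀ᶠ y in 𝓝[<] b, Iv / Real.log y < Iv / Real.log b + ε / 2 :=
    (hcont.eventually (gt_mem_nhds (show Iv / Real.log b < Iv / Real.log b + ε / 2 by linarith))).filter_mono nhdsWithin_le_nhds
  have h2 : ∀ᶠ y in 𝓝[<] b, y ∈ Ioo a b := Ioo_mem_nhdsLT hab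
  obtain ⟨β₁, hβ1, hβ2⟩ := (h1.and h2).exists
  obtain ⟨x₀, hx₀, hN⟩ : ∃ x₀ ∈ Ioo β₁ b, (x₀ ∈ Ioo a b → Near g₀ x₀) ∧ (x₀ ∈ Ioo a b → Near g₁ x₀) ∧ (x₀ ∈ Ioo a b → Near g₂ x₀) := by
    by_contra hcon
    have h3 : volume (Ioo β₁ b) = 0 := by
      refine measure_mono_null (fun x hx => ?_) hae
      intro h4
      exact hcon ⟨x, hx, h4⟩
    rw [Real.volume_Ioo] at h3
    have := hβ2.2
    rw [ENNReal.ofReal_eq_zero] at h3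
    linarith
  have hxab : x₀ ∈ Ioo a b := ⟨hβ2.1.trans hx₀.1, hx₀.2⟩
  have h3 := glue_point (ε := ε / 2) hK hlip hb hc₀ hc₁ hc₂ hθ hθ₁ hθ₂ hm₀ hm₁ hm₂
    hh₁ hp₀ he₀ he₁ he₂ hlt₁ hlt₂ hI (ha.trans hβ2.1) hx₀.1 hx₀.2 (hN.1 hxab) (hN.2.1 hxab) (hN.2.2 hxab) (by positivity) s
  have h4 := h3.trans (dimH_mono (show _ ⊆ A from fun x hx => ⟨⟨hβ2.1.trans hx.1.1, hx.1.2⟩, hx.2⟩))
  rw [ENNReal.ofReal_le_iff_le_toReal htop] at h4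
  linarith

end Pool.Agent.Helper87.GP
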