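import Pool.Agent.Helper87.GP.Expand

/-!
# GP-G5: the local bound
-/

set_option autoImplicit false
open MeasureTheory Set Filter Topology Pool.Agent.Helper82.FK

namespace Pool.Agent.Helper87.GP

/-- `min(1, η/|y|)` -/
noncomputable def cut (η y : ℝ) : ℝ := η / max η |y|

theorem cut_of_le {η y : ℝ} (hη : 0 < η) (h : |y| ≤ η) : cut η y = 1 := by
  unfold cut
  rw [max_eq_left h, div_self hη.ne']

theorem cut_of_ge {η y : ℝ} (h : η ≤ |y|) : cut η y = η / |y| := by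
  unfold cut
  rw [max_eq_right h]

theorem cut_nonneg {η : ℝ} (hη : 0 < η) (y : ℝ) : 0 ≤ cut η y := by
  unfold cut
  have : 0 < max η |y| := lt_of_lt_of_le hη (le_max_left _ _)
  positivity

theorem cut_le_one {η : ℝ} (hη : 0 < η) (y : ℝ) : cut η y ≤ 1 := by
  unfold cut
  have : 0 < max η |y| := lt_of_lt_of_le hη (le_max_left _ _)
  rw [div_le_one this]
  exact le_max_left _ _

theorem pow_lip (i : ℕ) {R x y : ℝ} (hR : 1 ≤ R) (hx0 : 0 ≤ x) (hx : x ≤ R) (hy0 : 0 ≤ y) (hy : y ≤ R) :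
    |x ^ i - y ^ i| ≤ i * R ^ i * |x - y| := by
  induction i with
  | zero => simp
  | succ i ih =>
    have e1 : x ^ (i + 1) - y ^ (i + 1) = x * (x ^ i - y ^ i) + y ^ i * (x - y) := by ring
    rw [e1]
    refine (abs_add_le _ _).trans ?_
    rw [abs_mul, abs_mul, abs_of_nonneg hx0, abs_of_nonneg (pow_nonneg hy0 i)]
    have h1 : x * |x ^ i - y ^ i| ≤ R * (i * R ^ i * |x - y|) := mul_le_mul hx ih (abs_nonneg _) (by linarith)
    have h2 : y ^ i ≤ R ^ (i + 1) := (pow_le_pow_left₀ hy0 hy i).trans (pow_le_pow_right₀ hR (by omega))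
    have h3 : y ^ i * |x - y| ≤ R ^ (i + 1) * |x - y| := mul_le_mul_of_nonneg_right h2 (abs_nonneg _)
    calc _ ≤ R * (i * R ^ i * |x - y|) + R ^ (i + 1) * |x - y| := add_le_add h1 h3
      _ = _ := by push_cast; ring

/-- the estimate at one string -/
theorem est {a R p q y : ℝ} {H J L m t : ℕ} (b : Fin (t + 1) → ℤ) (hb : ∀ i, |(b i : ℝ)| ≤ H) (ht : t < L)
    (ha : 1 < a) (hp : a ≤ p) (hpq : p < q) (hq : q ≤ R) (h1 : 1 ≤ q ^ (m + 1) - p ^ (m + 1))
    (h2 : q ^ (m + 1) - p ^ (m + 1) ≤ 2) (hy : 0 < |y|)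
    (hlow : ((m : ℝ) + 1) * |y| / 2 ≤ |∑ i : Fin (t + 1), (b i : ℝ) * (((m + J + (i : ℕ) : ℕ) : ℝ) + 1) * p ^ (i : ℕ)|) :
    ‖∫ x in p..q, e (∑ i : Fin (t + 1), (b i : ℝ) * x ^ (m + 1 + J + (i : ℕ)))‖ ≤
      (q - p) * (2 * ((a ^ J)⁻¹ / |y|) + 2 * Real.pi * (L * (12 * H * (1 + J + L) ^ 2 * R ^ (J + L + 1) / a ^ m))) := by
  have hp1 : 1 ≤ p := ha.le.trans hp
  have hp0 : 0 < p := by linarith
  have hq1 : 1 ≤ q := hp1.trans hpq.le
  have hR1 : 1 ≤ R := hq1.trans hq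
  have ha0 : 0 < a := by linarith
  set lam : ℝ := ∑ i : Fin (t + 1), (b i : ℝ) * ((((m + J + (i : ℕ) : ℕ) : ℝ) + 1) * p ^ (m + J + (i : ℕ))) with hlam
  have hlam2 : lam = p ^ (m + J) * ∑ i : Fin (t + 1), (b i : ℝ) * (((m + J + (i : ℕ) : ℕ) : ℝ) + 1) * p ^ (i : ℕ) := by
    rw [hlam, Finset.mul_sum]
    refine Finset.sum_congr rfl fun i _ => ?_
    rw [pow_add p (m + J)]
    ring
  have hlabs : p ^ (m + J) * (((m : ℝ) + 1) * |y| / 2) ≤ |lam| := by
    rw [hlam2, abs_mul, abs_of_pos (by positivity : 0 < p ^ (m + J))]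
    exact mul_le_mul_of_nonneg_left hlow (by positivity)
  have hlpos : 0 < |lam| := lt_of_lt_of_le (by positivity) hlabs
  have hlne : lam ≠ 0 := abs_pos.1 hlpos
  -- lengths
  have hlen1 : q ^ (m + 1) - p ^ (m + 1) ≤ (m + 1) * q ^ m * (q - p) := by
    have h3 : |q ^ (m + 1) - p ^ (m + 1)| ≤ |q - p| * ((m + 1 : ℕ) : ℝ) * max |q| |p| ^ (m + 1 - 1) := abs_pow_sub_pow_le q p (m + 1)
    rw [abs_of_nonneg (by linarith), abs_of_pos (by linarith : 0 < q - p), abs_of_pos hp0, abs_of_pos (by linarith : 0 < q),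
      max_eq_left hpq.le, Nat.add_sub_cancel] at h3
    refine h3.trans (le_of_eq ?_)
    push_cast
    ring
  have hlen2 : (m + 1) * p ^ m * (q - p) ≤ q ^ (m + 1) - p ^ (m + 1) := by
    have := (pow_lin m hp1 hpq.le).1
    linarith
  have hqp0 : 0 < q - p := by linarith
  have hq3 : q ^ (m + 1) ≤ 3 * p ^ (m + 1) := by
    have : 1 ≤ p ^ (m + 1) := one_le_pow₀ hp1
    linarith
  have hq3' : q ^ m ≤ 3 * p ^ m := by
    have h3 : q * q ^ m ≤ 3 * (p * p ^ m) := by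
      rw [← pow_succ', ← pow_succ']; exact hq3
    have h4 : p * p ^ m ≤ q * p ^ m := mul_le_mul_of_nonneg_right hpq.le (by positivity)
    have h5 : q * q ^ m ≤ q * (3 * p ^ m) := by linarith
    exact le_of_mul_le_mul_left h5 (by linarith)
  -- main term
  have hmain : 1 / (Real.pi * |lam|) ≤ (q - p) * (2 * ((a ^ J)⁻¹ / |y|)) := by
    have hpi := Real.pi_gt_three
    have h3 : 1 ≤ (m + 1) * q ^ m * (q - p) := h1.trans hlen1
    have h4 : p ^ m * a ^ J ≤ p ^ (m + J) := by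
      rw [pow_add]
      exact mul_le_mul_of_nonneg_left (pow_le_pow_left₀ ha0.le hp J) (by positivity)
    rw [div_le_iff₀ (by positivity)]
    have h5 : p ^ m * a ^ J * (((m : ℝ) + 1) * |y| / 2) ≤ |lam| :=
      (mul_le_mul_of_nonneg_right h4 (by positivity)).trans hlabs
    have h6 : (q - p) * (2 * ((a ^ J)⁻¹ / |y|)) * (Real.pi * (p ^ m * a ^ J * (((m : ℝ) + 1) * |y| / 2))) ≤
        (q - p) * (2 * ((a ^ J)⁻¹ / |y|)) * (Real.pi * |lam|) := by gcongr
    refine le_trans ?_ h6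
    have h7 : (q - p) * (2 * ((a ^ J)⁻¹ / |y|)) * (Real.pi * (p ^ m * a ^ J * (((m : ℝ) + 1) * |y| / 2))) =
        (q - p) * (Real.pi * (p ^ m * ((m : ℝ) + 1))) := by
      field_simp
    rw [h7]
    have h8 : (m + 1) * q ^ m * (q - p) ≤ (m + 1) * (3 * p ^ m) * (q - p) := by gcongr
    have h9 : (m + 1) * (3 * p ^ m) * (q - p) ≤ (q - p) * (Real.pi * (p ^ m * ((m : ℝ) + 1))) := by
      have : 0 ≤ (q - p) * (p ^ m * ((m : ℝ) + 1)) := by positivity
      nlinarith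
    linarith
  -- the error
  have herr : ∀ x ∈ Icc p q, |(∑ i : Fin (t + 1), (b i : ℝ) * x ^ (m + 1 + J + (i : ℕ))) -
      (∑ i : Fin (t + 1), (b i : ℝ) * p ^ (m + 1 + J + (i : ℕ))) - lam * (x - p)| ≤
        L * (12 * H * (1 + J + L) ^ 2 * R ^ (J + L + 1) / a ^ m) := by
    intro x hx
    have e1 : (∑ i : Fin (t + 1), (b i : ℝ) * x ^ (m + 1 + J + (i : ℕ))) -
      (∑ i : Fin (t + 1), (b i : ℝ) * p ^ (m + 1 + J + (i : ℕ))) - lam * (x - p) =
        ∑ i : Fin (t + 1), (b i : ℝ) * (x ^ (m + J + (i : ℕ) + 1) - p ^ (m + J + (i : ℕ) + 1) -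
          (((m + J + (i : ℕ) : ℕ) : ℝ) + 1) * p ^ (m + J + (i : ℕ)) * (x - p)) := by
      rw [hlam, Finset.sum_mul, ← Finset.sum_sub_distrib, ← Finset.sum_sub_distrib]
      refine Finset.sum_congr rfl fun i _ => ?_
      rw [show m + 1 + J + (i : ℕ) = m + J + (i : ℕ) + 1 by ring]
      ring
    rw [e1]
    refine (Finset.abs_sum_le_sum_abs _ _).trans ?_
    have hC0 : 0 ≤ 12 * H * (1 + J + L : ℝ) ^ 2 * R ^ (J + L + 1) / a ^ m := by positivity
    have hterm : ∀ i : Fin (t + 1), |(b i : ℝ) * (x ^ (m + J + (i : ℕ) + 1) - p ^ (m + J + (i : ℕ) + 1) -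
          (((m + J + (i : ℕ) : ℕ) : ℝ) + 1) * p ^ (m + J + (i : ℕ)) * (x - p))| ≤
          12 * H * (1 + J + L : ℝ) ^ 2 * R ^ (J + L + 1) / a ^ m := by
      intro i
      have hi : (i : ℕ) + 1 ≤ L := by have := i.2; omega
      obtain ⟨h3, h4⟩ := pow_lin (m + J + (i : ℕ)) hp1 hx.1
      rw [abs_mul, abs_of_nonneg h3]
      have hx1 : 1 ≤ x := hp1.trans hx.1
      have h5 : x ^ (m + J + (i : ℕ) + 1) ≤ 3 * p ^ (m + 1) * R ^ (J + L) := by
        calc x ^ (m + J + (i : ℕ) + 1) ≤ x ^ ((m + 1) + (J + L)) := pow_le_pow_right₀ hx1 (by omega)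
          _ ≤ q ^ ((m + 1) + (J + L)) := pow_le_pow_left₀ (by linarith) hx.2 _
          _ = q ^ (m + 1) * q ^ (J + L) := pow_add _ _ _
          _ ≤ (3 * p ^ (m + 1)) * R ^ (J + L) := by gcongr
      have h6 : (x - p) ^ 2 ≤ (2 / ((m + 1) * p ^ m)) ^ 2 := by
        have h7 : q - p ≤ 2 / ((m + 1) * p ^ m) := by
          rw [le_div_iff₀ (by positivity)]
          linarith [hlen2.trans h2, mul_comm (q - p) ((m + 1 : ℝ) * p ^ m)]
        exact pow_le_pow_left₀ (by linarith [hx.1]) (by linarith [hx.2]) 2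
      have h8 : (((m + J + (i : ℕ) : ℕ) : ℝ) + 1) ^ 2 ≤ ((m + 1) * (1 + J + L)) ^ 2 := by
        refine pow_le_pow_left₀ (by positivity) ?_ 2
        push_cast
        have h9 : ((i : ℕ) : ℝ) + 1 ≤ L := by exact_mod_cast hi
        have h10 : (0 : ℝ) ≤ m * (J + L) := by positivity
        nlinarith
      have h10 : |(b i : ℝ)| * (x ^ (m + J + (i : ℕ) + 1) - p ^ (m + J + (i : ℕ) + 1) -
          (((m + J + (i : ℕ) : ℕ) : ℝ) + 1) * p ^ (m + J + (i : ℕ)) * (x - p)) ≤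
          H * (((m + 1) * (1 + J + L)) ^ 2 * (3 * p ^ (m + 1) * R ^ (J + L)) * (2 / ((m + 1) * p ^ m)) ^ 2) := by
        refine mul_le_mul (hb i) (h4.trans ?_) h3 (by positivity)
        have h11 : (0:ℝ) ≤ x ^ (m + J + (i : ℕ) + 1) := by positivity
        gcongr
      refine h10.trans ?_
      have h11 : (H : ℝ) * (((m + 1) * (1 + J + L)) ^ 2 * (3 * p ^ (m + 1) * R ^ (J + L)) * (2 / ((m + 1) * p ^ m)) ^ 2) =
          12 * H * (1 + J + L : ℝ) ^ 2 * (R ^ (J + L) * p) / p ^ m := by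
        field_simp
        ring
      rw [h11]
      have h12 : R ^ (J + L) * p ≤ R ^ (J + L + 1) := by
        rw [pow_succ]
        exact mul_le_mul_of_nonneg_left (hpq.le.trans hq) (by positivity)
      have h13 : a ^ m ≤ p ^ m := pow_le_pow_left₀ ha0.le hp m
      gcongr
    refine (Finset.sum_le_sum fun i _ => hterm i).trans ?_
    rw [Finset.sum_const, Finset.card_univ, Fintype.card_fin, nsmul_eq_mul]
    refine mul_le_mul_of_nonneg_right ?_ hC0
    exact_mod_cast ht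
  have hcont : Continuous fun x : ℝ => ∑ i : Fin (t + 1), (b i : ℝ) * x ^ (m + 1 + J + (i : ℕ)) := by fun_prop
  have := osc hcont hpq.le hlne herr
  refine this.trans ?_
  rw [mul_add]
  refine add_le_add hmain (le_of_eq ?_)
  ring

end Pool.Agent.Helper87.GP
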