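import Pool.Agent.Helper87.GP.Local

/-!
# GP-G5: the local bound for all strings of length at most `L`
-/

set_option autoImplicit false
open MeasureTheory Set Filter Topology Pool.Agent.Helper82.FK

namespace Pool.Agent.Helper87.GP

theorem fz_lip {H L t : ℕ} {b : Fin (t + 1) → ℤ} (hb : ∀ i, |(b i : ℝ)| ≤ H) (ht : t < L) {R x y : ℝ} (hR : 1 ≤ R)
    (hx0 : 0 ≤ x) (hx : x ≤ R) (hy0 : 0 ≤ y) (hy : y ≤ R) : |fz b x - fz b y| ≤ L * (L * H * R ^ L) * |x - y| := by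
  unfold fz
  rw [← Finset.sum_sub_distrib]
  refine (Finset.abs_sum_le_sum_abs _ _).trans ?_
  have h1 : ∀ i : Fin (t + 1), |(b i : ℝ) * x ^ (i : ℕ) - b i * y ^ (i : ℕ)| ≤ (L * H * R ^ L) * |x - y| := by
    intro i
    have hi : (i : ℕ) ≤ L := by have := i.2; omega
    rw [← mul_sub, abs_mul]
    have h2 := pow_lip (i : ℕ) hR hx0 hx hy0 hy
    have h3 : (((i : ℕ)) : ℝ) * R ^ (i : ℕ) * |x - y| ≤ L * R ^ L * |x - y| := by
      have h4 : R ^ (i : ℕ) ≤ R ^ L := pow_le_pow_right₀ hR hi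
      have h5 : ((i : ℕ) : ℝ) ≤ L := by exact_mod_cast hi
      gcongr
    calc _ ≤ H * (L * R ^ L * |x - y|) := mul_le_mul (hb i) (h2.trans h3) (abs_nonneg _) (by positivity)
      _ = _ := by ring
  refine (Finset.sum_le_sum fun i _ => h1 i).trans ?_
  rw [Finset.sum_const, Finset.card_univ, Fintype.card_fin, nsmul_eq_mul]
  have h2 : (0 : ℝ) ≤ (L * H * R ^ L) * |x - y| := by positivity
  rw [show (L : ℝ) * (L * H * R ^ L) * |x - y| = L * ((L * H * R ^ L) * |x - y|) by ring]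
  refine mul_le_mul_of_nonneg_right ?_ h2
  exact_mod_cast ht

theorem sum_i_le {H L t : ℕ} {b : Fin (t + 1) → ℤ} (hb : ∀ i, |(b i : ℝ)| ≤ H) (ht : t < L) {R x : ℝ} (hR : 1 ≤ R)
    (hx0 : 0 ≤ x) (hx : x ≤ R) : |∑ i : Fin (t + 1), (b i : ℝ) * ((i : ℕ) : ℝ) * x ^ (i : ℕ)| ≤ L * (L * H * R ^ L) := by
  refine (Finset.abs_sum_le_sum_abs _ _).trans ?_
  have h1 : ∀ i : Fin (t + 1), |(b i : ℝ) * ((i : ℕ) : ℝ) * x ^ (i : ℕ)| ≤ L * H * R ^ L := by
    intro i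
    have hi : (i : ℕ) ≤ L := by have := i.2; omega
    rw [abs_mul, abs_mul, abs_of_nonneg (pow_nonneg hx0 _), Nat.abs_cast]
    have h4 : x ^ (i : ℕ) ≤ R ^ L := (pow_le_pow_left₀ hx0 hx _).trans (pow_le_pow_right₀ hR hi)
    have h5 : ((i : ℕ) : ℝ) ≤ L := by exact_mod_cast hi
    have h6 := hb i
    calc _ ≤ (H : ℝ) * L * R ^ L := by gcongr
      _ = _ := by ring
  refine (Finset.sum_le_sum fun i _ => h1 i).trans ?_
  rw [Finset.sum_const, Finset.card_univ, Fintype.card_fin, nsmul_eq_mul]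
  refine mul_le_mul_of_nonneg_right ?_ (by positivity)
  exact_mod_cast ht

theorem local_bound {a x0 : ℝ} (ha : 1 < a) (hx : a < x0) (H J L : ℕ) {δ : ℝ} (hδ : 0 < δ) :
    ∃ n0 : ℕ, ∃ ρ > 0, ∀ n ≥ n0, ∀ p q, x0 - ρ < p → p < q → q < x0 + ρ → 1 ≤ q ^ n - p ^ n → q ^ n - p ^ n ≤ 2 →
      ∀ t < L, ∀ b ∈ Z H t, ‖∫ x in p..q, e (∑ i : Fin (t + 1), (b i : ℝ) * x ^ (n + J + (i : ℕ)))‖ ≤
        (q - p) * (2 * cut ((a ^ J)⁻¹) (fz b x0) + δ) := by
  have ha0 : 0 < a := by linarith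
  set R : ℝ := x0 + 1 with hR
  have hR1 : 1 ≤ R := by linarith
  set η : ℝ := (a ^ J)⁻¹ with hη
  have hη0 : 0 < η := by positivity
  set D : ℝ := L * (L * H * R ^ L) with hD
  have hD0 : 0 ≤ D := by positivity
  set B : ℝ := 2 * Real.pi * (L * (12 * H * (1 + J + L) ^ 2 * R ^ (J + L + 1))) with hB
  have hB0 : 0 ≤ B := by positivity
  have ht1 : ∀ᶠ m : ℕ in atTop, B / δ ≤ a ^ m := (tendsto_pow_atTop_atTop_of_one_lt ha).eventually_ge_atTop _
  have ht2 : ∀ᶠ m : ℕ in atTop, 4 * D / η ≤ (m : ℝ) := tendsto_natCast_atTop_atTop.eventually_ge_atTop _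
  obtain ⟨m0, hm0⟩ := eventually_atTop.1 (ht1.and ht2)
  refine ⟨m0 + 1, min (min 1 (x0 - a)) (η / (4 * (D + 1))), by
    have : 0 < x0 - a := by linarith
    positivity, ?_⟩
  intro n hn p q hp hpq hq h1 h2 t ht b hb
  obtain ⟨m, rfl⟩ : ∃ m, n = m + 1 := ⟨n - 1, by omega⟩
  obtain ⟨hm1, hm2⟩ := hm0 m (by omega)
  have hr1 : min (min 1 (x0 - a)) (η / (4 * (D + 1))) ≤ 1 := (min_le_left _ _).trans (min_le_left _ _)
  have hr2 : min (min 1 (x0 - a)) (η / (4 * (D + 1))) ≤ x0 - a := (min_le_left _ _).trans (min_le_right _ _)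
  have hr3 : min (min 1 (x0 - a)) (η / (4 * (D + 1))) ≤ η / (4 * (D + 1)) := min_le_right _ _
  have hpa : a ≤ p := by linarith
  have hqR : q ≤ R := by linarith
  have hp0 : 0 < p := by linarith
  have hZ := Z_abs hb
  rcases le_or_gt |fz b x0| η with hcase | hcase
  · rw [cut_of_le hη0 hcase]
    have h3 : ‖∫ x in p..q, e (∑ i : Fin (t + 1), (b i : ℝ) * x ^ (m + 1 + J + (i : ℕ)))‖ ≤ 1 * |q - p| :=
      intervalIntegral.norm_integral_le_of_norm_le_const fun x _ => (norm_e _).le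
    rw [abs_of_pos (by linarith : 0 < q - p)] at h3
    have h4 : 0 < q - p := by linarith
    nlinarith
  · rw [cut_of_ge hcase.le]
    set y := fz b x0 with hy
    have hy0 : 0 < |y| := hη0.trans hcase
    have h3 : |fz b p - y| ≤ η / 4 := by
      have h4 := fz_lip hZ ht hR1 hp0.le (by linarith) (by linarith : 0 ≤ x0) (by linarith)
      have h5 : |p - x0| ≤ η / (4 * (D + 1)) := by
        rw [abs_le]
        constructor <;> linarith
      calc |fz b p - y| ≤ D * |p - x0| := h4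
        _ ≤ (D + 1) * (η / (4 * (D + 1))) := mul_le_mul (by linarith) h5 (abs_nonneg _) (by linarith)
        _ = η / 4 := by field_simp
    have h4 : 3 / 4 * |y| ≤ |fz b p| := by
      have h5 := abs_sub_abs_le_abs_sub y (fz b p)
      rw [abs_sub_comm] at h5
      linarith
    have h5 := sum_i_le hZ ht hR1 hp0.le (by linarith : p ≤ R)
    have h6 : 4 * D ≤ m * η := by rwa [div_le_iff₀ hη0] at hm2
    have h7 : (∑ i : Fin (t + 1), (b i : ℝ) * (((m + J + (i : ℕ) : ℕ) : ℝ) + 1) * p ^ (i : ℕ)) =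
        ((m : ℝ) + J + 1) * fz b p + ∑ i : Fin (t + 1), (b i : ℝ) * ((i : ℕ) : ℝ) * p ^ (i : ℕ) := by
      unfold fz
      rw [Finset.mul_sum, ← Finset.sum_add_distrib]
      refine Finset.sum_congr rfl fun i _ => ?_
      push_cast
      ring
    have hlow : ((m : ℝ) + 1) * |y| / 2 ≤
        |∑ i : Fin (t + 1), (b i : ℝ) * (((m + J + (i : ℕ) : ℕ) : ℝ) + 1) * p ^ (i : ℕ)| := by
      rw [h7]
      have h8 := abs_sub_abs_le_abs_sub (((m : ℝ) + J + 1) * fz b p) (-(∑ i : Fin (t + 1), (b i : ℝ) * ((i : ℕ) : ℝ) * p ^ (i : ℕ)))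
      rw [sub_neg_eq_add, abs_neg, abs_mul, abs_of_pos (by positivity : 0 < (m : ℝ) + J + 1)] at h8
      have h9 : ((m : ℝ) + 1) * (3 / 4 * |y|) ≤ ((m : ℝ) + J + 1) * |fz b p| := by
        have : (0 : ℝ) ≤ J := Nat.cast_nonneg J
        exact mul_le_mul (by linarith) h4 (by positivity) (by positivity)
      have h10 : (m : ℝ) * η ≤ (m + 1) * |y| := by
        have : (0 : ℝ) ≤ m := Nat.cast_nonneg m
        nlinarith
      linarith
    have h8 := est (R := R) (H := H) (J := J) b hZ ht ha hpa hpq hqR h1 h2 hy0 hlow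
    refine h8.trans (mul_le_mul_of_nonneg_left (add_le_add le_rfl ?_) (by linarith))
    have h9 : 2 * Real.pi * (L * (12 * H * (1 + J + L) ^ 2 * R ^ (J + L + 1) / a ^ m)) = B / a ^ m := by
      rw [hB]; ring
    rw [h9, div_le_iff₀ (by positivity)]
    rw [div_le_iff₀ hδ] at hm1
    linarith

theorem local_prod {a x0 : ℝ} (ha : 1 < a) (hx : a < x0) (H : ℕ) (c : ℤ → ℂ) (hc : c 0 = 1) (J L : ℕ) {δ : ℝ} (hδ : 0 < δ) :
    ∃ n0 : ℕ, ∃ ρ > 0, ∀ n ≥ n0, ∀ p q, x0 - ρ < p → p < q → q < x0 + ρ → 1 ≤ q ^ n - p ^ n → q ^ n - p ^ n ≤ 2 →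
      ∀ s : ℕ → ℝ, ‖(∫ x in p..q, ∏ j ∈ Finset.range L, gpoly H c (x ^ (n + J + j) + s j)) - ((q - p : ℝ) : ℂ)‖ ≤
        (q - p) * (2 * (∑ t ∈ Finset.range L, ∑ b ∈ Z H t, wt c b * cut ((a ^ J)⁻¹) (fz b x0)) + δ) := by
  set W : ℝ := ∑ t ∈ Finset.range L, ∑ b ∈ Z H t, wt c b with hW
  have hW0 : 0 ≤ W := Finset.sum_nonneg fun t _ => Finset.sum_nonneg fun b _ => wt_nonneg c b
  obtain ⟨n0, ρ, hρ, h⟩ := local_bound ha hx H J L (δ := δ / (W + 1)) (by positivity)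
  refine ⟨n0, ρ, hρ, fun n hn p q hp hpq hq h1 h2 s => (int_bound H (n + J) L c hc s p q).trans ?_⟩
  have h3 : ∀ t ∈ Finset.range L, ∑ b ∈ Z H t, wt c b * ‖∫ x in p..q, e (∑ i : Fin (t + 1), (b i : ℝ) * x ^ (n + J + (i : ℕ)))‖ ≤
      ∑ b ∈ Z H t, wt c b * ((q - p) * (2 * cut ((a ^ J)⁻¹) (fz b x0) + δ / (W + 1))) := fun t ht =>
    Finset.sum_le_sum fun b hb => mul_le_mul_of_nonneg_left (h n hn p q hp hpq hq h1 h2 t (Finset.mem_range.1 ht) b hb) (wt_nonneg c b)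
  refine (Finset.sum_le_sum h3).trans ?_
  have h4 : ∑ t ∈ Finset.range L, ∑ b ∈ Z H t, wt c b * ((q - p) * (2 * cut ((a ^ J)⁻¹) (fz b x0) + δ / (W + 1))) =
      (q - p) * (2 * (∑ t ∈ Finset.range L, ∑ b ∈ Z H t, wt c b * cut ((a ^ J)⁻¹) (fz b x0)) + W * (δ / (W + 1))) := by
    rw [hW, Finset.mul_sum, Finset.sum_mul, ← Finset.sum_add_distrib, Finset.mul_sum]
    refine Finset.sum_congr rfl fun t _ => ?_
    rw [Finset.mul_sum, Finset.sum_mul, ← Finset.sum_add_distrib, Finset.mul_sum]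
    refine Finset.sum_congr rfl fun b _ => ?_
    ring
  rw [h4]
  refine mul_le_mul_of_nonneg_left (add_le_add le_rfl ?_) (by linarith)
  rw [mul_div_assoc', div_le_iff₀ (by positivity)]
  nlinarith

end Pool.Agent.Helper87.GP
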