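import Pool.Agent.Helper78.KD.Defs
import Pool.Agent.Helper18.KD.Mass

/-!
# GP, lower glue: exponential moments of the increments on a tree from averages of products
-/

set_option autoImplicit false
open MeasureTheory Set Filter Topology
open Pool.Agent.Helper78.KD

namespace Pool.Agent.Helper87.GP

variable {u v : ℕ → ℝ → ℝ} {a b β₁ β₂ : ℝ}

theorem contOn_u (hF : Fam u v a b β₁ β₂) (n : ℕ) : ContinuousOn (u n) (Icc a b) :=
  fun x hx => (hF.deriv n x hx).continuousAt.continuousWithinAt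

/-- the increments grow at least geometrically -/
theorem incr (hF : Fam u v a b β₁ β₂) (n : ℕ) {x y : ℝ} (hx : x ∈ Icc a b) (hy : y ∈ Icc a b) (hxy : x ≤ y) :
    β₁ * (u n y - u n x) ≤ u (n + 1) y - u (n + 1) x := by
  have hmono : MonotoneOn (fun z => u (n + 1) z - β₁ * u n z) (Icc a b) := by
    refine monotoneOn_of_deriv_nonneg (convex_Icc a b)
      ((contOn_u hF (n + 1)).sub (continuousOn_const.mul (contOn_u hF n))) ?_ ?_
    · intro z hz
      rw [interior_Icc] at hz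
      have hz' := Ioo_subset_Icc_self hz
      exact ((hF.deriv (n + 1) z hz').sub ((hF.deriv n z hz').const_mul β₁)).differentiableAt.differentiableWithinAt
    · intro z hz
      rw [interior_Icc] at hz
      have hz' := Ioo_subset_Icc_self hz
      have hd : deriv (fun z => u (n + 1) z - β₁ * u n z) z = v (n + 1) z - β₁ * v n z :=
        ((hF.deriv (n + 1) z hz').sub ((hF.deriv n z hz').const_mul β₁)).deriv
      rw [hd]
      linarith [(hF.growth n z hz').1]
  have h1 := hmono hx hy hxy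
  simp only at h1
  linarith

theorem incr_nonneg (hF : Fam u v a b β₁ β₂) (n : ℕ) {x y : ℝ} (hx : x ∈ Icc a b) (hy : y ∈ Icc a b) (hxy : x ≤ y) :
    0 ≤ u n y - u n x := by
  have hmono : MonotoneOn (u n) (Icc a b) := by
    refine monotoneOn_of_deriv_nonneg (convex_Icc a b) (contOn_u hF n) ?_ ?_
    · intro z hz
      rw [interior_Icc] at hz
      exact (hF.deriv n z (Ioo_subset_Icc_self hz)).differentiableAt.differentiableWithinAt
    · intro z hz
      rw [interior_Icc] at hz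
      rw [(hF.deriv n z (Ioo_subset_Icc_self hz)).deriv]
      exact (hF.pos n z (Ioo_subset_Icc_self hz)).le
  linarith [hmono hx hy hxy]

theorem osc_S (hF : Fam u v a b β₁ β₂) {φ : ℝ → ℝ} {K : ℝ} (hK : 0 ≤ K) (hlip : ∀ s t, |φ s - φ t| ≤ K * |s - t|) (n : ℕ)
    {x y : ℝ} (hx : x ∈ Icc a b) (hy : y ∈ Icc a b) (hxy : x ≤ y) :
    |S φ u n x - S φ u n y| ≤ K / (β₁ - 1) * (u n y - u n x) := by
  have hβ := hF.hβ
  have hβ' : 0 < β₁ - 1 := by linarith
  induction n with
  | zero =>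
    have := incr_nonneg hF 0 hx hy hxy
    simp only [S, Finset.range_zero, Finset.sum_empty, sub_self, abs_zero]
    positivity
  | succ n ih =>
    have h1 := incr_nonneg hF n hx hy hxy
    have h2 := incr hF n hx hy hxy
    have e1 : S φ u (n + 1) x - S φ u (n + 1) y = (S φ u n x - S φ u n y) + (φ (u n x) - φ (u n y)) := by
      simp only [S, Finset.sum_range_succ]; ring
    rw [e1]
    have h3 := hlip (u n x) (u n y)
    rw [abs_sub_comm (u n x), abs_of_nonneg h1] at h3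
    calc _ ≤ K / (β₁ - 1) * (u n y - u n x) + K * (u n y - u n x) := (abs_add_le _ _).trans (add_le_add ih h3)
      _ = K / (β₁ - 1) * (β₁ * (u n y - u n x)) := by field_simp; ring
      _ ≤ _ := mul_le_mul_of_nonneg_left h2 (by positivity)

/-- the oscillation constant -/
noncomputable def C0 (K β₁ : ℝ) : ℝ := 2 * K / (β₁ - 1)

theorem osc_cell (hF : Fam u v a b β₁ β₂) {φ : ℝ → ℝ} {K : ℝ} (hK : 0 ≤ K) (hlip : ∀ s t, |φ s - φ t| ≤ K * |s - t|) (n : ℕ)
    {x y : ℝ} (hx : x ∈ Icc a b) (hy : y ∈ Icc a b) (hxy : x ≤ y) (h2 : u n y - u n x ≤ 2) :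
    |S φ u n x - S φ u n y| ≤ C0 K β₁ := by
  have hβ' : 0 < β₁ - 1 := by linarith [hF.hβ]
  refine (osc_S hF hK hlip n hx hy hxy).trans ?_
  unfold C0
  rw [mul_div_right_comm, mul_comm (2 / (β₁ - 1)), ← mul_div_assoc, div_mul_eq_mul_div]
  exact div_le_div_of_nonneg_right (mul_le_mul_of_nonneg_left h2 hK) hβ'.le

/-- averages of products over short intervals are close to one -/
def AvgOK (g : ℝ → ℝ) (u : ℕ → ℝ → ℝ) (a b : ℝ) (J L : ℕ) : Prop :=
  ∀ n p q, a ≤ p → p < q → q ≤ b → 1 ≤ u n q - u n p → u n q - u n p ≤ 2 →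
    |(∫ x in p..q, ∏ j ∈ Finset.range L, g (u (n + J + j) x)) - (q - p)| ≤ (q - p) / 2

/-- the tree of a family together with the sizes of the increments -/
structure TrOK (T : Tr) (u : ℕ → ℝ → ℝ) (a b : ℝ) (L : ℕ) : Prop where
  mem : ∀ k i, i ≤ T.N k → T.t k i ∈ Icc a b
  inc : ∀ k i, i < T.N k → 1 ≤ u (k * L) (T.t k (i + 1)) - u (k * L) (T.t k i) ∧
        u (k * L) (T.t k (i + 1)) - u (k * L) (T.t k i) ≤ 2

/-- the value of a cell -/
noncomputable def Mt (T : Tr) (φ : ℝ → ℝ) (u : ℕ → ℝ → ℝ) (L k i : ℕ) : ℝ := S φ u (k * L) (T.t k i)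

theorem cell_osc (hF : Fam u v a b β₁ β₂) {φ : ℝ → ℝ} {K : ℝ} (hK : 0 ≤ K) (hlip : ∀ s t, |φ s - φ t| ≤ K * |s - t|)
    {T : Tr} {L : ℕ} (hT : TrOK T u a b L) {k i : ℕ} (hi : i < T.N k) {x : ℝ} (hx : x ∈ T.cell k i) :
    |Mt T φ u L k i - S φ u (k * L) x| ≤ C0 K β₁ := by
  have h1 := hT.mem k i hi.le
  have h2 := hT.mem k (i + 1) hi
  have h3 : x ∈ Icc a b := ⟨h1.1.trans hx.1, hx.2.trans h2.2⟩
  refine osc_cell hF hK hlip (k * L) h1 h3 hx.1 ?_
  have h4 := incr_nonneg hF (k * L) h3 h2 hx.2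
  linarith [(hT.inc k i hi).2]

theorem S_block (φ : ℝ → ℝ) (u : ℕ → ℝ → ℝ) (n J L : ℕ) (x : ℝ) :
    S φ u (n + (J + L)) x - S φ u n x = ∑ j ∈ Finset.range J, φ (u (n + j) x) + ∑ j ∈ Finset.range L, φ (u (n + J + j) x) := by
  unfold S
  rw [Finset.sum_range_add, Finset.sum_range_add, add_sub_cancel_left]
  simp only [add_assoc]

/-- comparison of the sum over the children with the integral -/
theorem sum_ch_le (hF : Fam u v a b β₁ β₂) {φ : ℝ → ℝ} {K : ℝ} (hK : 0 ≤ K) (hlip : ∀ s t, |φ s - φ t| ≤ K * |s - t|)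
    {T : Tr} {L : ℕ} (hT : TrOK T u a b L) (θ : ℝ) {k i : ℕ} (hi : i < T.N k) :
    ∑ j ∈ T.ch k i, T.len (k + 1) j * Real.exp (θ * (Mt T φ u L (k + 1) j - Mt T φ u L k i)) ≤
      Real.exp (|θ| * (2 * C0 K β₁)) *
        ∫ x in (T.t k i)..(T.t k (i + 1)), Real.exp (θ * (S φ u ((k + 1) * L) x - S φ u (k * L) x)) ∧
    Real.exp (-(|θ| * (2 * C0 K β₁))) *
        (∫ x in (T.t k i)..(T.t k (i + 1)), Real.exp (θ * (S φ u ((k + 1) * L) x - S φ u (k * L) x))) ≤
      ∑ j ∈ T.ch k i, T.len (k + 1) j * Real.exp (θ * (Mt T φ u L (k + 1) j - Mt T φ u L k i)) := by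
  have hφ : Continuous φ := by
    have : LipschitzWith (Real.toNNReal K) φ := LipschitzWith.of_dist_le_mul fun s t => by
      rw [Real.dist_eq, Real.dist_eq, Real.coe_toNNReal _ hK]; exact hlip s t
    exact this.continuous
  set f : ℝ → ℝ := fun x => Real.exp (θ * (S φ u ((k + 1) * L) x - S φ u (k * L) x)) with hf
  have hSc : ∀ n, ContinuousOn (S φ u n) (Icc a b) := fun n => by
    unfold S
    exact continuousOn_finsetSum _ fun m _ => hφ.comp_continuousOn (contOn_u hF m)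
  have hfc : ContinuousOn f (Icc a b) := by
    exact Real.continuous_exp.comp_continuousOn (continuousOn_const.mul ((hSc _).sub (hSc _)))
  have hmem : ∀ j, T.J k i ≤ j → j < T.J k (i + 1) → j < T.N (k + 1) := fun j _ h2 =>
    lt_of_lt_of_le h2 (Pool.Agent.Helper18.KD.J_le T k hi)
  have hle : T.J k i ≤ T.J k (i + 1) := (T.Jlt k i hi).le
  have hint : ∀ j, j < T.N (k + 1) → IntervalIntegrable f volume (T.t (k + 1) j) (T.t (k + 1) (j + 1)) := fun j hj => by
    refine ContinuousOn.intervalIntegrable (hfc.mono ?_)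
    exact uIcc_subset_Icc (hT.mem (k + 1) j hj.le) (hT.mem (k + 1) (j + 1) hj)
  have hsum : ∑ j ∈ T.ch k i, ∫ x in (T.t (k + 1) j)..(T.t (k + 1) (j + 1)), f x = ∫ x in (T.t k i)..(T.t k (i + 1)), f x := by
    unfold Tr.ch
    rw [intervalIntegral.sum_integral_adjacent_intervals_Ico hle fun j hj => hint j (hmem j hj.1 hj.2),
      T.ref k i hi.le, T.ref k (i + 1) hi]
  have hterm : ∀ j ∈ T.ch k i, ∀ x ∈ Icc (T.t (k + 1) j) (T.t (k + 1) (j + 1)),
      |(Mt T φ u L (k + 1) j - Mt T φ u L k i) - (S φ u ((k + 1) * L) x - S φ u (k * L) x)| ≤ 2 * C0 K β₁ := by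
    intro j hj x hx
    unfold Tr.ch at hj
    rw [Finset.mem_Ico] at hj
    have hjN := hmem j hj.1 hj.2
    have h1 := cell_osc hF hK hlip hT hjN (x := x) hx
    have h2 : x ∈ T.cell k i := by
      have h3 := Pool.Agent.Helper18.KD.t_mono T (k + 1) hj.1 hjN.le
      have h4 := Pool.Agent.Helper18.KD.t_mono T (k + 1) (show j + 1 ≤ T.J k (i + 1) by omega) (Pool.Agent.Helper18.KD.J_le T k hi)
      rw [T.ref k i hi.le] at h3
      rw [T.ref k (i + 1) hi] at h4
      exact ⟨h3.trans hx.1, hx.2.trans h4⟩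
    have h3 := cell_osc hF hK hlip hT hi h2
    have e1 : (Mt T φ u L (k + 1) j - Mt T φ u L k i) - (S φ u ((k + 1) * L) x - S φ u (k * L) x) =
      (Mt T φ u L (k + 1) j - S φ u ((k + 1) * L) x) - (Mt T φ u L k i - S φ u (k * L) x) := by ring
    rw [e1]
    refine (abs_sub _ _).trans ?_
    linarith
  have hexp : ∀ y z : ℝ, |y - z| ≤ 2 * C0 K β₁ → Real.exp (θ * y) ≤ Real.exp (|θ| * (2 * C0 K β₁)) * Real.exp (θ * z) := by
    intro y z hyz
    rw [← Real.exp_add]
    refine Real.exp_le_exp.2 ?_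
    have h1 : θ * (y - z) ≤ |θ| * (2 * C0 K β₁) :=
      (le_abs_self _).trans ((abs_mul θ (y - z)).le.trans (mul_le_mul_of_nonneg_left hyz (abs_nonneg _)))
    linarith
  constructor
  · rw [← hsum, Finset.mul_sum]
    refine Finset.sum_le_sum fun j hj => ?_
    have hj' := hj
    unfold Tr.ch at hj'
    rw [Finset.mem_Ico] at hj'
    have hjN := hmem j hj'.1 hj'.2
    have hlt := T.lt (k + 1) j hjN
    rw [← intervalIntegral.integral_const_mul]
    have e1 : T.len (k + 1) j * Real.exp (θ * (Mt T φ u L (k + 1) j - Mt T φ u L k i)) =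
        ∫ x in (T.t (k + 1) j)..(T.t (k + 1) (j + 1)), Real.exp (θ * (Mt T φ u L (k + 1) j - Mt T φ u L k i)) := by
      rw [intervalIntegral.integral_const, smul_eq_mul]
      rfl
    rw [e1]
    refine intervalIntegral.integral_mono_on hlt.le intervalIntegrable_const ((hint j hjN).const_mul _) fun x hx => ?_
    exact hexp _ _ (hterm j hj x hx)
  · rw [← hsum, Finset.mul_sum]
    refine Finset.sum_le_sum fun j hj => ?_
    have hj' := hj
    unfold Tr.ch at hj'
    rw [Finset.mem_Ico] at hj'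
    have hjN := hmem j hj'.1 hj'.2
    have hlt := T.lt (k + 1) j hjN
    rw [← intervalIntegral.integral_const_mul]
    have e1 : T.len (k + 1) j * Real.exp (θ * (Mt T φ u L (k + 1) j - Mt T φ u L k i)) =
        ∫ x in (T.t (k + 1) j)..(T.t (k + 1) (j + 1)), Real.exp (θ * (Mt T φ u L (k + 1) j - Mt T φ u L k i)) := by
      rw [intervalIntegral.integral_const, smul_eq_mul]
      rfl
    rw [e1]
    refine intervalIntegral.integral_mono_on hlt.le ((hint j hjN).const_mul _) intervalIntegrable_const fun x hx => ?_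
    have h1 := hexp _ _ (by rw [abs_sub_comm]; exact hterm j hj x hx)
    rw [Real.exp_neg]
    rw [inv_mul_le_iff₀ (Real.exp_pos _)]
    exact h1

end Pool.Agent.Helper87.GP
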