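import Pool.Agent.Helper87.GP.Mgf
import Pool.Agent.Helper18.KD.LowerTree

/-!
# GP, lower glue: the lower bound of one family
-/

set_option autoImplicit false
open MeasureTheory Set Filter Topology
open Pool.Agent.Helper78.KD

namespace Pool.Agent.Helper87.GP

variable {u v : ℕ → ℝ → ℝ} {a b β₁ β₂ : ℝ}

theorem lip_cont {φ : ℝ → ℝ} {K : ℝ} (hK : 0 ≤ K) (hlip : ∀ s t, |φ s - φ t| ≤ K * |s - t|) : Continuous φ := by
  have : LipschitzWith (Real.toNNReal K) φ := LipschitzWith.of_dist_le_mul fun s t => by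
    rw [Real.dist_eq, Real.dist_eq, Real.coe_toNNReal _ hK]; exact hlip s t
  exact this.continuous

theorem contOn_S (hF : Fam u v a b β₁ β₂) {φ : ℝ → ℝ} (hφ : Continuous φ) (n : ℕ) : ContinuousOn (S φ u n) (Icc a b) := by
  unfold S
  exact continuousOn_finsetSum _ fun m _ => hφ.comp_continuousOn (contOn_u hF m)

theorem contOn_prod (hF : Fam u v a b β₁ β₂) {g : ℝ → ℝ} (hg : Continuous g) (n J L : ℕ) :
    ContinuousOn (fun x => ∏ j ∈ Finset.range L, g (u (n + J + j) x)) (Icc a b) :=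
  continuousOn_finsetProd _ fun m _ => hg.comp_continuousOn (contOn_u hF _)

theorem block_bounds (φ : ℝ → ℝ) (hb : ∀ t, |φ t| ≤ 1) (u : ℕ → ℝ → ℝ) (n J L : ℕ) (θ x : ℝ) :
    |θ * (S φ u (n + (J + L)) x - S φ u n x) - θ * ∑ j ∈ Finset.range L, φ (u (n + J + j) x)| ≤ |θ| * J := by
  rw [S_block, ← mul_sub, add_sub_cancel_right, abs_mul]
  refine mul_le_mul_of_nonneg_left ?_ (abs_nonneg _)
  refine (Finset.abs_sum_le_sum_abs _ _).trans ((Finset.sum_le_sum fun j _ => hb _).trans ?_)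
  simp

theorem mgf_le (hF : Fam u v a b β₁ β₂) {φ : ℝ → ℝ} {K : ℝ} (hK : 0 ≤ K) (hlip : ∀ s t, |φ s - φ t| ≤ K * |s - t|)
    (hb : ∀ t, |φ t| ≤ 1) {T : Tr} {J L : ℕ} (hT : TrOK T u a b (J + L)) (θ : ℝ) {g : ℝ → ℝ} (hgc : Continuous g) {m : ℝ}
    (hm : 0 < m) (hg : ∀ t, Real.exp (θ * φ t) ≤ m * g t) (hA : AvgOK g u a b J L) :
    T.MGFle (Mt T φ u (J + L)) θ (|θ| * (2 * C0 K β₁ + J) + L * Real.log m + Real.log 2) := by
  intro k i hi
  refine (sum_ch_le hF hK hlip hT θ hi).1.trans ?_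
  have h1 := hT.mem k i hi.le
  have h2 := hT.mem k (i + 1) hi
  have hlt := T.lt k i hi
  obtain ⟨h3, h4⟩ := hT.inc k i hi
  have hsub : Icc (T.t k i) (T.t k (i + 1)) ⊆ Icc a b := Icc_subset_Icc h1.1 h2.2
  have h5 : ∀ x, Real.exp (θ * (S φ u ((k + 1) * (J + L)) x - S φ u (k * (J + L)) x)) ≤
      Real.exp (|θ| * J) * (m ^ L * ∏ j ∈ Finset.range L, g (u (k * (J + L) + J + j) x)) := by
    intro x
    have h6 := block_bounds φ hb u (k * (J + L)) J L θ x
    rw [show (k + 1) * (J + L) = k * (J + L) + (J + L) by ring]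
    have h7 : Real.exp (θ * (S φ u (k * (J + L) + (J + L)) x - S φ u (k * (J + L)) x)) ≤
        Real.exp (|θ| * J) * Real.exp (θ * ∑ j ∈ Finset.range L, φ (u (k * (J + L) + J + j) x)) := by
      rw [← Real.exp_add]
      refine Real.exp_le_exp.2 ?_
      linarith [(abs_le.1 h6).2]
    refine h7.trans (mul_le_mul_of_nonneg_left ?_ (Real.exp_pos _).le)
    rw [Finset.mul_sum, Real.exp_sum]
    have h8 : m ^ L * ∏ j ∈ Finset.range L, g (u (k * (J + L) + J + j) x) = ∏ j ∈ Finset.range L, (m * g (u (k * (J + L) + J + j) x)) := by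
      rw [Finset.prod_mul_distrib]; simp
    rw [h8]
    exact Finset.prod_le_prod (fun j _ => (Real.exp_pos _).le) fun j _ => hg _
  have h6 : ∫ x in (T.t k i)..(T.t k (i + 1)), Real.exp (θ * (S φ u ((k + 1) * (J + L)) x - S φ u (k * (J + L)) x)) ≤
      ∫ x in (T.t k i)..(T.t k (i + 1)), Real.exp (|θ| * J) * (m ^ L * ∏ j ∈ Finset.range L, g (u (k * (J + L) + J + j) x)) := by
    refine intervalIntegral.integral_mono_on hlt.le ?_ ?_ fun x _ => h5 x
    · refine ContinuousOn.intervalIntegrable ?_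
      rw [uIcc_of_le hlt.le]
      exact (Real.continuous_exp.comp_continuousOn (continuousOn_const.mul
        ((contOn_S hF (lip_cont hK hlip) _).sub (contOn_S hF (lip_cont hK hlip) _)))).mono hsub
    · refine ContinuousOn.intervalIntegrable ?_
      rw [uIcc_of_le hlt.le]
      exact (continuousOn_const.mul (continuousOn_const.mul (contOn_prod hF hgc _ _ _))).mono hsub
  rw [intervalIntegral.integral_const_mul, intervalIntegral.integral_const_mul] at h6
  have h7 := hA (k * (J + L)) (T.t k i) (T.t k (i + 1)) h1.1 hlt h2.2 h3 h4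
  have h8 : ∫ x in (T.t k i)..(T.t k (i + 1)), ∏ j ∈ Finset.range L, g (u (k * (J + L) + J + j) x) ≤ 2 * T.len k i := by
    have := (abs_le.1 h7).2
    unfold Tr.len
    linarith
  have h9 : Real.exp (|θ| * (2 * C0 K β₁ + J) + L * Real.log m + Real.log 2) =
      Real.exp (|θ| * (2 * C0 K β₁)) * (Real.exp (|θ| * J) * (m ^ L * 2)) := by
    rw [Real.exp_add, Real.exp_add, Real.exp_log (by norm_num), mul_add, Real.exp_add, ← Real.log_pow, Real.exp_log (by positivity)]
    ring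
  rw [h9]
  calc _ ≤ Real.exp (|θ| * (2 * C0 K β₁)) * (Real.exp (|θ| * J) * (m ^ L * (2 * T.len k i))) := by
        refine mul_le_mul_of_nonneg_left (h6.trans ?_) (Real.exp_pos _).le
        gcongr
    _ = _ := by ring

theorem mgf_ge (hF : Fam u v a b β₁ β₂) {φ : ℝ → ℝ} {K : ℝ} (hK : 0 ≤ K) (hlip : ∀ s t, |φ s - φ t| ≤ K * |s - t|)
    (hb : ∀ t, |φ t| ≤ 1) {T : Tr} {J L : ℕ} (hT : TrOK T u a b (J + L)) (θ : ℝ) {g : ℝ → ℝ} (hgc : Continuous g) {m : ℝ}
    (hm : 0 < m) (hg0 : ∀ t, 0 ≤ g t) (hg : ∀ t, m * g t ≤ Real.exp (θ * φ t)) (hA : AvgOK g u a b J L) :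
    T.MGFge (Mt T φ u (J + L)) θ (-(|θ| * (2 * C0 K β₁ + J)) + L * Real.log m - Real.log 2) := by
  intro k i hi
  refine le_trans ?_ (sum_ch_le hF hK hlip hT θ hi).2
  have h1 := hT.mem k i hi.le
  have h2 := hT.mem k (i + 1) hi
  have hlt := T.lt k i hi
  obtain ⟨h3, h4⟩ := hT.inc k i hi
  have hsub : Icc (T.t k i) (T.t k (i + 1)) ⊆ Icc a b := Icc_subset_Icc h1.1 h2.2
  have h5 : ∀ x, Real.exp (-(|θ| * J)) * (m ^ L * ∏ j ∈ Finset.range L, g (u (k * (J + L) + J + j) x)) ≤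
      Real.exp (θ * (S φ u ((k + 1) * (J + L)) x - S φ u (k * (J + L)) x)) := by
    intro x
    have h6 := block_bounds φ hb u (k * (J + L)) J L θ x
    rw [show (k + 1) * (J + L) = k * (J + L) + (J + L) by ring]
    have h7 : Real.exp (-(|θ| * J)) * Real.exp (θ * ∑ j ∈ Finset.range L, φ (u (k * (J + L) + J + j) x)) ≤
        Real.exp (θ * (S φ u (k * (J + L) + (J + L)) x - S φ u (k * (J + L)) x)) := by
      rw [← Real.exp_add]
      refine Real.exp_le_exp.2 ?_
      linarith [(abs_le.1 h6).1]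
    refine le_trans (mul_le_mul_of_nonneg_left ?_ (Real.exp_pos _).le) h7
    rw [Finset.mul_sum, Real.exp_sum]
    have h8 : m ^ L * ∏ j ∈ Finset.range L, g (u (k * (J + L) + J + j) x) = ∏ j ∈ Finset.range L, (m * g (u (k * (J + L) + J + j) x)) := by
      rw [Finset.prod_mul_distrib]; simp
    rw [h8]
    exact Finset.prod_le_prod (fun j _ => mul_nonneg hm.le (hg0 _)) fun j _ => hg _
  have h6 : ∫ x in (T.t k i)..(T.t k (i + 1)), Real.exp (-(|θ| * J)) * (m ^ L * ∏ j ∈ Finset.range L, g (u (k * (J + L) + J + j) x)) ≤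
      ∫ x in (T.t k i)..(T.t k (i + 1)), Real.exp (θ * (S φ u ((k + 1) * (J + L)) x - S φ u (k * (J + L)) x)) := by
    refine intervalIntegral.integral_mono_on hlt.le ?_ ?_ fun x _ => h5 x
    · refine ContinuousOn.intervalIntegrable ?_
      rw [uIcc_of_le hlt.le]
      exact (continuousOn_const.mul (continuousOn_const.mul (contOn_prod hF hgc _ _ _))).mono hsub
    · refine ContinuousOn.intervalIntegrable ?_
      rw [uIcc_of_le hlt.le]
      exact (Real.continuous_exp.comp_continuousOn (continuousOn_const.mul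
        ((contOn_S hF (lip_cont hK hlip) _).sub (contOn_S hF (lip_cont hK hlip) _)))).mono hsub
  rw [intervalIntegral.integral_const_mul, intervalIntegral.integral_const_mul] at h6
  have h7 := hA (k * (J + L)) (T.t k i) (T.t k (i + 1)) h1.1 hlt h2.2 h3 h4
  have h8 : T.len k i / 2 ≤ ∫ x in (T.t k i)..(T.t k (i + 1)), ∏ j ∈ Finset.range L, g (u (k * (J + L) + J + j) x) := by
    have := (abs_le.1 h7).1
    unfold Tr.len
    linarith
  have h9 : Real.exp (-(|θ| * (2 * C0 K β₁ + J)) + L * Real.log m - Real.log 2) =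
      Real.exp (-(|θ| * (2 * C0 K β₁))) * (Real.exp (-(|θ| * J)) * (m ^ L / 2)) := by
    rw [sub_eq_add_neg, Real.exp_add, Real.exp_add, Real.exp_neg (Real.log 2), Real.exp_log (by norm_num), mul_add, neg_add,
      Real.exp_add, ← Real.log_pow, Real.exp_log (by positivity)]
    ring
  rw [h9]
  calc _ = Real.exp (-(|θ| * (2 * C0 K β₁))) * (Real.exp (-(|θ| * J)) * (m ^ L * (T.len k i / 2))) := by ring
    _ ≤ _ := by
        refine mul_le_mul_of_nonneg_left (le_trans ?_ h6) (Real.exp_pos _).le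
        gcongr

end Pool.Agent.Helper87.GP
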