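import Pool.Agent.Helper87.GP.Glue

/-!
# GP, lower bound: the good points with an explicit exponent
-/

set_option autoImplicit false
open MeasureTheory Set Filter Topology
open Pool.Agent.Helper78.KD

namespace Pool.Agent.Helper87.GP

theorem near_kap {a b κ C : ℝ} (ha : 1 < a) (hab : a ≤ b) {H : ℕ} (hκ : 0 < κ) (hκ1 : κ ≤ 1) (hC : 0 < C)
    (hsub : ∀ (s : ℕ) (c : ℕ → ℝ), 1 ≤ |c s| → (∀ i ≤ s, |c i| ≤ H) → ∀ ρ : ℝ, 0 < ρ →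
      volume {x : ℝ | x ∈ Icc a b ∧ |∑ i ∈ Finset.range (s + 1), c i * x ^ i| ≤ ρ} ≤
        ENNReal.ofReal (C * (ρ * a ^ (-(s : ℝ))) ^ κ))
    (c : ℤ → ℂ) (g : ℝ → ℝ) (hg : ∀ t, gpoly H c t = (g t : ℂ)) (hc : c 0 = 1)
    (hW : ∑ h ∈ Finset.Icc (-(H : ℤ)) H, ‖c h‖ < a ^ (κ / 2)) : ∀ᵐ x₀ : ℝ, x₀ ∈ Ioo a b → Near g x₀ := by
  have hZ : ∀ (t : ℕ), ∀ β ∈ Z H t, ∀ ρ : ℝ, 0 < ρ →
      volume {x : ℝ | x ∈ Icc a b ∧ |fz β x| ≤ ρ} ≤ ENNReal.ofReal (C * (ρ * a ^ (-(t : ℝ))) ^ κ) := by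
    intro t β hβ ρ hρ
    set cc : ℕ → ℝ := fun i => if hi : i < t + 1 then (β ⟨i, hi⟩ : ℝ) else 0 with hcc
    have h1 : 1 ≤ |cc t| := by
      have h2 : cc t = (β (Fin.last t) : ℝ) := by
        simp only [hcc, dif_pos (Nat.lt_succ_self t)]
        rfl
      rw [h2]
      exact Z_last hβ
    have h2 : ∀ i ≤ t, |cc i| ≤ H := fun i hi => by
      simp only [hcc, dif_pos (Nat.lt_succ_of_le hi)]
      exact Z_abs hβ _
    have h3 : ∀ x : ℝ, ∑ i ∈ Finset.range (t + 1), cc i * x ^ i = fz β x := fun x => by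
      unfold fz
      rw [Finset.sum_range]
      refine Finset.sum_congr rfl fun i _ => ?_
      simp only [hcc, dif_pos i.2, Fin.eta]
    have h4 := hsub t cc h1 h2 ρ hρ
    simp_rw [h3] at h4
    exact h4
  have h1 := ae_small ha hab hκ hκ1 hC hZ c hW
  rw [ae_restrict_iff' measurableSet_Icc] at h1
  filter_upwards [h1] with x₀ hx₀ hx
  obtain ⟨J0, hJ0⟩ := hx₀ ⟨hx.1.le, hx.2.le⟩ (1 / 8) (by norm_num)
  refine ⟨J0, fun J hJ L => ?_⟩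
  obtain ⟨n0, ρ, hρ, h⟩ := local_prod ha hx.1 H c hc J L (δ := 1 / 4) (by norm_num)
  refine ⟨n0, ρ, hρ, fun n hn p q hp hpq hq h1 h2 s => ?_⟩
  have h3 := h n hn p q hp hpq hq h1 h2 s
  have h5 : ∑ t ∈ Finset.range L, ∑ b ∈ Z H t, wt c b * cut ((a ^ J)⁻¹) (fz b x₀) ≤ 1 / 8 := hJ0 J hJ L
  have h4 : ∀ x : ℝ, ∏ j ∈ Finset.range L, gpoly H c (x ^ (n + J + j) + s j) =
      ((∏ j ∈ Finset.range L, g (x ^ (n + J + j) + s j) : ℝ) : ℂ) := by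
    intro x
    push_cast
    exact Finset.prod_congr rfl fun j _ => by rw [hg]
  simp_rw [h4] at h3
  rw [intervalIntegral.integral_ofReal, ← Complex.ofReal_sub, Complex.norm_real, Real.norm_eq_abs] at h3
  refine h3.trans ?_
  have h6 : (q - p) * (2 * (∑ t ∈ Finset.range L, ∑ b ∈ Z H t, wt c b * cut ((a ^ J)⁻¹) (fz b x₀)) + 1 / 4) ≤
      (q - p) * (1 / 2) := mul_le_mul_of_nonneg_left (by linarith) (by linarith)
  linarith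

theorem near_mono {g : ℝ → ℝ} {a b a' b' : ℝ} (h : ∀ᵐ x₀ : ℝ, x₀ ∈ Ioo a b → Near g x₀) (ha : a ≤ a') (hb : b' ≤ b) :
    ∀ᵐ x₀ : ℝ, x₀ ∈ Ioo a' b' → Near g x₀ := by
  filter_upwards [h] with x hx hx'
  exact hx ⟨lt_of_le_of_lt ha hx'.1, lt_of_lt_of_le hx'.2 hb⟩

end Pool.Agent.Helper87.GP
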