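import Pool.Agent.Helper82.FK.VC

/-!
# GP-G5: oscillation of polynomial phases on short intervals

On an interval on which `x ^ n` increases by at most `2` the phase `∑ h_i x ^ (n + J + i)` is almost linear.
-/

set_option autoImplicit false
open MeasureTheory Set Filter Topology Pool.Agent.Helper82.FK

namespace Pool.Agent.Helper87.GP

theorem e_sub_le (s t : ℝ) : ‖e s - e t‖ ≤ 2 * Real.pi * |s - t| := by
  have h1 : e s - e t = e t * (e (s - t) - 1) := by
    rw [mul_sub, ← e_add, mul_one]; congr 2; ring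
  rw [h1, norm_mul, norm_e, one_mul]
  unfold e
  rw [mul_comm ((2 * Real.pi * (s - t) : ℝ) : ℂ) Complex.I]
  refine (Real.norm_exp_I_mul_ofReal_sub_one_le).trans ?_
  rw [Real.norm_eq_abs, abs_mul, abs_of_pos Real.two_pi_pos]

/-- linear phases -/
theorem osc_lin {lam : ℝ} (hl : lam ≠ 0) (mu p q : ℝ) : ‖∫ x in p..q, e (mu + lam * (x - p))‖ ≤ 1 / (Real.pi * |lam|) := by
  have hd : ∀ x ∈ uIcc p q, HasDerivAt (fun x : ℝ => e (mu + lam * (x - p)) / (2 * Real.pi * lam * Complex.I)) (e (mu + lam * (x - p))) x := by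
    intro x _
    have h2 : HasDerivAt (fun x : ℝ => (mu + lam * (x - p) : ℝ)) lam x := by
      simpa using ((hasDerivAt_id x).sub_const p).const_mul lam |>.const_add mu
    have hne : (2 * Real.pi * (lam : ℂ) * Complex.I : ℂ) ≠ 0 := by
      simp [hl, Real.pi_ne_zero]
    have h4 := (hasDerivAt_e h2).div_const (2 * Real.pi * (lam : ℂ) * Complex.I : ℂ)
    rw [show ((2 * Real.pi * lam : ℝ) : ℂ) * Complex.I * e (mu + lam * (x - p)) =
      e (mu + lam * (x - p)) * (2 * Real.pi * (lam : ℂ) * Complex.I : ℂ) by push_cast; ring, mul_div_cancel_right₀ _ hne] at h4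
    exact h4
  rw [intervalIntegral.integral_eq_sub_of_hasDerivAt hd ((continuous_e.comp (by fun_prop)).intervalIntegrable _ _)]
  rw [← sub_div, norm_div]
  have h5 : ‖(2 * Real.pi * (lam : ℂ) * Complex.I : ℂ)‖ = 2 * Real.pi * |lam| := by
    rw [norm_mul, norm_mul, norm_mul, Complex.norm_I, mul_one, Complex.norm_real, Complex.norm_real, Real.norm_eq_abs, Real.norm_eq_abs,
      abs_of_pos Real.pi_pos]
    simp
  rw [h5, div_le_div_iff₀ (by positivity) (by positivity)]
  have h6 : ‖e (mu + lam * (q - p)) - e (mu + lam * (p - p))‖ ≤ 2 := by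
    refine (norm_sub_le _ _).trans ?_
    rw [norm_e, norm_e]; norm_num
  have h7 : 0 ≤ Real.pi * |lam| := by positivity
  nlinarith

/-- almost linear phases -/
theorem osc {P : ℝ → ℝ} (hP : Continuous P) {p q lam B : ℝ} (hpq : p ≤ q) (hl : lam ≠ 0)
    (hB : ∀ x ∈ Icc p q, |P x - P p - lam * (x - p)| ≤ B) :
    ‖∫ x in p..q, e (P x)‖ ≤ 1 / (Real.pi * |lam|) + 2 * Real.pi * B * (q - p) := by
  have h1 : ∫ x in p..q, e (P x) = (∫ x in p..q, e (P p + lam * (x - p))) + ∫ x in p..q, (e (P x) - e (P p + lam * (x - p))) := by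
    rw [← intervalIntegral.integral_add]
    · congr 1; ext x; ring
    · exact (continuous_e.comp (by fun_prop)).intervalIntegrable _ _
    · exact ((continuous_e.comp hP).sub (continuous_e.comp (by fun_prop))).intervalIntegrable _ _
  rw [h1]
  refine (norm_add_le _ _).trans (add_le_add (osc_lin hl _ _ _) ?_)
  refine (intervalIntegral.norm_integral_le_of_norm_le_const (C := 2 * Real.pi * B) fun x hx => ?_).trans_eq ?_
  · rw [uIoc_of_le hpq] at hx
    refine (e_sub_le _ _).trans ?_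
    have := hB x ⟨hx.1.le, hx.2⟩
    rw [show P x - (P p + lam * (x - p)) = P x - P p - lam * (x - p) by ring]
    have hpi := Real.pi_pos
    gcongr
  · rw [abs_of_nonneg (by linarith)]

theorem pow_lin (k : ℕ) {p x : ℝ} (hp : 1 ≤ p) (hx : p ≤ x) :
    0 ≤ x ^ (k + 1) - p ^ (k + 1) - (k + 1) * p ^ k * (x - p) ∧
      x ^ (k + 1) - p ^ (k + 1) - (k + 1) * p ^ k * (x - p) ≤ (k + 1) ^ 2 * x ^ (k + 1) * (x - p) ^ 2 := by
  induction k with
  | zero =>
    constructor
    · simp
    · simp only [zero_add, pow_one, Nat.cast_zero, pow_zero, one_mul, mul_one, sub_self, one_pow]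
      have : 0 ≤ x * (x - p) ^ 2 := by have : 0 ≤ x := by linarith
                                       positivity
      linarith
  | succ k ih =>
    obtain ⟨h1, h2⟩ := ih
    have hx0 : 1 ≤ x := hp.trans hx
    have e : x ^ (k + 1 + 1) - p ^ (k + 1 + 1) - ((k + 1 : ℕ) + 1) * p ^ (k + 1) * (x - p) =
        x * (x ^ (k + 1) - p ^ (k + 1) - (k + 1) * p ^ k * (x - p)) + (k + 1) * p ^ k * (x - p) ^ 2 := by
      push_cast; ring
    rw [e]
    have h3 : 0 ≤ (k + 1) * p ^ k * (x - p) ^ 2 := by positivity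
    constructor
    · have : 0 ≤ x * (x ^ (k + 1) - p ^ (k + 1) - (k + 1) * p ^ k * (x - p)) := mul_nonneg (by linarith) h1
      linarith
    · have h4 : x * (x ^ (k + 1) - p ^ (k + 1) - (k + 1) * p ^ k * (x - p)) ≤ x * ((k + 1) ^ 2 * x ^ (k + 1) * (x - p) ^ 2) :=
        mul_le_mul_of_nonneg_left h2 (by linarith)
      have h5 : p ^ k ≤ x ^ (k + 1 + 1) := (pow_le_pow_left₀ (by linarith) hx k).trans (pow_le_pow_right₀ hx0 (by omega))
      have h6 : (k + 1) * p ^ k * (x - p) ^ 2 ≤ (k + 1) * x ^ (k + 1 + 1) * (x - p) ^ 2 := by gcongr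
      have h7 : 0 ≤ x ^ (k + 1 + 1) * (x - p) ^ 2 := by positivity
      calc _ ≤ x * ((k + 1) ^ 2 * x ^ (k + 1) * (x - p) ^ 2) + (k + 1) * x ^ (k + 1 + 1) * (x - p) ^ 2 := add_le_add h4 h6
        _ = ((k + 1) ^ 2 + (k + 1)) * (x ^ (k + 1 + 1) * (x - p) ^ 2) := by ring
        _ ≤ (((k + 1 : ℕ) + 1) ^ 2) * (x ^ (k + 1 + 1) * (x - p) ^ 2) := by
          refine mul_le_mul_of_nonneg_right ?_ h7
          push_cast
          nlinarith [(Nat.cast_nonneg k : (0:ℝ) ≤ k)]
        _ = _ := by push_cast; ring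

end Pool.Agent.Helper87.GP
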